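import Pool.Agent.TSX.Stmts
import Pool.Agent.TSR3.VCOX

set_option autoImplicit false

namespace Pool.Agent.TSX

theorem vco_proof : Stmt_VCO := Pool.Agent.TSR3.vco_proof

end Pool.Agent.TSX
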