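import Pool.Agent.TSX.Stmts

/-!
# TSX.ARM: signs and directions at the arms
-/

set_option autoImplicit false

namespace Pool.Agent.TSX

open Set Filter Topology Pool.Agent.TSM Pool.Agent.TSR

namespace ARM_

open Pool.Agent.TSC

/-! ### vectors -/

theorem det_rep (a b b' : E3) (x y x' y' : ℝ) :
    det3 a (x • a + y • b) (x' • a + y' • b') = -(y * y' * det3 b a b') := by
  simp only [det3, PiLp.add_apply, PiLp.smul_apply, smul_eq_mul]
  ring

theorem crs_rep (a b : E3) (x y : ℝ) : crs a (x • a + y • b) = y • crs a b := by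
  rw [crs_add_right, crs_smul_right, crs_smul_right, crs_self, smul_zero, zero_add]

theorem sign_mul_self {T : ℝ} (hT : T ≠ 0) : 0 < Real.sign T * T := by
  rcases lt_or_gt_of_ne hT with h | h
  · rw [Real.sign_of_neg h]
    linarith
  · rw [Real.sign_of_pos h]
    linarith

theorem rep_bound (x a b : E3) (h : crs a b ≠ 0) :
    ∃ D : ℝ, 0 ≤ D ∧ ∀ α β : ℝ, x = α • a + β • b → |α| ≤ D ∧ β ≤ D := by
  by_cases hex : ∃ α β : ℝ, x = α • a + β • b
  · obtain ⟨α, β, hx⟩ := hex
    refine ⟨|α| + |β|, by positivity, fun α' β' hx' => ?_⟩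
    have h1 : (α - α') • a + (β - β') • b = 0 := by
      have : α • a + β • b = α' • a + β' • b := by rw [← hx, ← hx']
      have h2 : (α - α') • a + (β - β') • b = (α • a + β • b) - (α' • a + β' • b) := by module
      rw [h2, this, sub_self]
    have h2 : (β - β') • crs a b = 0 := by
      have := congrArg (crs a) h1
      rw [crs_add_right, crs_smul_right, crs_smul_right, crs_self, smul_zero, zero_add] at this
      rw [this]
      apply e3ext <;> simp [crs0, crs1, crs2]
    have h3 : (α - α') • crs a b = 0 := by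
      have := congrArg (fun z => crs z b) h1
      rw [crs_add_left, crs_smul_left, crs_smul_left, crs_self, smul_zero, add_zero] at this
      rw [this]
      apply e3ext <;> simp [crs0, crs1, crs2]
    have h4 : β' = β := by
      rcases smul_eq_zero.1 h2 with h5 | h5
      · linarith
      · exact absurd h5 h
    have h6 : α' = α := by
      rcases smul_eq_zero.1 h3 with h5 | h5
      · linarith
      · exact absurd h5 h
    rw [h4, h6]
    exact ⟨by linarith [abs_nonneg β], by linarith [abs_nonneg α, le_abs_self β]⟩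
  · exact ⟨0, le_rfl, fun α β hx => absurd ⟨α, β, hx⟩ hex⟩

theorem eE_symm {V : Type} (p : V → E3) (v u w w' : V) : eE p v u w w' = eE p v u w' w := by
  unfold eE
  abel

theorem eE_form {V : Type} (p : V → E3) (v u w w' : V) :
    eE p v u w w' = (p w - p v) + (p w' - p v) - (p u - p v) := by
  unfold eE
  abel

section

variable {V : Type} [Fintype V] [DecidableEq V] {K : Surf V} {p : V → E3} {Φ : Finset Aff}
  {op : V → V → V → V} {v : V} {L : Pg (Option V)} {pr : Option V → Option V} {k : ℝ}

theorem side_rep (hvp : VP K p Φ op v L pr k) {u w : V} {j : Option V}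
    (h : Side K p Φ L v u w j) (hj : j ∈ L.S) :
    ∃ α β : ℝ, 0 < β ∧ p w - p v = α • (p u - p v) + β • L.p j := by
  rcases h with ⟨h1, -⟩ | ⟨h1, -, α, β, hβ, h2⟩
  · refine ⟨0, 1, one_pos, ?_⟩
    rw [h1] at hj ⊢
    rw [hvp.psome w hj]
    module
  · exact ⟨α, β, hβ, by rw [h1]; exact h2⟩

theorem nf (hvp : VP K p Φ op v L pr k) (u : V) : NF L (some u) := by
  intro h
  have := (hvp.cor _ h).1
  exact Option.some_ne_none u this

theorem X_of_none (hvp : VP K p Φ op v L pr k) (h : (none : Option V) ∈ L.S) :
    L.X = some none := by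
  cases hX : L.X with
  | none => exact absurd h (hvp.inn hX).1
  | some m => rw [(hvp.cor m hX).1]

/-- everything about the arm `some u` -/
theorem arm_base (hopp : IsOpp K op) (hvp : VP K p Φ op v L pr k) {u : V}
    (hu : some u ∈ L.S) : ∃ (w : V) (β β' : ℝ), Flag K p Φ op v u w ∧
      Side K p Φ L v u w (pr (some u)) ∧ Side K p Φ L v u (op v u w) (L.s (some u)) ∧
      0 < β ∧ 0 < β' ∧
      nE p op v u w = (β * Real.sign (L.turn (pr (some u)))) • L.nor (pr (some u)) ∧
      nE p op v u (op v u w) = (β' * Real.sign (L.turn (pr (some u)))) • L.nor (some u) ∧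
      0 < (inner ℝ (L.nor (some u))
        (Real.sign (L.turn (pr (some u))) • eE p v u w (op v u w)) : ℝ) ∧
      0 < (inner ℝ (L.nor (pr (some u)))
        (Real.sign (L.turn (pr (some u))) • eE p v u w (op v u w)) : ℝ) := by
  obtain ⟨w, hfl, hs1, hs2⟩ := hvp.arm u hu
  obtain ⟨j1, j2, -⟩ := hvp.ispr (some u) hu
  have j3 : L.s (some u) ∈ L.S := hvp.ok.maps _ hu
  obtain ⟨α, β, hβ, hw⟩ := side_rep hvp hs1 j1
  obtain ⟨α', β', hβ', hw'⟩ := side_rep hvp hs2 j3
  obtain ⟨-, -, -, hoo, -⟩ := hopp v u w hfl.1
  have hT : L.turn (pr (some u)) ≠ 0 := turn_pr_ne hvp.ok hvp.ispr hu (nf hvp u)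
  have hTd : L.turn (pr (some u)) =
      det3 (L.p (pr (some u))) (p u - p v) (L.p (L.s (some u))) := by
    unfold Pg.turn
    rw [j2, hvp.psome u hu]
  set T := L.turn (pr (some u)) with hTdef
  have hn1 : L.nor (pr (some u)) = crs (L.p (pr (some u))) (p u - p v) := by
    unfold Pg.nor
    rw [j2, hvp.psome u hu]
  have hn2 : L.nor (some u) = crs (p u - p v) (L.p (L.s (some u))) := by
    unfold Pg.nor
    rw [hvp.psome u hu]
  have hD : Dl p v u w (op v u w) = -(β * β' * T) := by
    unfold Dl
    rw [hw, hw', det_rep, hTd]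
  have hD' : Dl p v u (op v u w) w = β * β' * T := by
    unfold Dl at *
    rw [det3_swap', hD, neg_neg]
  have hbb : 0 < β * β' := mul_pos hβ hβ'
  have hsg : sg p op v u w = - Real.sign T := by
    unfold sg
    rw [hD, Real.sign_neg, sign_mul_pos hbb]
  have hsg' : sg p op v u (op v u w) = Real.sign T := by
    unfold sg
    rw [hoo, hD', sign_mul_pos hbb]
  have c1 : n0 p v u w = (-β) • L.nor (pr (some u)) := by
    unfold n0
    rw [hw, crs_rep, hn1, crs_anti (L.p (pr (some u)))]
    module
  have c2 : n0 p v u (op v u w) = β' • L.nor (some u) := by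
    unfold n0
    rw [hw', crs_rep, hn2]
  have hpos := sign_mul_self hT
  have d1 : (inner ℝ (n0 p v u w) (eE p v u w (op v u w)) : ℝ) = -(β * β' * T) := by
    rw [eE_form, inner_sub_right, inner_add_right]
    unfold n0
    rw [inner_crs, inner_crs, inner_crs, det3_self23, det3_self13, ← hD]
    unfold Dl
    ring
  have d2 : (inner ℝ (n0 p v u (op v u w)) (eE p v u w (op v u w)) : ℝ) = β * β' * T := by
    rw [eE_form, inner_sub_right, inner_add_right]
    unfold n0
    rw [inner_crs, inner_crs, inner_crs, det3_self23, det3_self13, ← hD']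
    unfold Dl
    ring
  refine ⟨w, β, β', hfl, hs1, hs2, hβ, hβ', ?_, ?_, ?_, ?_⟩
  · unfold nE
    rw [hsg, c1, smul_smul]
    congr 1
    ring
  · unfold nE
    rw [hsg', c2, smul_smul]
    congr 1
    ring
  · rw [c2, inner_smul_left] at d2
    simp only [conj_trivial] at d2
    have e1 : (inner ℝ (L.nor (some u)) (eE p v u w (op v u w)) : ℝ) = β * T := by
      have : β' * (inner ℝ (L.nor (some u)) (eE p v u w (op v u w)) : ℝ) = β' * (β * T) := by
        rw [d2]
        ring
      exact mul_left_cancel₀ hβ'.ne' this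
    rw [inner_smul_right, e1]
    have e2 : Real.sign T * (β * T) = β * (Real.sign T * T) := by ring
    rw [e2]
    exact mul_pos hβ hpos
  · rw [c1, inner_smul_left] at d1
    simp only [conj_trivial] at d1
    have e1 : (inner ℝ (L.nor (pr (some u))) (eE p v u w (op v u w)) : ℝ) = β' * T := by
      have : β * (inner ℝ (L.nor (pr (some u))) (eE p v u w (op v u w)) : ℝ) =
          β * (β' * T) := by
        linarith
      exact mul_left_cancel₀ hβ.ne' this
    rw [inner_smul_right, e1]
    have e2 : Real.sign T * (β' * T) = β' * (Real.sign T * T) := by ring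
    rw [e2]
    exact mul_pos hβ' hpos

/-- the flat vertex is not collinear to its neighbours -/
theorem crs_none (hvp : VP K p Φ op v L pr k) {u : V} (hu : some u ∈ L.S)
    (h : L.s (some u) = none ∨ pr (some u) = none) : crs (p u - p v) (L.p none) ≠ 0 := by
  intro h0
  have hT : L.turn (pr (some u)) ≠ 0 := turn_pr_ne hvp.ok hvp.ispr hu (nf hvp u)
  have j2 := (hvp.ispr (some u) hu).2.1
  apply hT
  unfold Pg.turn
  rw [j2, hvp.psome u hu]
  rcases h with h | h
  · rw [h, det3_rot, ← inner_crs, h0, inner_zero_left]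
  · rw [h, ← inner_crs, crs_anti, h0, neg_zero, inner_zero_left]

end

end ARM_

open ARM_ Pool.Agent.TSC in
theorem arm_proof : Stmt_ARM := by
  intro V _ _ K p Φ op v L pr k _ hopp hvp
  classical
  -- data at each arm
  have hall : ∀ u : V, ∃ (w : V) (β β' : ℝ), some u ∈ L.S → Flag K p Φ op v u w ∧
      Side K p Φ L v u w (pr (some u)) ∧ Side K p Φ L v u (op v u w) (L.s (some u)) ∧
      0 < β ∧ 0 < β' ∧
      nE p op v u w = (β * Real.sign (L.turn (pr (some u)))) • L.nor (pr (some u)) ∧
      nE p op v u (op v u w) = (β' * Real.sign (L.turn (pr (some u)))) • L.nor (some u) ∧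
      0 < (inner ℝ (L.nor (some u))
        (Real.sign (L.turn (pr (some u))) • eE p v u w (op v u w)) : ℝ) ∧
      0 < (inner ℝ (L.nor (pr (some u)))
        (Real.sign (L.turn (pr (some u))) • eE p v u w (op v u w)) : ℝ) := by
    intro u
    by_cases hu : some u ∈ L.S
    · obtain ⟨w, β, β', h⟩ := arm_base hopp hvp hu
      exact ⟨w, β, β', fun _ => h⟩
    · exact ⟨u, 0, 0, fun h => absurd h hu⟩
  choose W β β' hW using hall
  -- bounds
  have hbd : ∀ q : V × V, ∃ D : ℝ, 0 ≤ D ∧ (some q.1 ∈ L.S →
      (L.s (some q.1) = none ∨ pr (some q.1) = none) → ∀ α b : ℝ,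
      p q.2 - p v = α • (p q.1 - p v) + b • L.p none → |α| ≤ D ∧ b ≤ D) := by
    intro q
    by_cases hq : some q.1 ∈ L.S ∧ (L.s (some q.1) = none ∨ pr (some q.1) = none)
    · obtain ⟨D, hD, h⟩ := rep_bound (p q.2 - p v) _ _ (crs_none hvp hq.1 hq.2)
      exact ⟨D, hD, fun _ _ => h⟩
    · exact ⟨0, le_rfl, fun h1 h2 => absurd ⟨h1, h2⟩ hq⟩
  choose D hD0 hD using hbd
  obtain ⟨M, hM⟩ : ∃ M : ℝ, M = 1 + ∑ q, D q := ⟨_, rfl⟩
  have hM1 : 0 < M := by
    have := Finset.sum_nonneg fun q (_ : q ∈ (Finset.univ : Finset (V × V))) => hD0 q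
    linarith
  have hDM : ∀ q, D q ≤ M := by
    intro q
    have := Finset.single_le_sum (f := D) (fun q _ => hD0 q) (Finset.mem_univ q)
    linarith
  have hfl2 : ∀ u x, some u ∈ L.S → Flag K p Φ op v u x → x = W u ∨ x = op v u (W u) := by
    intro u x hu hf
    obtain ⟨-, -, -, -, h⟩ := hopp v u (W u) (hW u hu).1.1
    exact h x hf.1
  refine ⟨fun u => Real.sign (L.turn (pr (some u))), fun j => match j with
    | none => L.nor none
    | some u => Real.sign (L.turn (pr (some u))) • eE p v u (W u) (op v u (W u)),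
    1 / (2 * M), ?_⟩
  have hd : ∀ u x : V, some u ∈ L.S → (L.s (some u) = none ∨ pr (some u) = none) →
      ∀ α b : ℝ, 0 < b → p x - p v = α • (p u - p v) + b • L.p none →
      |α| * (1 / (2 * M)) ≤ 1 / 2 ∧ b * (1 / (2 * M)) ≤ 1 / 2 := by
    intro u x hu hn α b hb hx
    obtain ⟨h1, h2⟩ := hD (u, x) hu hn α b hx
    have h3 := hDM (u, x)
    constructor
    · rw [mul_one_div, div_le_div_iff₀ (by positivity) two_pos]
      linarith
    · rw [mul_one_div, div_le_div_iff₀ (by positivity) two_pos]
      linarith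
  constructor
  · positivity
  · intro u hu
    exact ⟨turn_pr_ne hvp.ok hvp.ispr hu (nf hvp u), rfl⟩
  · intro u x hf
    have hu := hvp.flag u x hf
    show Real.sign (L.turn (pr (some u))) • eE p v u (W u) (op v u (W u)) =
      Real.sign (L.turn (pr (some u))) • eE p v u x (op v u x)
    rcases hfl2 u x hu hf with h | h
    · rw [h]
    · obtain ⟨-, -, -, hoo, -⟩ := hopp v u (W u) (hW u hu).1.1
      rw [h, hoo, eE_symm]
  · rfl
  · intro u x hf
    have hu := hvp.flag u x hf
    obtain ⟨h1, h2, h3, h4, h5, h6, h7, -, -⟩ := hW u hu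
    rcases hfl2 u x hu hf with h | h
    · rw [h]
      refine ⟨pr (some u), pr (some u), L.s (some u), some u, β u, β' u,
        Or.inl ⟨rfl, rfl, rfl, rfl⟩, h2, h3, h4, h5, h6, h7, ?_⟩
      intro α b hb hx hn
      exact hd u _ hu (Or.inr hn) α b hb hx
    · obtain ⟨-, -, -, hoo, -⟩ := hopp v u (W u) h1.1
      rw [h]
      refine ⟨L.s (some u), some u, pr (some u), pr (some u), β' u, β u,
        Or.inr ⟨rfl, rfl, rfl, rfl⟩, h3, by rw [hoo]; exact h2, h5, h4, h7,
        by rw [hoo]; exact h6, ?_⟩
      intro α b hb hx hn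
      exact hd u _ hu (Or.inl hn) α b hb hx
  · -- positivity
    have hnn : (none : Option V) ∈ L.S → L.nor none ≠ 0 := by
      intro h h0
      have hX := X_of_none hvp h
      have h1 : L.s none ∈ L.S := hvp.ok.maps _ h
      have h2 := s_ne hvp.ok hvp.ispr h
      cases hs : L.s none with
      | none => exact h2 hs
      | some x =>
        rw [hs] at h1
        have hT := turn_pr_ne hvp.ok hvp.ispr h1 (nf hvp x)
        have hp : pr (some x) = none := by
          rw [← hs]
          exact (hvp.ispr none h).2.2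
        rw [hp] at hT
        apply hT
        have : L.turn none = (inner ℝ (L.nor none) (L.p (L.s (L.s none))) : ℝ) := by
          unfold Pg.turn Pg.nor
          rw [inner_crs]
        rw [this, h0, inner_zero_left]
    intro i hi
    constructor
    · cases i with
      | none => exact real_inner_self_pos.2 (hnn hi)
      | some u => exact (hW u hi).2.2.2.2.2.2.2.1
    · have hsi : L.s i ∈ L.S := hvp.ok.maps _ hi
      have hpi : pr (L.s i) = i := (hvp.ispr i hi).2.2
      cases hs : L.s i with
      | some u =>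
        rw [hs] at hsi hpi
        have := (hW u hsi).2.2.2.2.2.2.2.2
        rw [hpi] at this
        show 0 < (inner ℝ (L.nor i)
          (Real.sign (L.turn (pr (some u))) • eE p v u (W u) (op v u (W u))) : ℝ)
        rw [hpi]
        exact this
      | none =>
        rw [hs] at hsi hpi
        have hX := X_of_none hvp hsi
        obtain ⟨-, ⟨α, b, hα, hb, hab⟩, -⟩ := flat_data hvp.ok hvp.ispr hX
        rw [hpi] at hab
        show 0 < (inner ℝ (L.nor i) (L.nor none) : ℝ)
        have e0 : L.p none = (-α) • L.p i + (-b) • L.p (L.s none) := by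
          have : L.p none = -(α • L.p i + b • L.p (L.s none)) := by
            rw [eq_neg_iff_add_eq_zero, add_comm]
            exact hab
          rw [this]
          module
        have e1 : L.nor i = (-b) • crs (L.p i) (L.p (L.s none)) := by
          unfold Pg.nor
          rw [hs]
          nth_rewrite 1 [e0]
          rw [crs_rep]
        have e2 : L.nor none = (-α) • crs (L.p i) (L.p (L.s none)) := by
          unfold Pg.nor
          nth_rewrite 1 [e0]
          rw [crs_add_left, crs_smul_left, crs_smul_left, crs_self, smul_zero, add_zero]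
        have e3 : L.nor i = (b / α) • L.nor none := by
          rw [e1, e2, smul_smul]
          congr 1
          field_simp
        rw [e3, inner_smul_left]
        simp only [conj_trivial]
        exact mul_pos (div_pos hb hα) (real_inner_self_pos.2 (hnn hsi))

end Pool.Agent.TSX
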