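import Pool.Agent.TSX.Stmts
import Pool.Agent.TSM.FLD

/-!
# TSX: BETA, the direction field interpolating given directions at the arms
-/

set_option autoImplicit false

namespace Pool.Agent.TSX

open Set Filter Topology Pool.Agent.TSM Pool.Agent.TSR

namespace BETA_

/-! ### uniform constants -/

theorem unif {α : Type} (S : Finset α) (P : α → ℝ → Prop)
    (mono : ∀ i C C', C ≤ C' → P i C → P i C') (h : ∀ i ∈ S, ∃ C, P i C) :
    ∃ C : ℝ, 0 ≤ C ∧ ∀ i ∈ S, P i C := by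
  classical
  choose! f hf using h
  refine ⟨∑ i ∈ S, |f i|, Finset.sum_nonneg fun _ _ => abs_nonneg _,
    fun i hi => mono i _ _ ?_ (hf i hi)⟩
  exact (le_abs_self _).trans
    (Finset.single_le_sum (f := fun i => |f i|) (fun _ _ => abs_nonneg _) hi)

theorem unif_pos {α : Type} (S : Finset α) (P : α → ℝ → Prop)
    (anti : ∀ i c c', c' ≤ c → P i c → P i c') (h : ∀ i ∈ S, ∃ c, 0 < c ∧ P i c) :
    ∃ c : ℝ, 0 < c ∧ ∀ i ∈ S, P i c := by
  classical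
  induction S using Finset.induction_on with
  | empty => exact ⟨1, one_pos, fun i hi => absurd hi (Finset.notMem_empty i)⟩
  | insert a S _ ih =>
    obtain ⟨c, hc, h1⟩ := ih fun i hi => h i (Finset.mem_insert_of_mem hi)
    obtain ⟨c', hc', h2⟩ := h a (Finset.mem_insert_self a S)
    refine ⟨min c c', lt_min hc hc', fun i hi => ?_⟩
    rcases Finset.mem_insert.1 hi with rfl | hi
    · exact anti _ _ _ (min_le_right _ _) h2
    · exact anti _ _ _ (min_le_left _ _) (h1 i hi)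

/-- a linear map which is injective at 0 on a closed cone is bounded below on it -/
theorem cone_inj {E : Type} [NormedAddCommGroup E] [NormedSpace ℝ E] [ProperSpace E]
    (T : E →L[ℝ] E3) (C : Set E) (hC : IsClosed C) (hs : ∀ v ∈ C, ∀ s : ℝ, 0 < s → s • v ∈ C)
    (h : ∀ v ∈ C, T v = 0 → v = 0) : ∃ K : ℝ, 0 < K ∧ ∀ v ∈ C, ‖v‖ ≤ K * ‖T v‖ := by
  have hcomp : IsCompact (C ∩ Metric.sphere (0 : E) 1) := (isCompact_sphere 0 1).inter_left hC
  have hmem : ∀ v ∈ C, v ≠ 0 → ‖v‖⁻¹ • v ∈ C ∩ Metric.sphere (0 : E) 1 := by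
    intro v hv h0
    refine ⟨hs v hv _ (inv_pos.2 (norm_pos_iff.2 h0)), ?_⟩
    rw [mem_sphere_zero_iff_norm, norm_smul, norm_inv, norm_norm,
      inv_mul_cancel₀ (norm_pos_iff.2 h0).ne']
  rcases (C ∩ Metric.sphere (0 : E) 1).eq_empty_or_nonempty with he | hn
  · refine ⟨1, one_pos, fun v hv => ?_⟩
    by_cases h0 : v = 0
    · rw [h0, norm_zero]; positivity
    · have := hmem v hv h0
      rw [he] at this
      exact absurd this (notMem_empty _)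
  · obtain ⟨u, hu, hmin⟩ := hcomp.exists_isMinOn hn (T.continuous.norm.continuousOn)
    have hpos : 0 < ‖T u‖ := by
      rw [norm_pos_iff]
      intro h0
      have h1 := h u hu.1 h0
      have h2 := mem_sphere_zero_iff_norm.1 hu.2
      rw [h1, norm_zero] at h2
      exact zero_ne_one h2
    refine ⟨‖T u‖⁻¹, inv_pos.2 hpos, fun v hv => ?_⟩
    by_cases h0 : v = 0
    · rw [h0, norm_zero]; positivity
    · have h1 : ‖T u‖ ≤ ‖T (‖v‖⁻¹ • v)‖ := hmin (hmem v hv h0)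
      rw [map_smul, norm_smul, norm_inv, norm_norm] at h1
      have hv0 : 0 < ‖v‖ := norm_pos_iff.2 h0
      rw [le_inv_mul_iff₀ hv0] at h1
      rw [inv_mul_eq_div, le_div_iff₀ hpos]
      exact h1

/-! ### the cut-off function -/

theorem cut1 {d t : ℝ} (hd : 0 < d) (ht : 0 < t) : cutf d 0 t = 1 := by
  unfold cutf
  have h : (2 * d * t - 0) / (d * t) = 2 := by
    field_simp
    ring
  rw [h]; norm_num

theorem cut0 (d t : ℝ) : cutf d t 0 = 0 := by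
  unfold cutf; simp

theorem cutf_nonneg (d c a : ℝ) : 0 ≤ cutf d c a := le_max_left _ _

theorem cutf_le (d c a : ℝ) : cutf d c a ≤ 1 := max_le zero_le_one (min_le_left _ _)

theorem cutf_zero {d c a : ℝ} (hd : 0 < d) (ha : 0 ≤ a) (h : 2 * d * a ≤ c) :
    cutf d c a = 0 := by
  unfold cutf
  have h1 : (2 * d * a - c) / (d * a) ≤ 0 :=
    div_nonpos_of_nonpos_of_nonneg (by linarith) (by positivity)
  exact max_eq_left ((min_le_right _ _).trans h1)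

theorem cutf_eq {d c a : ℝ} (hd : 0 < d) (ha : 0 ≤ a) :
    cutf d c a = max 0 (min 1 ((2 * d * a - c) / max (d * a) (c / 2))) := by
  by_cases h1 : c ≤ 2 * d * a
  · rw [max_eq_left (by linarith : c / 2 ≤ d * a)]; rfl
  · have h2 : 2 * d * a ≤ c := (not_le.1 h1).le
    rw [cutf_zero hd ha h2]
    have hM : 0 ≤ max (d * a) (c / 2) := le_max_of_le_left (by positivity)
    have h3 : (2 * d * a - c) / max (d * a) (c / 2) ≤ 0 :=
      div_nonpos_of_nonpos_of_nonneg (by linarith) hM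
    exact (max_eq_left ((min_le_right _ _).trans h3)).symm

theorem quot_lip {N M N' M' : ℝ} (hM : 0 < M) (hM' : 0 < M') (hN : |N'| ≤ 2 * M') :
    M * |N / M - N' / M'| ≤ 2 * |M - M'| + |N - N'| := by
  have e1 : M * (N / M - N' / M') = (N - N') + (N' / M') * (M' - M) := by
    field_simp
    ring
  have e2 : |N' / M'| ≤ 2 := by
    rw [abs_div, abs_of_pos hM', div_le_iff₀ hM']; exact hN
  calc M * |N / M - N' / M'| = |M * (N / M - N' / M')| := by rw [abs_mul, abs_of_pos hM]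
    _ = |(N - N') + (N' / M') * (M' - M)| := by rw [e1]
    _ ≤ |N - N'| + |N' / M'| * |M' - M| := by
        refine (abs_add_le _ _).trans ?_
        rw [abs_mul]
    _ ≤ |N - N'| + 2 * |M' - M| := by
        have := mul_le_mul_of_nonneg_right e2 (abs_nonneg (M' - M))
        linarith
    _ = 2 * |M - M'| + |N - N'| := by rw [abs_sub_comm M' M]; ring

theorem cutf_lip {d a c a' c' : ℝ} (hd : 0 < d) (hd1 : d < 1 / 4) (ha : 0 ≤ a) (hc : 0 ≤ c)
    (ha' : 0 ≤ a') (hc' : 0 ≤ c') (h : 0 < a + c) (h' : 0 < a' + c') :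
    (a + c) * |cutf d c a - cutf d c' a'| ≤ (1 / d + 2) * 2 * (|a - a'| + |c - c'|) := by
  have hMp : ∀ a c : ℝ, 0 ≤ a → 0 ≤ c → 0 < a + c → 0 < max (d * a) (c / 2) := by
    intro a c ha hc h
    rcases ha.lt_or_eq with h1 | h1
    · exact lt_max_of_lt_left (by positivity)
    · refine lt_max_of_lt_right ?_
      rw [← h1] at h
      linarith
  have hM := hMp a c ha hc h
  have hM' := hMp a' c' ha' hc' h'
  have hN' : |2 * d * a' - c'| ≤ 2 * max (d * a') (c' / 2) := by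
    have h1 := le_max_left (d * a') (c' / 2)
    have h2 := le_max_right (d * a') (c' / 2)
    have h3 : 0 ≤ d * a' := by positivity
    rw [abs_le]; constructor <;> linarith
  have h1 := quot_lip (N := 2 * d * a - c) hM hM' hN'
  have h2 : |cutf d c a - cutf d c' a'| ≤
      |(2 * d * a - c) / max (d * a) (c / 2) - (2 * d * a' - c') / max (d * a') (c' / 2)| := by
    rw [cutf_eq hd ha, cutf_eq hd ha']
    exact FLD_.clamp_lip _ _
  have h3 : |max (d * a) (c / 2) - max (d * a') (c' / 2)| ≤ d * |a - a'| + |c - c'| / 2 := by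
    refine (abs_max_sub_max_le_max _ _ _ _).trans ?_
    have e1 : |d * a - d * a'| = d * |a - a'| := by
      rw [← mul_sub, abs_mul, abs_of_pos hd]
    have e2 : |c / 2 - c' / 2| = |c - c'| / 2 := by
      rw [← sub_div, abs_div, abs_of_pos (by norm_num : (0 : ℝ) < 2)]
    rw [e1, e2]
    have := abs_nonneg (a - a')
    have := abs_nonneg (c - c')
    exact max_le (by linarith) (by nlinarith)
  have h4 : |2 * d * a - c - (2 * d * a' - c')| ≤ 2 * d * |a - a'| + |c - c'| := by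
    have e : 2 * d * a - c - (2 * d * a' - c') = 2 * d * (a - a') + (c' - c) := by ring
    rw [e]
    refine (abs_add_le _ _).trans ?_
    rw [abs_mul, abs_of_pos (by positivity : 0 < 2 * d), abs_sub_comm c' c]
  have h5 : a + c ≤ (1 / d + 2) * max (d * a) (c / 2) := by
    have e1 := le_max_left (d * a) (c / 2)
    have e2 := le_max_right (d * a) (c / 2)
    have e3 : a ≤ 1 / d * max (d * a) (c / 2) := by
      rw [one_div, ← div_eq_inv_mul, le_div_iff₀ hd]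
      linarith
    linarith
  have hA := abs_nonneg (a - a')
  have hB := abs_nonneg (c - c')
  have hk : 0 ≤ 1 / d + 2 := by positivity
  calc (a + c) * |cutf d c a - cutf d c' a'|
      ≤ ((1 / d + 2) * max (d * a) (c / 2)) * |cutf d c a - cutf d c' a'| :=
        mul_le_mul_of_nonneg_right h5 (abs_nonneg _)
    _ = (1 / d + 2) * (max (d * a) (c / 2) * |cutf d c a - cutf d c' a'|) := by ring
    _ ≤ (1 / d + 2) * (2 * (|a - a'| + |c - c'|)) := by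
        refine mul_le_mul_of_nonneg_left ?_ hk
        have h6 := mul_le_mul_of_nonneg_left h2 hM.le
        nlinarith
    _ = (1 / d + 2) * 2 * (|a - a'| + |c - c'|) := by ring

variable {W : Type} [DecidableEq W] {L : Pg W} {e : W → E3} {d : ℝ}

/-! ### values -/

theorem bF_left (hd : 0 < d) {t : ℝ} (ht : 0 < t) (i : W) : bF L e d i t 0 = e i := by
  unfold bF
  rw [cut1 hd ht, cut0]
  simp

theorem bF_right (hd : 0 < d) {t : ℝ} (ht : 0 < t) (i : W) : bF L e d i 0 t = e (L.s i) := by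
  unfold bF
  rw [cut1 hd ht, cut0]
  simp

theorem coords (hL : L.Ok) {i : W} (hi : i ∈ L.S) {a c a' c' : ℝ}
    (h : a • L.p i + c • L.p (L.s i) = a' • L.p i + c' • L.p (L.s i)) : a = a' ∧ c = c' := by
  have h1 : (a - a') • L.p i + (c - c') • L.p (L.s i) = 0 := by
    rw [sub_smul, sub_smul, sub_add_sub_comm, h, sub_self]
  have h2 := FINJ_.indep hL hi _ _ h1
  exact ⟨sub_eq_zero.1 h2.1, sub_eq_zero.1 h2.2⟩

theorem agree1 (hL : L.Ok) (hd : 0 < d) {i : W} (hi : i ∈ L.S) {a c a' c' t : ℝ} (ht : 0 ≤ t)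
    (hx : a • L.p i + c • L.p (L.s i) ≠ 0)
    (h1 : a • L.p i + c • L.p (L.s i) = t • L.p (L.s i))
    (h2 : a' • L.p (L.s i) + c' • L.p (L.s (L.s i)) = t • L.p (L.s i)) :
    bF L e d i a c = bF L e d (L.s i) a' c' := by
  have ht' : 0 < t := by
    rcases ht.lt_or_eq with h | h
    · exact h
    · rw [h1, ← h, zero_smul] at hx
      exact absurd rfl hx
  obtain ⟨rfl, rfl⟩ := coords hL hi (a' := 0) (c' := t) (by rw [h1, zero_smul, zero_add])
  obtain ⟨rfl, rfl⟩ := coords hL (hL.maps i hi) (a' := c) (c' := 0)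
    (by rw [h2, zero_smul, add_zero])
  rw [bF_right hd ht', bF_left hd ht']

theorem agree (hL : L.Ok) (hd : 0 < d) {i j : W} (hi : i ∈ L.S) (hj : j ∈ L.S)
    {a c a' c' : ℝ} (ha : 0 ≤ a) (hc : 0 ≤ c) (ha' : 0 ≤ a') (hc' : 0 ≤ c')
    (hx : a • L.p i + c • L.p (L.s i) ≠ 0)
    (h : a • L.p i + c • L.p (L.s i) = a' • L.p j + c' • L.p (L.s j)) :
    bF L e d i a c = bF L e d j a' c' := by
  by_cases hij : i = j
  · subst hij
    obtain ⟨rfl, rfl⟩ := coords hL hi h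
    rfl
  · rcases hL.simple i hi j hj hij _ ⟨a, c, ha, hc, rfl⟩ ⟨a', c', ha', hc', h⟩ with
      ⟨h1, t, ht, h2⟩ | ⟨h1, t, ht, h2⟩ | h1
    · subst h1
      exact agree1 hL hd hi ht hx h2 (by rw [← h, h2])
    · subst h1
      rw [h] at hx
      exact (agree1 hL hd hj ht hx (by rw [← h, h2]) h2).symm
    · exact absurd h1 hx

theorem exists_beta (hL : L.Ok) (hd : 0 < d) : ∃ β : E3 → E3,
    ∀ i ∈ L.S, ∀ a c : ℝ, 0 ≤ a → 0 ≤ c → a • L.p i + c • L.p (L.s i) ≠ 0 →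
      β (a • L.p i + c • L.p (L.s i)) = bF L e d i a c := by
  classical
  refine ⟨fun x => if h : ∃ q : W × ℝ × ℝ, q.1 ∈ L.S ∧ 0 ≤ q.2.1 ∧ 0 ≤ q.2.2 ∧
      x = q.2.1 • L.p q.1 + q.2.2 • L.p (L.s q.1) then
      bF L e d h.choose.1 h.choose.2.1 h.choose.2.2 else 0, ?_⟩
  intro i hi a c ha hc hx
  have h : ∃ q : W × ℝ × ℝ, q.1 ∈ L.S ∧ 0 ≤ q.2.1 ∧ 0 ≤ q.2.2 ∧
      a • L.p i + c • L.p (L.s i) = q.2.1 • L.p q.1 + q.2.2 • L.p (L.s q.1) :=
    ⟨(i, a, c), hi, ha, hc, rfl⟩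
  simp only [dif_pos h]
  obtain ⟨h1, h2, h3, h4⟩ := h.choose_spec
  exact (agree hL hd hi h1 ha hc h2 h3 hx h4).symm

/-! ### estimates on one face -/

theorem bound_face (i : W) (a c : ℝ) :
    ‖bF L e d i a c‖ ≤ ‖L.nor i‖ + ‖e i - L.nor i‖ + ‖e (L.s i) - L.nor i‖ := by
  unfold bF
  have h1 : ‖cutf d c a • (e i - L.nor i)‖ ≤ ‖e i - L.nor i‖ := by
    rw [norm_smul, Real.norm_of_nonneg (cutf_nonneg _ _ _)]
    exact mul_le_of_le_one_left (norm_nonneg _) (cutf_le _ _ _)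
  have h2 : ‖cutf d a c • (e (L.s i) - L.nor i)‖ ≤ ‖e (L.s i) - L.nor i‖ := by
    rw [norm_smul, Real.norm_of_nonneg (cutf_nonneg _ _ _)]
    exact mul_le_of_le_one_left (norm_nonneg _) (cutf_le _ _ _)
  refine (norm_add_le _ _).trans ?_
  have h3 := norm_add_le (L.nor i) (cutf d c a • (e i - L.nor i))
  linarith

theorem sum_pos_of_ne {p q : E3} {a c : ℝ} (ha : 0 ≤ a) (hc : 0 ≤ c) (h : a • p + c • q ≠ 0) :
    0 < a + c := by
  rcases (add_nonneg ha hc).lt_or_eq with h1 | h1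
  · exact h1
  · have ha0 : a = 0 := by linarith
    have hc0 : c = 0 := by linarith
    rw [ha0, hc0, zero_smul, zero_smul, add_zero] at h
    exact absurd rfl h

theorem lip_face (hL : L.Ok) (hd : 0 < d) (hd1 : d < 1 / 4) {i : W} (hi : i ∈ L.S) :
    ∃ C : ℝ, ∀ a c a' c' : ℝ, 0 ≤ a → 0 ≤ c → 0 ≤ a' → 0 ≤ c' →
      a • L.p i + c • L.p (L.s i) ≠ 0 → a' • L.p i + c' • L.p (L.s i) ≠ 0 →
      ‖a • L.p i + c • L.p (L.s i)‖ * ‖bF L e d i a c - bF L e d i a' c'‖ ≤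
        C * ‖(a • L.p i + c • L.p (L.s i)) - (a' • L.p i + c' • L.p (L.s i))‖ := by
  obtain ⟨K, hK, hco⟩ := FLD_.coer (p := L.p i) (q := L.p (L.s i))
    (fun a b h => FINJ_.indep hL hi a b h)
  refine ⟨(‖L.p i‖ + ‖L.p (L.s i)‖) * ((1 / d + 2) * 2 * (2 * K)) *
    (‖e i - L.nor i‖ + ‖e (L.s i) - L.nor i‖), ?_⟩
  intro a c a' c' ha hc ha' hc' hx hy
  have hs := sum_pos_of_ne ha hc hx
  have hs' := sum_pos_of_ne ha' hc' hy
  obtain ⟨D, hD⟩ : ∃ D, D =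
    ‖(a • L.p i + c • L.p (L.s i)) - (a' • L.p i + c' • L.p (L.s i))‖ := ⟨_, rfl⟩
  rw [← hD]
  have hD0 : 0 ≤ D := by rw [hD]; exact norm_nonneg _
  have e1 : (a • L.p i + c • L.p (L.s i)) - (a' • L.p i + c' • L.p (L.s i)) =
      (a - a') • L.p i + (c - c') • L.p (L.s i) := by
    rw [sub_smul, sub_smul, sub_add_sub_comm]
  obtain ⟨k1, k2⟩ := hco (a - a') (c - c')
  rw [← e1, ← hD] at k1 k2
  have hx1 : ‖a • L.p i + c • L.p (L.s i)‖ ≤ (‖L.p i‖ + ‖L.p (L.s i)‖) * (a + c) := by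
    refine (norm_add_le _ _).trans ?_
    rw [norm_smul, norm_smul, Real.norm_of_nonneg ha, Real.norm_of_nonneg hc]
    nlinarith [norm_nonneg (L.p i), norm_nonneg (L.p (L.s i))]
  have hk : 0 ≤ (1 / d + 2) * 2 := by positivity
  have hsum : (1 / d + 2) * 2 * (|a - a'| + |c - c'|) ≤ (1 / d + 2) * 2 * (2 * K) * D := by
    have := mul_le_mul_of_nonneg_left (by linarith : |a - a'| + |c - c'| ≤ 2 * K * D) hk
    linarith
  have f1 := (cutf_lip hd hd1 ha hc ha' hc' hs hs').trans hsum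
  have f2 := cutf_lip hd hd1 hc ha hc' ha' (by linarith) (by linarith)
  rw [add_comm c a, add_comm |c - c'|] at f2
  replace f2 := f2.trans hsum
  obtain ⟨E1, hE1⟩ : ∃ E1, E1 = ‖e i - L.nor i‖ := ⟨_, rfl⟩
  obtain ⟨E2, hE2⟩ : ∃ E2, E2 = ‖e (L.s i) - L.nor i‖ := ⟨_, rfl⟩
  have hE10 : 0 ≤ E1 := by rw [hE1]; exact norm_nonneg _
  have hE20 : 0 ≤ E2 := by rw [hE2]; exact norm_nonneg _
  have hb : ‖bF L e d i a c - bF L e d i a' c'‖ ≤
      |cutf d c a - cutf d c' a'| * E1 + |cutf d a c - cutf d a' c'| * E2 := by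
    have e2 : bF L e d i a c - bF L e d i a' c' =
        (cutf d c a - cutf d c' a') • (e i - L.nor i) +
          (cutf d a c - cutf d a' c') • (e (L.s i) - L.nor i) := by
      unfold bF
      module
    rw [e2]
    refine (norm_add_le _ _).trans ?_
    rw [norm_smul, norm_smul, Real.norm_eq_abs, Real.norm_eq_abs, hE1, hE2]
  rw [← hE1, ← hE2]
  have hP : 0 ≤ ‖L.p i‖ + ‖L.p (L.s i)‖ := by positivity
  calc ‖a • L.p i + c • L.p (L.s i)‖ * ‖bF L e d i a c - bF L e d i a' c'‖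
      ≤ ((‖L.p i‖ + ‖L.p (L.s i)‖) * (a + c)) *
        (|cutf d c a - cutf d c' a'| * E1 + |cutf d a c - cutf d a' c'| * E2) :=
        mul_le_mul hx1 hb (norm_nonneg _) (by positivity)
    _ = (‖L.p i‖ + ‖L.p (L.s i)‖) * (((a + c) * |cutf d c a - cutf d c' a'|) * E1 +
        ((a + c) * |cutf d a c - cutf d a' c'|) * E2) := by ring
    _ ≤ (‖L.p i‖ + ‖L.p (L.s i)‖) * (((1 / d + 2) * 2 * (2 * K) * D) * E1 +
        ((1 / d + 2) * 2 * (2 * K) * D) * E2) := by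
        refine mul_le_mul_of_nonneg_left (add_le_add ?_ ?_) hP
        · exact mul_le_mul_of_nonneg_right f1 hE10
        · exact mul_le_mul_of_nonneg_right f2 hE20
    _ = (‖L.p i‖ + ‖L.p (L.s i)‖) * ((1 / d + 2) * 2 * (2 * K)) * (E1 + E2) * D := by ring

theorem conv_min {f A B m : ℝ} (hf : 0 ≤ f) (hf1 : f ≤ 1) (hA : m ≤ A) (hB : m ≤ B) :
    m ≤ A + f * (B - A) := by
  nlinarith

theorem pos_face (hd : 0 < d) (hd1 : d < 1 / 4) {i : W}
    (h1 : 0 < (inner ℝ (L.nor i) (e i) : ℝ)) (h2 : 0 < (inner ℝ (L.nor i) (e (L.s i)) : ℝ)) :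
    ∃ c₁ : ℝ, 0 < c₁ ∧ ∀ a c : ℝ, 0 ≤ a → 0 ≤ c →
      c₁ ≤ (inner ℝ (L.nor i) (bF L e d i a c) : ℝ) := by
  have h0 : 0 < (inner ℝ (L.nor i) (L.nor i) : ℝ) := by
    rw [real_inner_self_eq_norm_sq]
    have : L.nor i ≠ 0 := by
      intro h
      rw [h, inner_zero_left] at h1
      exact lt_irrefl _ h1
    positivity
  refine ⟨min (inner ℝ (L.nor i) (L.nor i)) (min (inner ℝ (L.nor i) (e i))
    (inner ℝ (L.nor i) (e (L.s i)))), lt_min h0 (lt_min h1 h2), fun a c ha hc => ?_⟩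
  have m0 := min_le_left (inner ℝ (L.nor i) (L.nor i) : ℝ) (min (inner ℝ (L.nor i) (e i))
    (inner ℝ (L.nor i) (e (L.s i))))
  have m1 := (min_le_right (inner ℝ (L.nor i) (L.nor i) : ℝ) (min (inner ℝ (L.nor i) (e i))
    (inner ℝ (L.nor i) (e (L.s i))))).trans (min_le_left _ _)
  have m2 := (min_le_right (inner ℝ (L.nor i) (L.nor i) : ℝ) (min (inner ℝ (L.nor i) (e i))
    (inner ℝ (L.nor i) (e (L.s i))))).trans (min_le_right _ _)
  have e0 : (inner ℝ (L.nor i) (bF L e d i a c) : ℝ) = inner ℝ (L.nor i) (L.nor i) +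
      cutf d c a * (inner ℝ (L.nor i) (e i) - inner ℝ (L.nor i) (L.nor i)) +
      cutf d a c * (inner ℝ (L.nor i) (e (L.s i)) - inner ℝ (L.nor i) (L.nor i)) := by
    unfold bF
    rw [inner_add_right, inner_add_right, inner_smul_right, inner_smul_right, inner_sub_right,
      inner_sub_right]
  rw [e0]
  rcases le_total (2 * d * a) c with h | h
  · rw [cutf_zero hd ha h, zero_mul, add_zero]
    exact conv_min (cutf_nonneg _ _ _) (cutf_le _ _ _) m0 m2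
  · have h3 : 2 * d * c ≤ a := by nlinarith
    rw [cutf_zero hd hc h3, zero_mul, add_zero]
    exact conv_min (cutf_nonneg _ _ _) (cutf_le _ _ _) m0 m1

/-! ### two faces -/

/-- the faces `i` and `j` meet at a positive angle -/
def Ang (L : Pg W) (i j : W) (C : ℝ) : Prop :=
  ∀ x ∈ L.face i, ∀ y ∈ L.face j, ∃ z, z ∈ L.face i ∧ z ∈ L.face j ∧
    ‖x - z‖ + ‖y - z‖ ≤ C * ‖x - y‖

theorem Ang.mono {i j : W} {C C' : ℝ} (h : C ≤ C') (hA : Ang L i j C) : Ang L i j C' := by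
  intro x hx y hy
  obtain ⟨z, h1, h2, h3⟩ := hA x hx y hy
  exact ⟨z, h1, h2, h3.trans (mul_le_mul_of_nonneg_right h (norm_nonneg _))⟩

theorem Ang.symm {i j : W} {C : ℝ} (hA : Ang L i j C) : Ang L j i C := by
  intro x hx y hy
  obtain ⟨z, h1, h2, h3⟩ := hA y hy x hx
  exact ⟨z, h2, h1, by rw [norm_sub_rev x y]; linarith⟩

theorem ang_adj (hL : L.Ok) {i : W} (hi : i ∈ L.S) (hss : L.s (L.s i) ≠ i) :
    ∃ C, Ang L i (L.s i) C := by
  have hj := hL.maps i hi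
  have hij : i ≠ L.s i := (FINJ_.succ_ne hL hi).symm
  let T : (ℝ × ℝ × ℝ) →L[ℝ] E3 :=
    (ContinuousLinearMap.fst ℝ ℝ (ℝ × ℝ)).smulRight (L.p i) +
    ((ContinuousLinearMap.fst ℝ ℝ ℝ).comp (ContinuousLinearMap.snd ℝ ℝ (ℝ × ℝ))).smulRight
      (L.p (L.s i)) -
    ((ContinuousLinearMap.snd ℝ ℝ ℝ).comp (ContinuousLinearMap.snd ℝ ℝ (ℝ × ℝ))).smulRight
      (L.p (L.s (L.s i)))
  have hT : ∀ v : ℝ × ℝ × ℝ, T v = v.1 • L.p i + v.2.1 • L.p (L.s i) -
      v.2.2 • L.p (L.s (L.s i)) := fun v => rfl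
  have hray : ∀ x, x ∈ L.face i → x ∈ L.face (L.s i) →
      ∃ t : ℝ, 0 ≤ t ∧ x = t • L.p (L.s i) := by
    intro x h1 h2
    rcases hL.simple i hi _ hj hij x h1 h2 with ⟨-, t, ht, h⟩ | ⟨h, -⟩ | h
    · exact ⟨t, ht, h⟩
    · exact absurd h.symm hss
    · exact ⟨0, le_rfl, by rw [h, zero_smul]⟩
  obtain ⟨K, hK, hKb⟩ := cone_inj T {v | 0 ≤ v.1 ∧ 0 ≤ v.2.2}
    ((isClosed_le continuous_const continuous_fst).inter
      (isClosed_le continuous_const (continuous_snd.comp continuous_snd)))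
    (fun v hv s hs => ⟨mul_nonneg hs.le hv.1, mul_nonneg hs.le hv.2⟩)
    (by
      rintro ⟨a, t, b⟩ ⟨ha, hb⟩ h0
      rw [hT] at h0
      change a • L.p i + t • L.p (L.s i) - b • L.p (L.s (L.s i)) = 0 at h0
      change 0 ≤ a at ha
      change 0 ≤ b at hb
      have h1 : a • L.p i + t • L.p (L.s i) = b • L.p (L.s (L.s i)) := sub_eq_zero.1 h0
      rcases le_or_gt 0 t with ht | ht
      · obtain ⟨u, -, hu⟩ := hray (a • L.p i + t • L.p (L.s i)) ⟨a, t, ha, ht, rfl⟩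
          ⟨0, b, le_rfl, hb, by rw [zero_smul, zero_add]; exact h1⟩
        have h2 : u • L.p (L.s i) + (-b) • L.p (L.s (L.s i)) = 0 := by
          rw [← hu, h1, neg_smul, add_neg_cancel]
        obtain ⟨hu0, hb0⟩ := FINJ_.indep hL hj _ _ h2
        have hb0' : b = 0 := by linarith
        rw [hb0', zero_smul] at h1
        obtain ⟨ha0, ht0⟩ := FINJ_.indep hL hi _ _ h1
        rw [ha0, ht0, hb0']; rfl
      · have h2 : a • L.p i = (-t) • L.p (L.s i) + b • L.p (L.s (L.s i)) := by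
          rw [← h1, neg_smul]; abel
        obtain ⟨u, -, hu⟩ := hray (a • L.p i) ⟨a, 0, ha, le_rfl, by rw [zero_smul, add_zero]⟩
          ⟨-t, b, by linarith, hb, h2⟩
        have h3 : a • L.p i + (-u) • L.p (L.s i) = 0 := by
          rw [hu, neg_smul, add_neg_cancel]
        obtain ⟨ha0, -⟩ := FINJ_.indep hL hi _ _ h3
        rw [ha0, zero_smul] at h2
        obtain ⟨ht0, -⟩ := FINJ_.indep hL hj _ _ h2.symm
        linarith)
  refine ⟨K * (‖L.p i‖ + ‖L.p (L.s i)‖ + ‖L.p (L.s (L.s i))‖), ?_⟩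
  rintro x ⟨a, c, ha, hc, rfl⟩ y ⟨c', b, hc', hb, rfl⟩
  refine ⟨c • L.p (L.s i), ⟨0, c, le_rfl, hc, by rw [zero_smul, zero_add]⟩,
    ⟨c, 0, hc, le_rfl, by rw [zero_smul, add_zero]⟩, ?_⟩
  have h1 := hKb (a, c - c', b) ⟨ha, hb⟩
  have e1 : T (a, c - c', b) = a • L.p i + c • L.p (L.s i) -
      (c' • L.p (L.s i) + b • L.p (L.s (L.s i))) := by
    rw [hT]
    module
  rw [e1] at h1
  have n1 : |a| ≤ ‖((a, c - c', b) : ℝ × ℝ × ℝ)‖ := norm_fst_le (a, c - c', b)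
  have n2 : |c - c'| ≤ ‖((a, c - c', b) : ℝ × ℝ × ℝ)‖ :=
    (norm_fst_le (c - c', b)).trans (norm_snd_le (a, c - c', b))
  have n3 : |b| ≤ ‖((a, c - c', b) : ℝ × ℝ × ℝ)‖ :=
    (norm_snd_le (c - c', b)).trans (norm_snd_le (a, c - c', b))
  have e2 : ‖a • L.p i + c • L.p (L.s i) - c • L.p (L.s i)‖ = |a| * ‖L.p i‖ := by
    rw [add_sub_cancel_right, norm_smul, Real.norm_eq_abs]
  have e3 : ‖c' • L.p (L.s i) + b • L.p (L.s (L.s i)) - c • L.p (L.s i)‖ ≤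
      |c - c'| * ‖L.p (L.s i)‖ + |b| * ‖L.p (L.s (L.s i))‖ := by
    have e : c' • L.p (L.s i) + b • L.p (L.s (L.s i)) - c • L.p (L.s i) =
        (c' - c) • L.p (L.s i) + b • L.p (L.s (L.s i)) := by module
    rw [e]
    refine (norm_add_le _ _).trans ?_
    rw [norm_smul, norm_smul, Real.norm_eq_abs, Real.norm_eq_abs, abs_sub_comm]
  rw [e2]
  have q1 := mul_le_mul_of_nonneg_right (n1.trans h1) (norm_nonneg (L.p i))
  have q2 := mul_le_mul_of_nonneg_right (n2.trans h1) (norm_nonneg (L.p (L.s i)))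
  have q3 := mul_le_mul_of_nonneg_right (n3.trans h1) (norm_nonneg (L.p (L.s (L.s i))))
  linarith

theorem ang_far (hL : L.Ok) {i j : W} (hi : i ∈ L.S) (hj : j ∈ L.S)
    (h0 : ∀ x, x ∈ L.face i → x ∈ L.face j → x = 0) : ∃ C, Ang L i j C := by
  let T : ((ℝ × ℝ) × (ℝ × ℝ)) →L[ℝ] E3 :=
    ((ContinuousLinearMap.fst ℝ ℝ ℝ).comp
      (ContinuousLinearMap.fst ℝ (ℝ × ℝ) (ℝ × ℝ))).smulRight (L.p i) +
    ((ContinuousLinearMap.snd ℝ ℝ ℝ).comp
      (ContinuousLinearMap.fst ℝ (ℝ × ℝ) (ℝ × ℝ))).smulRight (L.p (L.s i)) -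
    (((ContinuousLinearMap.fst ℝ ℝ ℝ).comp
      (ContinuousLinearMap.snd ℝ (ℝ × ℝ) (ℝ × ℝ))).smulRight (L.p j) +
    ((ContinuousLinearMap.snd ℝ ℝ ℝ).comp
      (ContinuousLinearMap.snd ℝ (ℝ × ℝ) (ℝ × ℝ))).smulRight (L.p (L.s j)))
  have hT : ∀ v : (ℝ × ℝ) × (ℝ × ℝ), T v = v.1.1 • L.p i + v.1.2 • L.p (L.s i) -
      (v.2.1 • L.p j + v.2.2 • L.p (L.s j)) := fun v => rfl
  obtain ⟨K, hK, hKb⟩ := cone_inj T {v | (0 ≤ v.1.1 ∧ 0 ≤ v.1.2) ∧ 0 ≤ v.2.1 ∧ 0 ≤ v.2.2}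
    (((isClosed_le continuous_const (continuous_fst.comp continuous_fst)).inter
      (isClosed_le continuous_const (continuous_snd.comp continuous_fst))).inter
      ((isClosed_le continuous_const (continuous_fst.comp continuous_snd)).inter
      (isClosed_le continuous_const (continuous_snd.comp continuous_snd))))
    (fun v hv s hs => ⟨⟨mul_nonneg hs.le hv.1.1, mul_nonneg hs.le hv.1.2⟩,
      mul_nonneg hs.le hv.2.1, mul_nonneg hs.le hv.2.2⟩)
    (by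
      rintro ⟨⟨a, c⟩, ⟨a', c'⟩⟩ ⟨⟨ha, hc⟩, ⟨ha', hc'⟩⟩ hz
      rw [hT] at hz
      change a • L.p i + c • L.p (L.s i) - (a' • L.p j + c' • L.p (L.s j)) = 0 at hz
      have h1 := sub_eq_zero.1 hz
      have h2 := h0 _ ⟨a, c, ha, hc, rfl⟩ ⟨a', c', ha', hc', h1⟩
      obtain ⟨r1, r2⟩ := FINJ_.indep hL hi _ _ h2
      rw [h2] at h1
      obtain ⟨r3, r4⟩ := FINJ_.indep hL hj _ _ h1.symm
      rw [r1, r2, r3, r4]; rfl)
  refine ⟨K * (‖L.p i‖ + ‖L.p (L.s i)‖ + ‖L.p j‖ + ‖L.p (L.s j)‖), ?_⟩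
  rintro x ⟨a, c, ha, hc, rfl⟩ y ⟨a', c', ha', hc', rfl⟩
  refine ⟨0, ⟨0, 0, le_rfl, le_rfl, by simp⟩, ⟨0, 0, le_rfl, le_rfl, by simp⟩, ?_⟩
  have h1 := hKb ((a, c), (a', c')) ⟨⟨ha, hc⟩, ha', hc'⟩
  rw [hT] at h1
  change _ ≤ K * ‖a • L.p i + c • L.p (L.s i) - (a' • L.p j + c' • L.p (L.s j))‖ at h1
  have m1 : ‖((a, c) : ℝ × ℝ)‖ ≤ ‖(((a, c), (a', c')) : (ℝ × ℝ) × (ℝ × ℝ))‖ :=
    norm_fst_le ((a, c), (a', c'))
  have m2 : ‖((a', c') : ℝ × ℝ)‖ ≤ ‖(((a, c), (a', c')) : (ℝ × ℝ) × (ℝ × ℝ))‖ :=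
    norm_snd_le ((a, c), (a', c'))
  have n1 : |a| ≤ ‖((a, c) : ℝ × ℝ)‖ := norm_fst_le (a, c)
  have n2 : |c| ≤ ‖((a, c) : ℝ × ℝ)‖ := norm_snd_le (a, c)
  have n3 : |a'| ≤ ‖((a', c') : ℝ × ℝ)‖ := norm_fst_le (a', c')
  have n4 : |c'| ≤ ‖((a', c') : ℝ × ℝ)‖ := norm_snd_le (a', c')
  rw [sub_zero, sub_zero]
  have e1 : ‖a • L.p i + c • L.p (L.s i)‖ ≤ |a| * ‖L.p i‖ + |c| * ‖L.p (L.s i)‖ := by
    refine (norm_add_le _ _).trans ?_
    rw [norm_smul, norm_smul, Real.norm_eq_abs, Real.norm_eq_abs]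
  have e2 : ‖a' • L.p j + c' • L.p (L.s j)‖ ≤ |a'| * ‖L.p j‖ + |c'| * ‖L.p (L.s j)‖ := by
    refine (norm_add_le _ _).trans ?_
    rw [norm_smul, norm_smul, Real.norm_eq_abs, Real.norm_eq_abs]
  have q1 := mul_le_mul_of_nonneg_right ((n1.trans m1).trans h1) (norm_nonneg (L.p i))
  have q2 := mul_le_mul_of_nonneg_right ((n2.trans m1).trans h1) (norm_nonneg (L.p (L.s i)))
  have q3 := mul_le_mul_of_nonneg_right ((n3.trans m2).trans h1) (norm_nonneg (L.p j))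
  have q4 := mul_le_mul_of_nonneg_right ((n4.trans m2).trans h1) (norm_nonneg (L.p (L.s j)))
  linarith

theorem ss_ne (hL : L.Ok) {i : W} (hi : i ∈ L.S) : L.s (L.s i) ≠ i := by
  intro h
  have h1 : ∀ m : ℕ, L.s^[m] i = i ∨ L.s^[m] i = L.s i := by
    intro m
    induction m with
    | zero => exact Or.inl rfl
    | succ m ih =>
      rw [Function.iterate_succ_apply']
      rcases ih with ih | ih
      · right; rw [ih]
      · left; rw [ih, h]
  have h2 : L.S ⊆ {i, L.s i} := by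
    intro j hj
    obtain ⟨m, hm⟩ := hL.trans i hi j hj
    rcases h1 m with h3 | h3
    · rw [← hm, h3]; simp
    · rw [← hm, h3]; simp
  have h3 := (Finset.card_le_card h2).trans Finset.card_le_two
  have h4 := hL.card
  omega

theorem ang (hL : L.Ok) {i j : W} (hi : i ∈ L.S) (hj : j ∈ L.S) : ∃ C, Ang L i j C := by
  by_cases hij : i = j
  · subst hij
    refine ⟨1, fun x hx y hy => ⟨x, hx, hx, ?_⟩⟩
    rw [sub_self, norm_zero, zero_add, one_mul, norm_sub_rev]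
  by_cases h1 : j = L.s i
  · rw [h1]; exact ang_adj hL hi (ss_ne hL hi)
  by_cases h2 : i = L.s j
  · rw [h2]
    obtain ⟨C, hC⟩ := ang_adj hL hj (ss_ne hL hj)
    exact ⟨C, hC.symm⟩
  · refine ang_far hL hi hj fun x hx hy => ?_
    rcases hL.simple i hi j hj hij x hx hy with ⟨h, -⟩ | ⟨h, -⟩ | h
    · exact absurd h h1
    · exact absurd h h2
    · exact h

end BETA_

open BETA_ in
theorem beta_proof : Stmt_BETA := by
  intro W _ L e hL he d hd hd1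
  obtain ⟨β, hβ⟩ := exists_beta (e := e) hL hd
  refine ⟨β, ?_, hβ⟩
  -- bound
  obtain ⟨Λ, hΛ0, hΛ⟩ := unif L.S (fun i C => ∀ x ∈ L.face i, x ≠ 0 → ‖β x‖ ≤ C)
    (fun i C C' h hP x hx h0 => (hP x hx h0).trans h)
    (fun i hi => ⟨‖L.nor i‖ + ‖e i - L.nor i‖ + ‖e (L.s i) - L.nor i‖, by
      rintro x ⟨a, c, ha, hc, rfl⟩ h0
      rw [hβ i hi a c ha hc h0]
      exact bound_face i a c⟩)
  -- Lipschitz on one face
  obtain ⟨Γ, hΓ0, hΓ⟩ := unif L.S (fun i C => ∀ x ∈ L.face i, ∀ y ∈ L.face i, x ≠ 0 → y ≠ 0 →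
      ‖x‖ * ‖β x - β y‖ ≤ C * ‖x - y‖)
    (fun i C C' h hP x hx y hy h0 h0' => (hP x hx y hy h0 h0').trans
      (mul_le_mul_of_nonneg_right h (norm_nonneg _)))
    (fun i hi => by
      obtain ⟨C, hC⟩ := lip_face (e := e) hL hd hd1 hi
      refine ⟨C, ?_⟩
      rintro x ⟨a, c, ha, hc, rfl⟩ y ⟨a', c', ha', hc', rfl⟩ h0 h0'
      rw [hβ i hi a c ha hc h0, hβ i hi a' c' ha' hc' h0']
      exact hC a c a' c' ha hc ha' hc' h0 h0')
  -- angles
  obtain ⟨C, hC0, hC⟩ := unif (L.S ×ˢ L.S) (fun q C => Ang L q.1 q.2 C)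
    (fun q C C' h hP => hP.mono h)
    (fun q hq => ang hL (Finset.mem_product.1 hq).1 (Finset.mem_product.1 hq).2)
  -- positivity
  obtain ⟨c₁, hc₁, hpos⟩ := unif_pos L.S (fun i c₁ => ∀ a c : ℝ, 0 ≤ a → 0 ≤ c →
      c₁ ≤ (inner ℝ (L.nor i) (bF L e d i a c) : ℝ))
    (fun i c c' h hP a b ha hb => h.trans (hP a b ha hb))
    (fun i hi => pos_face hd hd1 (he i hi).1 (he i hi).2)
  refine ⟨max Λ ((Γ + 2 * Λ) * C), c₁, hc₁, ?_, ?_, ?_⟩
  · rintro x ⟨i, hi, hx⟩ h0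
    exact (hΛ i hi x hx h0).trans (le_max_left _ _)
  · rintro x ⟨i, hi, hx⟩ y ⟨j, hj, hy⟩ h0 h0'
    refine le_trans ?_ (mul_le_mul_of_nonneg_right (le_max_right _ _) (norm_nonneg _))
    obtain ⟨z, hz1, hz2, hz3⟩ := hC (i, j) (Finset.mem_product.2 ⟨hi, hj⟩) x hx y hy
    have bx := hΛ i hi x hx h0
    have by' := hΛ j hj y hy h0'
    have hxz := norm_nonneg (x - z)
    have hyz := norm_nonneg (y - z)
    have hx0 := norm_nonneg x
    have hsum : ‖x‖ * ‖β x - β y‖ ≤ (Γ + 2 * Λ) * (‖x - z‖ + ‖y - z‖) := by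
      by_cases hz : z = 0
      · rw [hz, sub_zero, sub_zero]
        have h1 : ‖β x - β y‖ ≤ 2 * Λ := (norm_sub_le _ _).trans (by linarith)
        have h2 := mul_le_mul_of_nonneg_left h1 hx0
        have h3 := norm_nonneg y
        nlinarith
      · have bz := hΛ i hi z hz1 hz
        have h1 := hΓ i hi x hx z hz1 h0 hz
        have h2 := hΓ j hj z hz2 y hy hz h0'
        have h3 : ‖x‖ ≤ ‖z‖ + ‖x - z‖ := by
          have := norm_add_le z (x - z)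
          rwa [add_sub_cancel] at this
        have h4 : ‖β x - β y‖ ≤ ‖β x - β z‖ + ‖β z - β y‖ := norm_sub_le_norm_sub_add_norm_sub _ _ _
        have h5 : ‖β z - β y‖ ≤ 2 * Λ := (norm_sub_le _ _).trans (by linarith)
        have h6 := norm_nonneg (β z - β y)
        rw [norm_sub_rev z y] at h2
        calc ‖x‖ * ‖β x - β y‖ ≤ ‖x‖ * (‖β x - β z‖ + ‖β z - β y‖) :=
              mul_le_mul_of_nonneg_left h4 hx0
          _ = ‖x‖ * ‖β x - β z‖ + ‖x‖ * ‖β z - β y‖ := by ring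
          _ ≤ Γ * ‖x - z‖ + (‖z‖ + ‖x - z‖) * ‖β z - β y‖ :=
              add_le_add h1 (mul_le_mul_of_nonneg_right h3 h6)
          _ = Γ * ‖x - z‖ + ‖z‖ * ‖β z - β y‖ + ‖x - z‖ * ‖β z - β y‖ := by ring
          _ ≤ Γ * ‖x - z‖ + Γ * ‖y - z‖ + ‖x - z‖ * (2 * Λ) :=
              add_le_add (add_le_add le_rfl h2) (mul_le_mul_of_nonneg_left h5 hxz)
          _ ≤ (Γ + 2 * Λ) * (‖x - z‖ + ‖y - z‖) := by nlinarith
    have hk : 0 ≤ Γ + 2 * Λ := by linarith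
    calc ‖x‖ * ‖β x - β y‖ ≤ (Γ + 2 * Λ) * (‖x - z‖ + ‖y - z‖) := hsum
      _ ≤ (Γ + 2 * Λ) * (C * ‖x - y‖) := mul_le_mul_of_nonneg_left hz3 hk
      _ = (Γ + 2 * Λ) * C * ‖x - y‖ := by ring
  · rintro i hi x ⟨a, c, ha, hc, rfl⟩ h0
    rw [hβ i hi a c ha hc h0]
    exact hpos i hi a c ha hc

end Pool.Agent.TSX
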