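import Pool.Agent.TSX.Stmts
import Pool.Agent.TSC.PSI

/-!
# TSX, module FAN: plane geometry of a flat fan of angle larger than `π`
-/

set_option autoImplicit false

namespace Pool.Agent.TSX

open Set Filter Topology Pool.Agent.TSM Pool.Agent.TSR
open Pool.Agent.TSC.PSI_ (co1 co2 co1_eq co2_eq co1_cont co2_cont cramer)

namespace FAN_

theorem crs_ne {a b : E3} (h : ∀ x y : ℝ, x • a + y • b = 0 → x = 0 ∧ y = 0) :
    crs a b ≠ 0 := by
  intro h0
  have h1 := TSC.crs_crs' a a b
  rw [h0] at h1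
  have h2 : crs a 0 = 0 := by
    apply TSC.e3ext <;> simp [TSC.crs0, TSC.crs1, TSC.crs2]
  rw [h2] at h1
  have h3 := h (inner ℝ a b : ℝ) (-(inner ℝ a a : ℝ)) (by rw [neg_smul, ← sub_eq_add_neg, ← h1])
  have h4 : a = 0 := by
    have h5 : (inner ℝ a a : ℝ) = 0 := by linarith [h3.2]
    exact inner_self_eq_zero.1 h5
  have h5 := h 1 0 (by rw [h4]; simp)
  exact one_ne_zero h5.1

theorem det_zero {ν a b c : E3} (hν : ν ≠ 0) (ha : (inner ℝ ν a : ℝ) = 0)
    (hb : (inner ℝ ν b : ℝ) = 0) (hc : (inner ℝ ν c : ℝ) = 0) : det3 a b c = 0 := by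
  have h1 : det3 a b c • ν = (inner ℝ ν a : ℝ) • crs b c + (inner ℝ ν b : ℝ) • crs c a +
      (inner ℝ ν c : ℝ) • crs a b := by
    rw [TSC.inn3, TSC.inn3, TSC.inn3]
    apply TSC.e3ext <;>
      simp only [PiLp.add_apply, PiLp.smul_apply, smul_eq_mul, TSC.crs0, TSC.crs1, TSC.crs2,
        det3] <;> ring
  rw [ha, hb, hc, zero_smul, zero_smul, zero_smul, add_zero, add_zero] at h1
  rcases smul_eq_zero.1 h1 with h | h
  · exact h
  · exact absurd h hν

theorem coord {ν u v x : E3} (hν : ν ≠ 0) (hu : (inner ℝ ν u : ℝ) = 0)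
    (hv : (inner ℝ ν v : ℝ) = 0) (hx : (inner ℝ ν x : ℝ) = 0) (h : crs u v ≠ 0) :
    x = co1 u v x • u + co2 u v x • v := by
  have h0 := det_zero hν hu hv hx
  have h1 : (inner ℝ (crs u v) (crs u v) : ℝ) ≠ 0 := fun h' => h (inner_self_eq_zero.1 h')
  have h5 := cramer u v x
  rw [TSC.inner_crs u v x, h0, zero_smul, add_zero] at h5
  have h6 : x = (inner ℝ (crs u v) (crs u v) : ℝ)⁻¹ • ((inner ℝ (crs u v) (crs u v) : ℝ) • x) := by
    rw [smul_smul, inv_mul_cancel₀ h1, one_smul]
  refine h6.trans ?_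
  rw [h5, smul_add, smul_smul, smul_smul]
  unfold co1 co2
  rw [div_eq_inv_mul, div_eq_inv_mul]

/-- a fan -/
structure Fn (q : ℕ → E3) (m : ℕ) (ν : E3) : Prop where
  m2 : 2 ≤ m
  nu : ν ≠ 0
  pl : ∀ i, i ≤ m → (inner ℝ ν (q i) : ℝ) = 0
  ind : ∀ a b : ℝ, a • q 0 + b • q m = 0 → a = 0 ∧ b = 0
  u1 : ∀ i : ℕ, i < m → ∀ a b x : ℝ, 0 ≤ a → 0 ≤ b → 0 ≤ x →
    a • q i + b • q (i + 1) = x • q 0 → (i = 0 ∧ b = 0) ∨ (a = 0 ∧ b = 0)
  u2 : ∀ i : ℕ, i < m → ∀ a b y : ℝ, 0 ≤ a → 0 ≤ b → 0 ≤ y →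
    a • q i + b • q (i + 1) = y • q m → (i + 1 = m ∧ a = 0) ∨ (a = 0 ∧ b = 0)
  u3 : ∀ i : ℕ, i < m → ∀ a b : ℝ, a • q i + b • q (i + 1) = 0 → a = 0 ∧ b = 0
  sec : ∃ (a b s t : ℝ) (i : ℕ), 0 < a ∧ 0 < b ∧ 0 ≤ s ∧ 0 ≤ t ∧ i < m ∧
    -(a • q 0 + b • q m) = s • q i + t • q (i + 1)

theorem Fn.rev {q : ℕ → E3} {m : ℕ} {ν : E3} (h : Fn q m ν) : Fn (fun i => q (m - i)) m ν := by
  have e1 : ∀ i, i < m → m - i = (m - 1 - i) + 1 := fun i hi => by omega
  have e2 : ∀ i, i < m → m - (i + 1) = m - 1 - i := fun i hi => by omega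
  refine ⟨h.m2, h.nu, fun i hi => h.pl _ (by omega), ?_, ?_, ?_, ?_, ?_⟩
  · intro a b hab
    simp only [Nat.sub_zero, Nat.sub_self] at hab
    rw [add_comm] at hab
    exact (h.ind b a hab).symm
  · intro i hi a b x ha hb hx hab
    simp only [Nat.sub_zero] at hab
    rw [e2 i hi, e1 i hi, add_comm] at hab
    rcases h.u2 (m - 1 - i) (by omega) b a x hb ha hx hab with ⟨h1, h2⟩ | ⟨h1, h2⟩
    · exact Or.inl ⟨by omega, h2⟩
    · exact Or.inr ⟨h2, h1⟩
  · intro i hi a b x ha hb hx hab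
    simp only [Nat.sub_self] at hab
    rw [e2 i hi, e1 i hi, add_comm] at hab
    rcases h.u1 (m - 1 - i) (by omega) b a x hb ha hx hab with ⟨h1, h2⟩ | ⟨h1, h2⟩
    · exact Or.inl ⟨by omega, h2⟩
    · exact Or.inr ⟨h2, h1⟩
  · intro i hi a b hab
    rw [e2 i hi, e1 i hi, add_comm] at hab
    exact (h.u3 (m - 1 - i) (by omega) b a hab).symm
  · obtain ⟨a, b, s, t, i, ha, hb, hs, ht, hi, he⟩ := h.sec
    refine ⟨b, a, t, s, m - 1 - i, hb, ha, ht, hs, by omega, ?_⟩
    simp only [Nat.sub_zero, Nat.sub_self]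
    have k1 : m - (m - 1 - i) = i + 1 := by omega
    have k2 : m - (m - 1 - i + 1) = i := by omega
    rw [k1, k2, add_comm (b • q m), he, add_comm]

section
variable {q : ℕ → E3} {m : ℕ} {ν : E3}

theorem Fn.n0 (h : Fn q m ν) : crs (q 0) (q m) ≠ 0 := crs_ne h.ind

theorem Fn.c1 (h : Fn q m ν) (x y : ℝ) : co1 (q 0) (q m) (x • q 0 + y • q m) = x :=
  co1_eq h.n0 x y

theorem Fn.c2 (h : Fn q m ν) (x y : ℝ) : co2 (q 0) (q m) (x • q 0 + y • q m) = y :=
  co2_eq h.n0 x y

theorem Fn.cv (h : Fn q m ν) {i : ℕ} (hi : i < m) (a b : ℝ) :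
    a • q i + b • q (i + 1) = co1 (q 0) (q m) (a • q i + b • q (i + 1)) • q 0 +
      co2 (q 0) (q m) (a • q i + b • q (i + 1)) • q m := by
  apply coord h.nu (h.pl 0 (by omega)) (h.pl m le_rfl) _ h.n0
  rw [inner_add_right, inner_smul_right, inner_smul_right, h.pl i hi.le, h.pl (i + 1) hi]
  ring

/-- the smaller coordinate -/
noncomputable def ff (q : ℕ → E3) (m : ℕ) (v : E3) : ℝ := min (co1 (q 0) (q m) v) (co2 (q 0) (q m) v)

/-- admissible weights -/
def DD (m i : ℕ) (a b : ℝ) : Prop :=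
  0 ≤ a ∧ 0 ≤ b ∧ 0 < a + b ∧ (i = 0 → 0 < b) ∧ (i + 1 = m → 0 < a)

theorem Fn.ff_ne (h : Fn q m ν) {i : ℕ} (hi : i < m) {a b : ℝ} (hd : DD m i a b) :
    ff q m (a • q i + b • q (i + 1)) ≠ 0 := by
  intro h0
  obtain ⟨ha, hb, hab, h1, h2⟩ := hd
  have hv := h.cv hi a b
  set X := co1 (q 0) (q m) (a • q i + b • q (i + 1)) with hX
  set Y := co2 (q 0) (q m) (a • q i + b • q (i + 1)) with hY
  have h0' : min X Y = 0 := h0
  rcases min_choice X Y with hm | hm
  · have hX0 : X = 0 := by rw [← hm]; exact h0'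
    have hY0 : 0 ≤ Y := by rw [← h0']; exact min_le_right _ _
    rw [hX0, zero_smul, zero_add] at hv
    rcases h.u2 i hi a b Y ha hb hY0 hv with ⟨k1, k2⟩ | ⟨k1, k2⟩
    · linarith [h2 k1]
    · linarith
  · have hY0 : Y = 0 := by rw [← hm]; exact h0'
    have hX0 : 0 ≤ X := by rw [← h0']; exact min_le_left _ _
    rw [hY0, zero_smul, add_zero] at hv
    rcases h.u1 i hi a b X ha hb hX0 hv with ⟨k1, k2⟩ | ⟨k1, k2⟩
    · linarith [h1 k1]
    · linarith

theorem Fn.same (h : Fn q m ν) {i : ℕ} (hi : i < m) {a b a' b' : ℝ} (hd : DD m i a b)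
    (hd' : DD m i a' b') (hn : ff q m (a • q i + b • q (i + 1)) < 0) :
    ff q m (a' • q i + b' • q (i + 1)) < 0 := by
  by_contra hcon
  have hne := h.ff_ne hi hd'
  have hpos : 0 < ff q m (a' • q i + b' • q (i + 1)) :=
    lt_of_le_of_ne (not_lt.1 hcon) hne.symm
  let g : ℝ → ℝ := fun t => ff q m (((1 - t) * a + t * a') • q i +
    ((1 - t) * b + t * b') • q (i + 1))
  have hg : Continuous g := by
    have h1 : Continuous fun t : ℝ => (((1 - t) * a + t * a') • q i +
      ((1 - t) * b + t * b') • q (i + 1)) := by fun_prop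
    exact ((co1_cont _ _).comp h1).min ((co2_cont _ _).comp h1)
  have g0 : g 0 < 0 := by
    change ff q m (((1 - 0) * a + 0 * a') • q i + ((1 - 0) * b + 0 * b') • q (i + 1)) < 0
    have e1 : (1 - 0) * a + 0 * a' = a := by ring
    have e2 : (1 - 0) * b + 0 * b' = b := by ring
    rw [e1, e2]; exact hn
  have g1 : 0 < g 1 := by
    change 0 < ff q m (((1 - 1) * a + 1 * a') • q i + ((1 - 1) * b + 1 * b') • q (i + 1))
    have e1 : (1 - 1) * a + 1 * a' = a' := by ring
    have e2 : (1 - 1) * b + 1 * b' = b' := by ring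
    rw [e1, e2]; exact hpos
  obtain ⟨t, ⟨ht0, ht1⟩, ht⟩ := intermediate_value_Icc zero_le_one hg.continuousOn
    ⟨g0.le, g1.le⟩
  have ht0' : 0 < t := by
    rcases ht0.eq_or_lt with k | k
    · rw [← k] at ht; rw [ht] at g0; exact absurd g0 (lt_irrefl _)
    · exact k
  have ht1' : t < 1 := by
    rcases ht1.eq_or_lt with k | k
    · rw [k] at ht; rw [ht] at g1; exact absurd g1 (lt_irrefl _)
    · exact k
  obtain ⟨p1, p2, p3, p4, p5⟩ := hd
  obtain ⟨r1, r2, r3, r4, r5⟩ := hd'
  have hs : 0 < 1 - t := by linarith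
  refine h.ff_ne hi (a := (1 - t) * a + t * a') (b := (1 - t) * b + t * b') ?_ ht
  refine ⟨by positivity, by positivity, ?_, fun k => ?_, fun k => ?_⟩
  · have e1 : (1 - t) * a + t * a' + ((1 - t) * b + t * b') =
        (1 - t) * (a + b) + t * (a' + b') := by ring
    rw [e1]; positivity
  · have := p4 k
    have := r4 k
    positivity
  · have := p5 k
    have := r5 k
    positivity

/-- the open sector is avoided -/
theorem Fn.neg (h : Fn q m ν) : ∀ i, i < m → ∀ a b : ℝ, DD m i a b →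
    ff q m (a • q i + b • q (i + 1)) < 0 := by
  have hm := h.m2
  -- one face with a negative point
  obtain ⟨a, b, s, t, i₀, ha, hb, hs, ht, hi₀, he⟩ := h.sec
  have he' : s • q i₀ + t • q (i₀ + 1) = (-a) • q 0 + (-b) • q m := by
    rw [← he]; module
  have hneg : ff q m (s • q i₀ + t • q (i₀ + 1)) < 0 := by
    unfold ff
    rw [he', h.c1, h.c2]
    exact (min_le_left _ _).trans_lt (by linarith)
  have hD : DD m i₀ s t := by
    refine ⟨hs, ht, ?_, fun k => ?_, fun k => ?_⟩
    · rcases (add_nonneg hs ht).eq_or_lt with k | k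
      · have s0 : s = 0 := by linarith
        have t0 : t = 0 := by linarith
        rw [s0, t0, zero_smul, zero_smul, add_zero] at he'
        have := (h.ind _ _ he'.symm).1
        linarith
      · exact k
    · rcases ht.eq_or_lt with k1 | k1
      · rw [← k1, k, zero_smul, add_zero] at he'
        have h1 : (s + a) • q 0 + b • q m = 0 := by
          have h2 : s • q 0 - ((-a) • q 0 + (-b) • q m) = 0 := by rw [he', sub_self]
          rw [← h2]; module
        have := (h.ind _ _ h1).2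
        linarith
      · exact k1
    · rcases hs.eq_or_lt with k1 | k1
      · rw [← k1, k, zero_smul, zero_add] at he'
        have h1 : a • q 0 + (t + b) • q m = 0 := by
          have h2 : t • q m - ((-a) • q 0 + (-b) • q m) = 0 := by rw [he', sub_self]
          rw [← h2]; module
        have := (h.ind _ _ h1).1
        linarith
      · exact k1
  have P0 : ∀ a b : ℝ, DD m i₀ a b → ff q m (a • q i₀ + b • q (i₀ + 1)) < 0 := fun a b hd =>
    h.same hi₀ hD hd hneg
  have eL : ∀ i, i + 1 < m → ((0:ℝ) • q i + (1:ℝ) • q (i + 1) : E3) = q (i + 1) := fun i _ => by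
    simp
  have eR : ∀ i, i + 1 < m → ((1:ℝ) • q (i + 1) + (0:ℝ) • q (i + 1 + 1) : E3) = q (i + 1) :=
    fun i _ => by simp
  have dL : ∀ i, i + 1 < m → DD m i 0 1 := fun i hi =>
    ⟨le_rfl, zero_le_one, by norm_num, fun _ => one_pos, fun k => absurd k (by omega)⟩
  have dR : ∀ i, i + 1 < m → DD m (i + 1) 1 0 := fun i hi =>
    ⟨zero_le_one, le_rfl, by norm_num, fun k => absurd k (by omega), fun _ => one_pos⟩
  have up : ∀ i, i + 1 < m → (∀ a b : ℝ, DD m i a b → ff q m (a • q i + b • q (i + 1)) < 0) →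
      ∀ a b : ℝ, DD m (i + 1) a b → ff q m (a • q (i + 1) + b • q (i + 1 + 1)) < 0 := by
    intro i hi hP a b hd
    have h1 := hP 0 1 (dL i hi)
    rw [eL i hi, ← eR i hi] at h1
    exact h.same hi (dR i hi) hd h1
  have down : ∀ i, i + 1 < m → (∀ a b : ℝ, DD m (i + 1) a b →
      ff q m (a • q (i + 1) + b • q (i + 1 + 1)) < 0) →
      ∀ a b : ℝ, DD m i a b → ff q m (a • q i + b • q (i + 1)) < 0 := by
    intro i hi hP a b hd
    have h1 := hP 1 0 (dR i hi)
    rw [eR i hi, ← eL i hi] at h1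
    exact h.same (by omega) (dL i hi) hd h1
  have all0 : ∀ j, j ≤ i₀ → ∀ a b : ℝ, DD m (i₀ - j) a b →
      ff q m (a • q (i₀ - j) + b • q (i₀ - j + 1)) < 0 := by
    intro j
    induction j with
    | zero => intro _; exact P0
    | succ j ih =>
      intro hj
      have h1 := ih (by omega)
      have e1 : i₀ - j = (i₀ - (j + 1)) + 1 := by omega
      rw [e1] at h1
      exact down _ (by omega) h1
  have all1 : ∀ j, i₀ + j < m → ∀ a b : ℝ, DD m (i₀ + j) a b →
      ff q m (a • q (i₀ + j) + b • q (i₀ + j + 1)) < 0 := by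
    intro j
    induction j with
    | zero => intro _; exact P0
    | succ j ih =>
      intro hj
      exact up _ (by omega) (ih (by omega))
  intro i hi
  rcases le_total i i₀ with k | k
  · have e1 : i = i₀ - (i₀ - i) := by omega
    rw [e1]
    exact all0 _ (by omega)
  · have e1 : i = i₀ + (i - i₀) := by omega
    rw [e1]
    exact all1 _ (by omega)

/-- (1) -/
theorem Fn.one (h : Fn q m ν) {al be : ℝ} (hal : 0 < al) (hbe : 0 < be) {p0 : E3}
    (hp : p0 = -(al • q 0 + be • q m)) : ∀ i, i < m → ∀ a b : ℝ, 0 ≤ a → 0 ≤ b →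
      (∃ x y : ℝ, 0 ≤ x ∧ 0 ≤ y ∧ a • q i + b • q (i + 1) = x • q 0 + y • p0) ∨
      (∃ x y : ℝ, 0 ≤ x ∧ 0 ≤ y ∧ a • q i + b • q (i + 1) = x • p0 + y • q m) := by
  intro i hi a b ha hb
  by_cases hd : DD m i a b
  · have hn := h.neg i hi a b hd
    have hv := h.cv hi a b
    unfold ff at hn
    set X := co1 (q 0) (q m) (a • q i + b • q (i + 1)) with hX
    set Y := co2 (q 0) (q m) (a • q i + b • q (i + 1)) with hY
    rw [hv]
    have first : Y ≤ 0 → 0 ≤ X - al * Y / be →
        ∃ x y : ℝ, 0 ≤ x ∧ 0 ≤ y ∧ X • q 0 + Y • q m = x • q 0 + y • p0 := by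
      intro h1 h2
      refine ⟨X - al * Y / be, -Y / be, h2, div_nonneg (by linarith) hbe.le, ?_⟩
      rw [hp]
      have e1 : Y • q m = (Y / be * be) • q m := by rw [div_mul_cancel₀ _ hbe.ne']
      have e2 : al * Y / be = al * (Y / be) := by ring
      have e3 : -Y / be = -(Y / be) := by ring
      rw [e1, e2, e3]
      module
    have second : X ≤ 0 → 0 ≤ Y - be * X / al →
        ∃ x y : ℝ, 0 ≤ x ∧ 0 ≤ y ∧ X • q 0 + Y • q m = x • p0 + y • q m := by
      intro h1 h2
      refine ⟨-X / al, Y - be * X / al, div_nonneg (by linarith) hal.le, h2, ?_⟩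
      rw [hp]
      have e1 : X • q 0 = (X / al * al) • q 0 := by rw [div_mul_cancel₀ _ hal.ne']
      have e2 : be * X / al = be * (X / al) := by ring
      have e3 : -X / al = -(X / al) := by ring
      rw [e1, e2, e3]
      module
    by_cases hY0 : Y ≤ 0
    · by_cases hX0 : 0 ≤ X - al * Y / be
      · exact Or.inl (first hY0 hX0)
      · right
        have h1 : X < al * Y / be := by linarith [not_le.1 hX0]
        have h2 : al * Y / be ≤ 0 := by
          apply div_nonpos_of_nonpos_of_nonneg _ hbe.le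
          exact mul_nonpos_of_nonneg_of_nonpos hal.le hY0
        apply second (by linarith)
        have h3 : be * X / al ≤ Y := by
          rw [div_le_iff₀ hal]
          rw [lt_div_iff₀ hbe] at h1
          linarith
        linarith
    · right
      have hX0 : X < 0 := by
        rcases min_lt_iff.1 hn with k | k
        · exact k
        · exact absurd k.le hY0
      apply second hX0.le
      have h3 : be * X / al ≤ 0 := by
        apply div_nonpos_of_nonpos_of_nonneg _ hal.le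
        exact mul_nonpos_of_nonneg_of_nonpos hbe.le hX0.le
      linarith [not_le.1 hY0]
  · unfold DD at hd
    by_cases h0 : 0 < a + b
    · by_cases h1 : i = 0 → 0 < b
      · have h2 : ¬ (i + 1 = m → 0 < a) := fun h2 => hd ⟨ha, hb, h0, h1, h2⟩
        push Not at h2
        have a0 : a = 0 := le_antisymm h2.2 ha
        right
        exact ⟨0, b, le_rfl, hb, by rw [a0, h2.1]; simp⟩
      · push Not at h1
        have b0 : b = 0 := le_antisymm h1.2 hb
        left
        exact ⟨a, 0, ha, le_rfl, by rw [b0, h1.1]; simp⟩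
    · have a0 : a = 0 := by linarith
      have b0 : b = 0 := by linarith
      left
      exact ⟨0, 0, le_rfl, le_rfl, by rw [a0, b0]; simp⟩

/-- (2) -/
theorem Fn.two (h : Fn q m ν) {al be : ℝ} (hbe : 0 < be) {p0 : E3}
    (hp : p0 = -(al • q 0 + be • q m)) : ∃ x y : ℝ, 0 < y ∧ q 1 = x • q 0 + y • p0 := by
  have hm := h.m2
  have hv := h.cv (i := 0) (by omega) 0 1
  have e0 : ((0:ℝ) • q 0 + (1:ℝ) • q (0 + 1) : E3) = q 1 := by simp
  rw [e0] at hv
  set X := co1 (q 0) (q m) (q 1) with hX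
  set Y := co2 (q 0) (q m) (q 1) with hY
  have hYn : Y < 0 := by
    by_contra hcon
    rcases (not_lt.1 hcon).eq_or_lt with k | k
    · rw [← k, zero_smul, add_zero] at hv
      rcases le_or_gt 0 X with k1 | k1
      · rcases h.u1 0 (by omega) 0 1 X le_rfl zero_le_one k1 (by rw [e0]; exact hv) with
          ⟨-, k2⟩ | ⟨-, k2⟩
        · exact one_ne_zero k2
        · exact one_ne_zero k2
      · have h1 := h.u3 0 (by omega) (-X) 1 (by
          have : q (0 + 1) = X • q 0 := hv
          rw [this]; module)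
        exact one_ne_zero h1.2
    · have hd : DD m 0 (|X| + 1) 1 := ⟨by positivity, zero_le_one, by positivity,
        fun _ => one_pos, fun k => absurd k (by omega)⟩
      have h1 := h.neg 0 (by omega) _ _ hd
      have h2 : (|X| + 1) • q 0 + (1:ℝ) • q (0 + 1) = (|X| + 1 + X) • q 0 + Y • q m := by
        have : q (0 + 1) = X • q 0 + Y • q m := hv
        rw [this]; module
      unfold ff at h1
      rw [h2, h.c1, h.c2] at h1
      rcases min_lt_iff.1 h1 with k1 | k1
      · linarith [neg_abs_le X]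
      · linarith
  refine ⟨X - al * (Y / be), -(Y / be), ?_, ?_⟩
  · have := div_neg_of_neg_of_pos hYn hbe
    linarith
  · rw [hp]
    refine hv.trans ?_
    have e1 : Y • q m = (Y / be * be) • q m := by rw [div_mul_cancel₀ _ hbe.ne']
    rw [e1]
    module

theorem Fn.four_i (h : Fn q m ν) {al be : ℝ} {p0 : E3}
    (hp : p0 = -(al • q 0 + be • q m)) {i : ℕ} (hi : i < m) (hi1 : i ≠ 0) :
    ∃ k : ℝ, 0 < k ∧ ∀ r : ℝ, 0 ≤ r → r ≤ k → ∀ a b : ℝ, 0 ≤ a → 0 ≤ b →
      a • q i + b • q (i + 1) ≠ q 0 + r • p0 := by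
  have hn : crs (q i) (q (i + 1)) ≠ 0 := crs_ne (h.u3 i hi)
  have h0 := coord h.nu (h.pl i hi.le) (h.pl (i + 1) hi) (h.pl 0 (by omega)) hn
  have hp0 : (inner ℝ ν p0 : ℝ) = 0 := by
    rw [hp, inner_neg_right, inner_add_right, inner_smul_right, inner_smul_right,
      h.pl 0 (by omega), h.pl m le_rfl]
    ring
  have h1 := coord h.nu (h.pl i hi.le) (h.pl (i + 1) hi) hp0 hn
  set A := co1 (q i) (q (i + 1)) (q 0) with hA
  set B := co2 (q i) (q (i + 1)) (q 0) with hB
  set A' := co1 (q i) (q (i + 1)) p0 with hA'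
  set B' := co2 (q i) (q (i + 1)) p0 with hB'
  have key : ∀ r a b : ℝ, a • q i + b • q (i + 1) = q 0 + r • p0 → a = A + r * A' ∧
      b = B + r * B' := by
    intro r a b he
    apply TSC.PSI_.co_inj hn
    rw [he]
    calc q 0 + r • p0 = (A • q i + B • q (i + 1)) + r • (A' • q i + B' • q (i + 1)) := by
          rw [← h0, ← h1]
      _ = _ := by module
  have hAB : A < 0 ∨ B < 0 := by
    by_contra hcon
    push Not at hcon
    rcases h.u1 i hi A B 1 hcon.1 hcon.2 zero_le_one (by rw [one_smul]; exact h0.symm) with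
      ⟨k, -⟩ | ⟨k1, k2⟩
    · exact hi1 k
    · rw [k1, k2, zero_smul, zero_smul, add_zero] at h0
      have := (h.ind 1 0 (by rw [h0]; simp)).1
      exact one_ne_zero this
  have small : ∀ x y : ℝ, x < 0 → ∃ k : ℝ, 0 < k ∧ ∀ r : ℝ, 0 ≤ r → r ≤ k → x + r * y < 0 := by
    intro x y hx
    refine ⟨-x / (2 * (|y| + 1)), by
      apply div_pos (by linarith); positivity, fun r hr hrk => ?_⟩
    have h2 : r * y ≤ r * (|y| + 1) := by
      apply mul_le_mul_of_nonneg_left _ hr
      linarith [le_abs_self y]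
    have h3 : r * (|y| + 1) ≤ -x / (2 * (|y| + 1)) * (|y| + 1) :=
      mul_le_mul_of_nonneg_right hrk (by positivity)
    have h4 : -x / (2 * (|y| + 1)) * (|y| + 1) = -x / 2 := by
      field_simp
    rw [h4] at h3
    linarith
  rcases hAB with k | k
  · obtain ⟨κ, hκ, hk⟩ := small A A' k
    refine ⟨κ, hκ, fun r hr hrk a b ha hb he => ?_⟩
    have := (key r a b he).1
    linarith [hk r hr hrk]
  · obtain ⟨κ, hκ, hk⟩ := small B B' k
    refine ⟨κ, hκ, fun r hr hrk a b ha hb he => ?_⟩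
    have := (key r a b he).2
    linarith [hk r hr hrk]

theorem Fn.four_all (h : Fn q m ν) {al be : ℝ} {p0 : E3}
    (hp : p0 = -(al • q 0 + be • q m)) : ∃ k : ℝ, 0 < k ∧ ∀ i, i < m → i ≠ 0 →
      ∀ r : ℝ, 0 ≤ r → r ≤ k → ∀ a b : ℝ, 0 ≤ a → 0 ≤ b →
      a • q i + b • q (i + 1) ≠ q 0 + r • p0 := by
  have key : ∀ n, n ≤ m → ∃ k : ℝ, 0 < k ∧ ∀ i, i < n → i ≠ 0 →
      ∀ r : ℝ, 0 ≤ r → r ≤ k → ∀ a b : ℝ, 0 ≤ a → 0 ≤ b →
      a • q i + b • q (i + 1) ≠ q 0 + r • p0 := by
    intro n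
    induction n with
    | zero => intro _; exact ⟨1, one_pos, fun i hi => absurd hi (by omega)⟩
    | succ n ih =>
      intro hn
      obtain ⟨k, hk, h1⟩ := ih (by omega)
      by_cases h0 : n = 0
      · exact ⟨1, one_pos, fun i hi hi0 => absurd hi0 (by omega)⟩
      · obtain ⟨k', hk', h2⟩ := h.four_i hp (i := n) (by omega) h0
        refine ⟨min k k', lt_min hk hk', fun i hi hi0 r hr hrk => ?_⟩
        rcases Nat.lt_succ_iff_lt_or_eq.1 hi with h3 | h3
        · exact h1 i h3 hi0 r hr (hrk.trans (min_le_left _ _))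
        · rw [h3]; exact h2 r hr (hrk.trans (min_le_right _ _))
  exact key m le_rfl

/-- (4a) -/
theorem Fn.four (h : Fn q m ν) {al be : ℝ} (hbe : 0 < be) {p0 : E3}
    (hp : p0 = -(al • q 0 + be • q m)) : ∃ k : ℝ, 0 < k ∧
      ∀ i, i < m → ∀ a b c c' : ℝ, 0 ≤ a → 0 ≤ b → 0 ≤ c → 0 < c' → c ≤ k * c' →
        a • q i + b • q (i + 1) = c • p0 + c' • q 0 → i = 0 ∧ k * (b * c') ≤ c * a := by
  obtain ⟨k, hk, hall⟩ := h.four_all hp
  obtain ⟨x, y, hy, hq1⟩ := h.two hbe hp
  -- independence of `q 0` and `p0`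
  have hind : ∀ s t : ℝ, s • q 0 + t • p0 = 0 → s = 0 ∧ t = 0 := by
    intro s t hst
    have h1 : (s - t * al) • q 0 + (-(t * be)) • q m = 0 := by
      rw [← hst, hp]; module
    obtain ⟨h2, h3⟩ := h.ind _ _ h1
    have h4 : t = 0 := by
      have h5 : t * be = 0 := by linarith
      rcases mul_eq_zero.1 h5 with h6 | h6
      · exact h6
      · exact absurd h6 hbe.ne'
    rw [h4] at h2
    exact ⟨by linarith, h4⟩
  set κ : ℝ := min k (min (y / 2) (y / (2 * (|x| + 1)))) with hκ
  have hκ0 : 0 < κ := lt_min hk (lt_min (by positivity) (by positivity))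
  have hκ1 : κ ≤ k := min_le_left _ _
  have hκ2 : κ ≤ y / 2 := (min_le_right _ _).trans (min_le_left _ _)
  have hκ3 : κ ≤ y / (2 * (|x| + 1)) := (min_le_right _ _).trans (min_le_right _ _)
  have hκ4 : κ * |x| ≤ y / 2 := by
    have h1 : κ * (2 * (|x| + 1)) ≤ y := by
      rwa [le_div_iff₀ (by positivity)] at hκ3
    nlinarith [abs_nonneg x]
  refine ⟨κ, hκ0, fun i hi a b c c' ha hb hc hc' hcc he => ?_⟩
  by_cases hi0 : i = 0
  · refine ⟨hi0, ?_⟩
    rw [hi0] at he
    have he' : a • q 0 + b • (x • q 0 + y • p0) = c • p0 + c' • q 0 := by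
      rw [← hq1]; exact he
    have h1 : (a + b * x - c') • q 0 + (b * y - c) • p0 = 0 := by
      have h2 : a • q 0 + b • (x • q 0 + y • p0) - (c • p0 + c' • q 0) = 0 := by
        rw [he', sub_self]
      rw [← h2]; module
    obtain ⟨h2, h3⟩ := hind _ _ h1
    have hcb : c = b * y := by linarith
    have hca : a = c' - b * x := by linarith
    -- `a ≥ c' / 2`
    have h4 : b * |x| ≤ c' / 2 := by
      have h5 : b * y ≤ κ * c' := by rw [← hcb]; exact hcc
      have h6 : y * (b * |x|) ≤ y * (c' / 2) := by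
        calc y * (b * |x|) = (b * y) * |x| := by ring
          _ ≤ (κ * c') * |x| := mul_le_mul_of_nonneg_right h5 (abs_nonneg _)
          _ = (κ * |x|) * c' := by ring
          _ ≤ (y / 2) * c' := mul_le_mul_of_nonneg_right hκ4 hc'.le
          _ = _ := by ring
      exact le_of_mul_le_mul_left h6 hy
    have h5 : b * x ≤ b * |x| := mul_le_mul_of_nonneg_left (le_abs_self x) hb
    have h6 : c' / 2 ≤ a := by linarith
    have h7 : κ * c' ≤ y * a := by
      calc κ * c' ≤ (y / 2) * c' := mul_le_mul_of_nonneg_right hκ2 hc'.le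
        _ = y * (c' / 2) := by ring
        _ ≤ y * a := mul_le_mul_of_nonneg_left h6 hy.le
    calc κ * (b * c') = b * (κ * c') := by ring
      _ ≤ b * (y * a) := mul_le_mul_of_nonneg_left h7 hb
      _ = c * a := by rw [hcb]; ring
  · exfalso
    apply hall i hi hi0 (c / c') (by positivity) (by
      rw [div_le_iff₀ hc']
      exact hcc.trans (mul_le_mul_of_nonneg_right hκ1 hc'.le)) (a / c') (b / c')
      (by positivity) (by positivity)
    have h1 : (a / c') • q i + (b / c') • q (i + 1) = c'⁻¹ • (a • q i + b • q (i + 1)) := by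
      rw [smul_add, smul_smul, smul_smul, inv_mul_eq_div, inv_mul_eq_div]
    rw [h1, he, smul_add, smul_smul, smul_smul, inv_mul_cancel₀ hc'.ne', inv_mul_eq_div,
      one_smul, add_comm]

end

end FAN_

open FAN_ in
theorem fan_proof : Stmt_FAN := by
  intro q m ν hm hν hpl hind hemb hsec al be hal hbe p0 hp
  have u3 : ∀ i : ℕ, i < m → ∀ a b : ℝ, a • q i + b • q (i + 1) = 0 → a = 0 ∧ b = 0 := by
    have nn : ∀ i : ℕ, i < m → ∀ a b : ℝ, 0 ≤ a → 0 ≤ b → a • q i + b • q (i + 1) = 0 →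
        a = 0 ∧ b = 0 := by
      intro i hi a b ha hb he
      have h1 := hemb i i hi hi a b 0 0 ha hb le_rfl le_rfl (by rw [he]; simp)
      have h2 := congrFun h1 i
      have h3 := congrFun h1 (i + 1)
      simp at h2 h3
      exact ⟨h2, h3⟩
    have pn : ∀ i : ℕ, i < m → ∀ a b : ℝ, 0 ≤ a → b ≤ 0 → a • q i + b • q (i + 1) = 0 →
        a = 0 ∧ b = 0 := by
      intro i hi a b ha hb he
      have h1 := hemb i i hi hi a 0 0 (-b) ha le_rfl le_rfl (by linarith) (by
        have h2 : a • q i = -(b • q (i + 1)) := by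
          rw [eq_neg_iff_add_eq_zero]; exact he
        rw [h2]; module)
      have h2 := congrFun h1 i
      have h3 := congrFun h1 (i + 1)
      simp at h2 h3
      exact ⟨h2, by linarith⟩
    intro i hi a b he
    rcases le_total 0 a with ha | ha
    · rcases le_total 0 b with hb | hb
      · exact nn i hi a b ha hb he
      · exact pn i hi a b ha hb he
    · rcases le_total 0 b with hb | hb
      · obtain ⟨h1, h2⟩ := pn i hi (-a) (-b) (by linarith) (by linarith) (by
          have h3 : -(a • q i + b • q (i + 1)) = 0 := by rw [he, neg_zero]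
          rw [← h3]; module)
        exact ⟨by linarith, by linarith⟩
      · obtain ⟨h1, h2⟩ := nn i hi (-a) (-b) (by linarith) (by linarith) (by
          have h3 : -(a • q i + b • q (i + 1)) = 0 := by rw [he, neg_zero]
          rw [← h3]; module)
        exact ⟨by linarith, by linarith⟩
  have hF : Fn q m ν := by
    refine ⟨hm, hν, hpl, hind, ?_, ?_, u3, hsec⟩
    · intro i hi a b x ha hb hx he
      have h1 := hemb i 0 hi (by omega) a b x 0 ha hb hx le_rfl (by rw [he]; simp)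
      by_cases hi0 : i = 0
      · left
        refine ⟨hi0, ?_⟩
        have h2 := congrFun h1 1
        rw [hi0] at h2
        simpa using h2
      · right
        have h2 := congrFun h1 i
        have h3 := congrFun h1 (i + 1)
        simp [Pi.single_apply, hi0] at h2 h3
        exact ⟨h2, h3⟩
    · intro i hi a b y ha hb hy he
      have h1 := hemb i (m - 1) hi (by omega) a b 0 y ha hb le_rfl hy (by
        rw [he]
        have e1 : m - 1 + 1 = m := by omega
        rw [e1]; simp)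
      have e1 : m - 1 + 1 = m := by omega
      rw [e1] at h1
      by_cases hi0 : i + 1 = m
      · left
        refine ⟨hi0, ?_⟩
        have h2 := congrFun h1 i
        have h5 : i ≠ m := by omega
        simp [Pi.single_apply, h5] at h2
        exact h2
      · right
        have h2 := congrFun h1 i
        have h3 := congrFun h1 (i + 1)
        have h5 : i ≠ m := by omega
        simp [Pi.single_apply, h5, hi0] at h2 h3
        exact ⟨h2, h3⟩
  have hR := hF.rev
  have hpR : p0 = -(be • (fun i => q (m - i)) 0 + al • (fun i => q (m - i)) m) := by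
    rw [hp]; simp only [Nat.sub_zero, Nat.sub_self]; rw [add_comm]
  refine ⟨hF.one hal hbe hp, hF.two hbe hp, ?_, ?_⟩
  · obtain ⟨x, y, hy, h1⟩ := hR.two hal hpR
    simp only [Nat.sub_zero] at h1
    exact ⟨x, y, hy, h1⟩
  · obtain ⟨k1, hk1, h1⟩ := hF.four hbe hp
    obtain ⟨k2, hk2, h2⟩ := hR.four hal hpR
    refine ⟨min k1 k2, lt_min hk1 hk2, ?_, ?_⟩
    · intro i hi a b c c' ha hb hc hc' hcc he
      obtain ⟨h3, h4⟩ := h1 i hi a b c c' ha hb hc hc'
        (hcc.trans (mul_le_mul_of_nonneg_right (min_le_left _ _) hc'.le)) he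
      refine ⟨h3, le_trans ?_ h4⟩
      exact mul_le_mul_of_nonneg_right (min_le_left _ _) (by positivity)
    · intro i hi a b c c' ha hb hc hc' hcc he
      have e1 : m - (m - 1 - i) = i + 1 := by omega
      have e2 : m - (m - 1 - i + 1) = i := by omega
      obtain ⟨h3, h4⟩ := h2 (m - 1 - i) (by omega) b a c c' hb ha hc hc'
        (hcc.trans (mul_le_mul_of_nonneg_right (min_le_right _ _) hc'.le)) (by
          simp only [Nat.sub_zero]
          rw [e1, e2, add_comm, he])
      refine ⟨by omega, le_trans ?_ h4⟩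
      exact mul_le_mul_of_nonneg_right (min_le_right _ _) (by positivity)

end Pool.Agent.TSX
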