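import Pool.Agent.TSX.Stmts

/-!
# TSX, module LIM: the chamfers satisfy the limit conditions along the edges
-/

set_option autoImplicit false

namespace Pool.Agent.TSX

open Set Filter Topology Pool.Agent.TSM Pool.Agent.TSR

namespace LIM_

theorem lb {ι : Type} [DecidableEq ι] (S : Finset ι) (f : ι → ℝ) (h : ∀ i ∈ S, 0 < f i) :
    ∃ m : ℝ, 0 < m ∧ ∀ i ∈ S, m ≤ f i := by
  induction S using Finset.induction_on with
  | empty => exact ⟨1, one_pos, by simp⟩
  | insert a s ha ih =>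
    obtain ⟨m, hm, hs⟩ := ih (fun i hi => h i (Finset.mem_insert_of_mem hi))
    refine ⟨min m (f a), lt_min hm (h a (Finset.mem_insert_self _ _)), ?_⟩
    intro i hi
    rcases Finset.mem_insert.1 hi with rfl | hi
    · exact min_le_right _ _
    · exact (min_le_left _ _).trans (hs i hi)

theorem ub {ι : Type} [DecidableEq ι] (S : Finset ι) (f : ι → ℝ) :
    ∃ m : ℝ, 0 < m ∧ ∀ i ∈ S, f i ≤ m := by
  induction S using Finset.induction_on with
  | empty => exact ⟨1, one_pos, by simp⟩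
  | insert a s ha ih =>
    obtain ⟨m, hm, hs⟩ := ih
    refine ⟨max m (f a), lt_max_of_lt_left hm, ?_⟩
    intro i hi
    rcases Finset.mem_insert.1 hi with rfl | hi
    · exact le_max_right _ _
    · exact (hs i hi).trans (le_max_left _ _)

/-- the inequality on the side of a neighbour which is a vertex -/
theorem side_some {N pu pw : E3} {τ k ε : ℝ} (hk : 0 < k) (hk1 : k ≤ 1) (hε : 0 < ε)
    (h1 : τ * (inner ℝ N pu : ℝ) < 0) (h2 : 0 < τ * (inner ℝ N (pu + (k * ε) • pw) : ℝ)) :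
    0 < (inner ℝ (τ • N) (pu + ε • pw) : ℝ) := by
  rw [inner_add_right, inner_smul_right] at h2
  rw [real_inner_smul_left, inner_add_right, inner_smul_right]
  set a := (inner ℝ N pu : ℝ)
  set b := (inner ℝ N pw : ℝ)
  have h3 : 0 < k * ε * (τ * b) := by nlinarith
  have hke : 0 < k * ε := mul_pos hk hε
  have h4 : 0 < τ * b := by
    by_contra hcon
    push Not at hcon
    nlinarith
  have h5 : k * ε * (τ * b) ≤ ε * (τ * b) := by
    have : k * ε ≤ 1 * ε := mul_le_mul_of_nonneg_right hk1 hε.le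
    nlinarith
  nlinarith

/-- the inequality on the side of the flat sector -/
theorem side_none {N pu pw pn : E3} {τ k ε α β : ℝ} (hk : 0 < k) (hε : 0 < ε)
    (hβ : 2 * k ≤ β) (hα : ε * |α| ≤ 1 / 2) (hw : pw = α • pu + β • pn)
    (h1 : τ * (inner ℝ N pu : ℝ) < 0) (h2 : 0 < τ * (inner ℝ N (pu + (k * ε) • pn) : ℝ)) :
    0 < (inner ℝ (τ • N) (pu + ε • pw) : ℝ) := by
  rw [inner_add_right, inner_smul_right] at h2
  rw [real_inner_smul_left, hw, inner_add_right, inner_smul_right, inner_add_right,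
    inner_smul_right, inner_smul_right]
  set a := (inner ℝ N pu : ℝ)
  set b := (inner ℝ N pn : ℝ)
  have h3 : - (τ * a) < k * ε * (τ * b) := by nlinarith
  have hke : 0 < k * ε := mul_pos hk hε
  have h4 : 0 < τ * b := by
    by_contra hcon
    push Not at hcon
    nlinarith
  have h5 : 2 * (k * ε * (τ * b)) ≤ ε * β * (τ * b) := by
    have : 2 * (k * ε) ≤ ε * β := by nlinarith
    nlinarith
  have h6 : ε * α ≤ 1 / 2 := le_trans (mul_le_mul_of_nonneg_left (le_abs_self α) hε.le) hα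
  have h7 : ε * α * (τ * a) ≥ 1 / 2 * (τ * a) := by
    have h8 : 0 ≤ (1 / 2 - ε * α) * (-(τ * a)) := mul_nonneg (by linarith) (by linarith)
    nlinarith
  have e : τ * (a + ε * (α * a + β * b)) = τ * a + ε * α * (τ * a) + ε * β * (τ * b) := by ring
  rw [e]
  nlinarith

end LIM_

open LIM_

theorem lim_proof : Stmt_LIM := by
  intro V _ _ K p Φ op v L pr k τ e d₁ hK hop hVP hA μ hμ
  have hOk := hVP.ok
  have hpr := hVP.ispr
  -- constants for the flat sides
  have hKex : ∀ q : V × V, ∃ K0 : ℝ, 0 < K0 ∧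
      ((∃ α β : ℝ, 0 < β ∧ p q.2 - p v = α • (p q.1 - p v) + β • L.p none) →
        ∃ α β : ℝ, 0 < β ∧ p q.2 - p v = α • (p q.1 - p v) + β • L.p none ∧ 2 * K0 ≤ β ∧
          K0 * |α| ≤ 1 / 2) := by
    intro q
    by_cases h : ∃ α β : ℝ, 0 < β ∧ p q.2 - p v = α • (p q.1 - p v) + β • L.p none
    · obtain ⟨α, β, hβ, hq⟩ := h
      have hpos : 0 < 1 / (2 * (|α| + 1)) := by positivity
      refine ⟨min (β / 2) (1 / (2 * (|α| + 1))), lt_min (by linarith) hpos, fun _ =>
        ⟨α, β, hβ, hq, ?_, ?_⟩⟩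
      · have := min_le_left (β / 2) (1 / (2 * (|α| + 1)))
        linarith
      · have h1 := min_le_right (β / 2) (1 / (2 * (|α| + 1)))
        have h2 : min (β / 2) (1 / (2 * (|α| + 1))) * |α| ≤ 1 / (2 * (|α| + 1)) * |α| :=
          mul_le_mul_of_nonneg_right h1 (abs_nonneg _)
        have h3 : 1 / (2 * (|α| + 1)) * |α| ≤ 1 / 2 := by
          rw [div_mul_eq_mul_div, one_mul, div_le_iff₀ (by positivity)]
          nlinarith [abs_nonneg α]
        exact h2.trans h3
    · exact ⟨1, one_pos, fun h' => absurd h' h⟩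
  choose K0 hK0 hK1 using hKex
  obtain ⟨K2, hK2, hK3⟩ := lb (Finset.univ : Finset (V × V)) K0 (fun q _ => hK0 q)
  -- constants for the positivity
  obtain ⟨m₁, hm₁, hm₁'⟩ := lb L.S (fun i => (inner ℝ (L.nor i) (e i) : ℝ))
    (fun i hi => (hA.pos i hi).1)
  obtain ⟨m₂, hm₂, hm₂'⟩ := lb L.S (fun i => (inner ℝ (L.nor i) (e (L.s i)) : ℝ))
    (fun i hi => (hA.pos i hi).2)
  obtain ⟨E, hE, hE'⟩ := ub L.S (fun i => ‖e i‖)
  obtain ⟨Nm, hNm, hNm'⟩ := ub L.S (fun i => ‖L.nor i‖)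
  set m := min m₁ m₂ with hm
  have hmpos : 0 < m := lt_min hm₁ hm₂
  have hε2 : 0 < μ ^ 2 * m / (2 * E) := by positivity
  refine ⟨min 1 K2, μ * m / 2, (Nm + min K2 (μ ^ 2 * m / (2 * E))) / μ,
    min K2 (μ ^ 2 * m / (2 * E)), lt_min one_pos hK2, min_le_left _ _, by positivity,
    lt_min hK2 hε2, ?_⟩
  intro ε' hε' hε₁ κ Ch N hG hne u w hF
  have hεK : ε' < K2 := lt_of_lt_of_le hε₁ (min_le_left _ _)
  have hεm : ε' < μ ^ 2 * m / (2 * E) := lt_of_lt_of_le hε₁ (min_le_right _ _)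
  set k' := min 1 K2 with hk'
  have hk'pos : 0 < k' := lt_min one_pos hK2
  have hk'1 : k' ≤ 1 := min_le_left _ _
  have hk'K : k' ≤ K2 := min_le_right _ _
  have huS : some u ∈ L.S := hVP.flag u w hF
  obtain ⟨hprS, hspr, -⟩ := hpr (some u) huS
  obtain ⟨hturn, hτ⟩ := hA.tau u huS
  have hsS : L.s (some u) ∈ L.S := hOk.maps _ huS
  obtain ⟨-, hG2, hG3⟩ := hG (pr (some u)) hprS
  rw [hspr] at hG2 hG3
  rw [← hτ] at hG2
  obtain ⟨nb, fc, nb', fc', lam, lam', hcase, hS1, hS2, hl, hl', hn1, hn2, -⟩ := hA.armd u w hF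
  have hpu : L.p (some u) = p u - p v := hVP.psome u huS
  rw [hpu] at hG2
  have hτ0 : τ u ≠ 0 := by
    rw [hτ]
    intro h
    exact hturn (Real.sign_eq_zero_iff.1 h)
  have hτabs : |τ u| ≤ 1 := by
    rw [hτ]
    rcases lt_trichotomy (L.turn (pr (some u))) 0 with h | h | h
    · rw [Real.sign_of_neg h]; norm_num
    · exact absurd h hturn
    · rw [Real.sign_of_pos h]; norm_num
  -- membership of the two neighbours
  have hnb : nb ∈ L.S ∧ nb' ∈ L.S ∧ (nb = pr (some u) ∧ nb' = L.s (some u) ∨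
      nb = L.s (some u) ∧ nb' = pr (some u)) := by
    rcases hcase with ⟨h1, h2, h3, h4⟩ | ⟨h1, h2, h3, h4⟩
    · exact ⟨h1 ▸ hprS, h3 ▸ hsS, Or.inl ⟨h1, h3⟩⟩
    · exact ⟨h1 ▸ hsS, h3 ▸ hprS, Or.inr ⟨h1, h3⟩⟩
  have hfc : (fc = pr (some u) ∨ fc = some u) ∧ (fc' = pr (some u) ∨ fc' = some u) := by
    rcases hcase with ⟨h1, h2, h3, h4⟩ | ⟨h1, h2, h3, h4⟩
    · exact ⟨Or.inl h2, Or.inr h4⟩
    · exact ⟨Or.inr h2, Or.inl h4⟩
  -- one side
  have hside : ∀ (x : V) (j : Option V), Side K p Φ L v u x j → j ∈ L.S → ∀ n : κ,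
      τ u * (inner ℝ (N n) (p u - p v) : ℝ) < 0 →
      0 < τ u * (inner ℝ (N n) (p u - p v + (k' * ε') • L.p j) : ℝ) →
      0 < (inner ℝ (τ u • N n) (p u - p v + ε' • (p x - p v)) : ℝ) := by
    intro x j hS hj n h1 h2
    rcases hS with ⟨hj', -⟩ | ⟨hj', -, hαβ⟩
    · subst hj'
      rw [hVP.psome x hj] at h2
      exact side_some hk'pos hk'1 hε' h1 h2
    · subst hj'
      obtain ⟨α, β, hβ, hw, hb1, hb2⟩ := hK1 (u, x) hαβ
      have hKle : K2 ≤ K0 (u, x) := hK3 (u, x) (Finset.mem_univ _)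
      refine side_none hk'pos hε' (by linarith) ?_ hw h1 h2
      have : ε' * |α| ≤ K0 (u, x) * |α| :=
        mul_le_mul_of_nonneg_right (by linarith) (abs_nonneg _)
      linarith
  have hboth : ∀ (j : Option V), (j = pr (some u) ∨ j = L.s (some u)) → ∀ n ∈ Ch (some u),
      0 < τ u * (inner ℝ (N n) (p u - p v + (k' * ε') • L.p j) : ℝ) := by
    intro j hj n hn
    obtain ⟨-, h2, h3, -⟩ := hG2 n hn
    rcases hj with rfl | rfl
    · exact h2
    · exact h3
  have hj1 : nb = pr (some u) ∨ nb = L.s (some u) := by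
    rcases hnb.2.2 with h | h
    · exact Or.inl h.1
    · exact Or.inr h.1
  have hj2 : nb' = pr (some u) ∨ nb' = L.s (some u) := by
    rcases hnb.2.2 with h | h
    · exact Or.inr h.2
    · exact Or.inl h.2
  refine ⟨?_, ?_, ?_, ?_, ?_⟩
  · have := hne (pr (some u)) hprS hturn
    rwa [hspr] at this
  · intro n hn
    obtain ⟨h1, -⟩ := hG2 n hn
    rw [real_inner_smul_left]
    exact h1
  · intro n hn
    obtain ⟨h1, -⟩ := hG2 n hn
    exact ⟨hside w nb hS1 hnb.1 n h1 (hboth nb hj1 n hn),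
      hside (op v u w) nb' hS2 hnb.2.1 n h1 (hboth nb' hj2 n hn)⟩
  · intro n hn
    obtain ⟨-, -, -, x, y, hx, hy, hxy1, hxy2, hN⟩ := hG2 n hn
    have hed : e (some u) = τ u • eE p v u w (op v u w) := hA.dir u w hF
    have heV : eV (p v) (p u) (p w) (p (op v u w)) = eE p v u w (op v u w) := by
      unfold eV eE
      abel
    have hin : (inner ℝ (τ u • N n) (eV (p v) (p u) (p w) (p (op v u w))) : ℝ) =
        inner ℝ (N n) (e (some u)) := by
      rw [heV, hed, real_inner_smul_left, inner_smul_right]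
    have hI1 : m ≤ (inner ℝ (L.nor (pr (some u))) (e (some u)) : ℝ) := by
      have := hm₂' (pr (some u)) hprS
      simp only [hspr] at this
      exact (min_le_right _ _).trans this
    have hI2 : m ≤ (inner ℝ (L.nor (some u)) (e (some u)) : ℝ) :=
      (min_le_left _ _).trans (hm₁' (some u) huS)
    have hkε : k' * ε' / μ ≤ ε' / μ := by
      apply div_le_div_of_nonneg_right _ hμ.le
      nlinarith
    set R := N n - (x • L.nor (pr (some u)) + y • L.nor (some u)) with hR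
    have hRn : ‖R‖ ≤ ε' / μ := hN.trans hkε
    have hNn : N n = x • L.nor (pr (some u)) + y • L.nor (some u) + R := by
      rw [hR]; abel
    constructor
    · rw [hin, hNn, inner_add_left, inner_add_left, real_inner_smul_left, real_inner_smul_left]
      have hb : |(inner ℝ R (e (some u)) : ℝ)| ≤ ε' / μ * E := by
        refine (abs_real_inner_le_norm _ _).trans ?_
        exact mul_le_mul hRn (hE' _ huS) (norm_nonneg _) (by positivity)
      have hb' := (abs_le.1 hb).1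
      have h1 : x * m ≤ x * (inner ℝ (L.nor (pr (some u))) (e (some u)) : ℝ) :=
        mul_le_mul_of_nonneg_left hI1 hx
      have h2 : y * m ≤ y * (inner ℝ (L.nor (some u)) (e (some u)) : ℝ) :=
        mul_le_mul_of_nonneg_left hI2 hy
      have h3 : μ * m ≤ (x + y) * m := mul_le_mul_of_nonneg_right hxy1 hmpos.le
      have h4 : ε' / μ * E ≤ μ * m / 2 := by
        have h5 : ε' * (2 * E) ≤ μ ^ 2 * m := by
          have := (lt_div_iff₀ (by positivity : (0 : ℝ) < 2 * E)).1 hεm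
          exact this.le
        rw [div_mul_eq_mul_div, div_le_iff₀ hμ]
        nlinarith
      nlinarith
    · rw [norm_smul, Real.norm_eq_abs]
      have h1 : ‖N n‖ ≤ x * Nm + y * Nm + ε' / μ := by
        rw [hNn]
        refine (norm_add_le _ _).trans (add_le_add ((norm_add_le _ _).trans (add_le_add ?_ ?_))
          hRn)
        · rw [norm_smul, Real.norm_eq_abs, abs_of_nonneg hx]
          exact mul_le_mul_of_nonneg_left (hNm' _ hprS) hx
        · rw [norm_smul, Real.norm_eq_abs, abs_of_nonneg hy]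
          exact mul_le_mul_of_nonneg_left (hNm' _ huS) hy
      have h2 : |τ u| * ‖N n‖ ≤ ‖N n‖ := by nlinarith [norm_nonneg (N n)]
      have h3 : (x + y) * Nm ≤ 1 / μ * Nm := mul_le_mul_of_nonneg_right hxy2 hNm.le
      have h4 : ε' / μ ≤ min K2 (μ ^ 2 * m / (2 * E)) / μ :=
        div_le_div_of_nonneg_right hε₁.le hμ.le
      have h5 : (Nm + min K2 (μ ^ 2 * m / (2 * E))) / μ =
          1 / μ * Nm + min K2 (μ ^ 2 * m / (2 * E)) / μ := by ring
      rw [h5]
      nlinarith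
  · intro n hn n' hn' hnn
    obtain ⟨h1, h2, h3⟩ := hG3 n hn n' hn' hnn
    have hdet : ∀ j : Option V, (j = pr (some u) ∨ j = some u) →
        det3 (L.nor j) (N n) (N n') ≠ 0 := by
      intro j hj
      rcases hj with rfl | rfl
      · exact h1
      · exact h2
    refine ⟨?_, ?_, ?_⟩
    · rw [hn1, Pool.Agent.TSC.det3_smul1, Pool.Agent.TSC.det3_smul2, Pool.Agent.TSC.det3_smul3]
      exact mul_ne_zero (mul_ne_zero hl.ne' hτ0)
        (mul_ne_zero hτ0 (mul_ne_zero hτ0 (hdet fc hfc.1)))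
    · rw [hn2, Pool.Agent.TSC.det3_smul1, Pool.Agent.TSC.det3_smul2, Pool.Agent.TSC.det3_smul3]
      exact mul_ne_zero (mul_ne_zero hl'.ne' hτ0)
        (mul_ne_zero hτ0 (mul_ne_zero hτ0 (hdet fc' hfc.2)))
    · intro n'' hn'' ha hb
      rw [Pool.Agent.TSC.det3_smul1, Pool.Agent.TSC.det3_smul2, Pool.Agent.TSC.det3_smul3]
      exact mul_ne_zero hτ0 (mul_ne_zero hτ0 (mul_ne_zero hτ0 (h3 n'' hn'' ha hb)))

end Pool.Agent.TSX
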