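import Pool.Agent.TSX.Stmts

/-!
# TSX, module LNK: link cycle combinatorics
-/

set_option autoImplicit false

namespace Pool.Agent.TSX

open Set Filter Topology Pool.Agent.TSM Pool.Agent.TSR

namespace LNK_

variable {V : Type} [Fintype V] [DecidableEq V]

theorem ne3 {K : Surf V} {v u w : V} (h : ({v, u, w} : Finset V) ∈ K.tri) :
    v ≠ u ∧ v ≠ w ∧ u ≠ w := by
  have h3 := K.card3 _ h
  refine ⟨?_, ?_, ?_⟩
  · rintro rfl
    have : ({v, v, w} : Finset V).card ≤ 2 := by
      rw [Finset.insert_eq_of_mem (Finset.mem_insert_self _ _)]; exact Finset.card_le_two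
    omega
  · rintro rfl
    have : ({v, u, v} : Finset V).card ≤ 2 := by
      rw [Finset.pair_comm, Finset.insert_eq_of_mem (Finset.mem_insert_self _ _)]
      exact Finset.card_le_two
    omega
  · rintro rfl
    have : ({v, u, u} : Finset V).card ≤ 2 := by
      rw [Finset.pair_eq_singleton]; exact Finset.card_le_two
    omega

theorem tri_iff {K : Surf V} {v : V} {n : ℕ} {c : ZMod n → V} (hc : IsLinkCycle K.tri v n c)
    (a b : V) : ({v, a, b} : Finset V) ∈ K.tri ↔ a ≠ b ∧ ∃ i : ZMod n,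
      (a = c i ∧ b = c (i + 1)) ∨ (a = c (i + 1) ∧ b = c i) := by
  obtain ⟨-, -, -, h⟩ := hc
  constructor
  · intro ht
    obtain ⟨h1, h2, h3⟩ := ne3 ht
    obtain ⟨i, hi⟩ := (h _).1 ⟨ht, Finset.mem_insert_self _ _⟩
    refine ⟨h3, i, ?_⟩
    have ha : a ∈ ({v, c i, c (i + 1)} : Finset V) := by
      rw [← hi]; simp
    have hb : b ∈ ({v, c i, c (i + 1)} : Finset V) := by
      rw [← hi]; simp
    simp only [Finset.mem_insert, Finset.mem_singleton] at ha hb
    rcases ha with ha | ha | ha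
    · exact absurd ha.symm h1
    · rcases hb with hb | hb | hb
      · exact absurd hb.symm h2
      · exact absurd (ha.trans hb.symm) h3
      · exact Or.inl ⟨ha, hb⟩
    · rcases hb with hb | hb | hb
      · exact absurd hb.symm h2
      · exact Or.inr ⟨ha, hb⟩
      · exact absurd (ha.trans hb.symm) h3
  · rintro ⟨-, i, ⟨rfl, rfl⟩ | ⟨rfl, rfl⟩⟩
    · exact ((h _).2 ⟨i, rfl⟩).1
    · refine ((h _).2 ⟨i, ?_⟩).1
      rw [Finset.pair_comm]

theorem step_ne {n : ℕ} (hn : 3 ≤ n) (i : ZMod n) : i + 1 ≠ i := by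
  intro h
  have h1 : (1 : ZMod n) = 0 := by
    have := congrArg (fun z => z - i) h
    simpa using this
  have : Fact (1 < n) := ⟨by omega⟩
  exact one_ne_zero h1

end LNK_

open LNK_ in
theorem lnk_proof : Stmt_LNK := by
  intro V _ _ K op v n c hop hc
  have ht := tri_iff hc
  have hc' := hc
  obtain ⟨hn, hinj, hv, -⟩ := hc'
  have hstep : ∀ i : ZMod n, c i ≠ c (i + 1) := fun i h => step_ne hn i (hinj h).symm
  have hstep' : ∀ i : ZMod n, c i ≠ c (i - 1) := by
    intro i h
    have := hstep (i - 1)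
    rw [sub_add_cancel] at this
    exact this h.symm
  refine ⟨ht, ?_, ?_⟩
  · intro i
    constructor
    · have h1 : ({v, c i, c (i + 1)} : Finset V) ∈ K.tri :=
        (ht _ _).2 ⟨hstep i, i, Or.inl ⟨rfl, rfl⟩⟩
      obtain ⟨h2, h3, -, -, -⟩ := hop v (c i) (c (i + 1)) h1
      obtain ⟨-, j, ⟨hj1, hj2⟩ | ⟨hj1, hj2⟩⟩ := (ht _ _).1 h2
      · have := hinj hj1
        subst this
        exact absurd hj2 h3
      · have := hinj hj1
        rw [hj2, this, add_sub_cancel_right]
    · have h1 : ({v, c i, c (i - 1)} : Finset V) ∈ K.tri :=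
        (ht _ _).2 ⟨hstep' i, i - 1, Or.inr ⟨by rw [sub_add_cancel], rfl⟩⟩
      obtain ⟨h2, h3, -, -, -⟩ := hop v (c i) (c (i - 1)) h1
      obtain ⟨-, j, ⟨hj1, hj2⟩ | ⟨hj1, hj2⟩⟩ := (ht _ _).1 h2
      · have := hinj hj1
        subst this
        exact hj2
      · have := hinj hj1
        exfalso
        apply h3
        rw [hj2, this, add_sub_cancel_right]
  · intro i
    have := Function.leftInverse_invFun hinj i
    unfold nx pv
    rw [this]
    exact ⟨rfl, rfl⟩

end Pool.Agent.TSX
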