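import Pool.Agent.TSX.Stmts

/-!
# TSX, NRV: planes near at the vertex are near in the scaled picture
-/

set_option autoImplicit false

namespace Pool.Agent.TSX

open Set Filter Topology Pool.Agent.TSM Pool.Agent.TSR

namespace NRV_

variable {V : Type} [DecidableEq V]

theorem oV_anti {L : Pg (Option V)} (hok : L.Ok) (oL : Option V → ℝ) (u w : V) :
    oV L oL w u = - oV L oL u w := by
  unfold oV
  by_cases h1 : some u ∈ L.S ∧ L.s (some u) = some w
  · by_cases h2 : some w ∈ L.S ∧ L.s (some w) = some u
    · exfalso
      apply Pool.Agent.TSC.ss_ne hok h1.1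
      rw [h1.2, h2.2]
    · rw [if_neg h2, if_pos h1, if_pos h1]
  · by_cases h2 : some w ∈ L.S ∧ L.s (some w) = some u
    · rw [if_pos h2, if_neg h1, if_pos h2, neg_neg]
    · rw [if_neg h2, if_neg h1, if_neg h1, if_neg h2, neg_zero]

theorem aV_some {L : Pg (Option V)} {a b : V} (h : L.s (some a) = some b) (oL : Option V → ℝ)
    (P : V → V → Aff) : aV L oL P (some a) = ((P a b).1, oL (some a)) := by
  unfold aV
  simp only [h]

theorem aV_none (L : Pg (Option V)) (oL : Option V → ℝ) (P : V → V → Aff) :
    aV L oL P none = (L.nor none, 0) := by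
  unfold aV
  rfl

theorem aV_snone {L : Pg (Option V)} {i : Option V} (h : L.s i = none) (oL : Option V → ℝ)
    (P : V → V → Aff) : aV L oL P i = (L.nor i, 0) := by
  unfold aV
  cases i with
  | none => rfl
  | some a => simp only [h]

/-- if `none` is a label then it is the flat vertex -/
theorem X_none {V : Type} [Fintype V] [DecidableEq V] {K : Surf V} {p : V → E3} {Φ : Finset Aff} {op : V → V → V → V} {v : V}
    {L : Pg (Option V)} {pr : Option V → Option V} {k : ℝ} (hv : VP K p Φ op v L pr k)
    (h : none ∈ L.S) : L.X = some none := by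
  cases hX : L.X with
  | none => exact absurd h (hv.inn hX).1
  | some m => rw [(hv.cor m hX).1]

end NRV_

open NRV_

theorem NRV_proof : Stmt_NRV := by
  intro V _ _ K p Φ op v L pr k _ _ hv κ Ch N μ ε hC oL oN η r hη hr ho
  refine ⟨fun u w => oV_anti hv.ok oL u w, ?_⟩
  intro P B hN
  have hnf : ∀ a b, some a ∈ L.S → L.s (some a) = some b → Nf K p Φ v a b := by
    intro a b ha hab
    obtain ⟨w, _, _, h⟩ := hv.arm a ha
    rw [hab] at h
    rcases h with ⟨h, h'⟩ | ⟨h, -⟩
    · rw [Option.some.inj h]; exact h'
    · exact absurd h (by simp)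
  refine ⟨?_, ?_, ?_⟩
  · intro i hi
    have key : ∀ j, (aV L oL P i = (L.nor i, 0) ∧ (j = i ∨ L.s i = j) ∧ j = none ∧ j ∈ L.S) →
        ‖(aV L oL P i).1 - L.nor i‖ < η ∧ |(aV L oL P i).2 - oL i| < η := by
      rintro j ⟨h1, h2, h3, h4⟩
      subst h3
      have hX := X_none hv h4
      have ho' := ho none hX
      have h0 : oL i = 0 := by
        rcases h2 with h2 | h2
        · rw [← h2]; exact ho'.1
        · exact ho'.2 i hi h2
      rw [h1, h0]
      simpa using hη
    cases i with
    | none => exact key none ⟨aV_none L oL P, Or.inl rfl, rfl, hi⟩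
    | some a =>
      cases hs : L.s (some a) with
      | none =>
        refine key none ⟨aV_snone hs oL P, Or.inr hs, rfl, ?_⟩
        have := hv.ok.maps _ hi
        rwa [hs] at this
      | some b =>
        have hb : some b ∈ L.S := by
          have := hv.ok.maps _ hi
          rwa [hs] at this
        have h1 := (hN.nf a b (hnf a b hi hs)).1
        have hnor : L.nor (some a) = n0 p v a b := by
          unfold Pg.nor n0
          rw [hs, hv.psome a hi, hv.psome b hb]
        rw [aV_some hs, hnor]
        refine ⟨h1, ?_⟩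
        simpa using hη
  · intro j hj n hn
    cases j with
    | none =>
      exfalso
      have hX := X_none hv hj
      have hpr := hv.ispr none hj
      have h1 := Pool.Agent.TSC.turn_flat hv.ok hv.ispr hX
      have h2 := (hC (pr none) hpr.1).1 h1
      rw [hpr.2.1] at h2
      rw [h2] at hn
      exact absurd hn (Finset.notMem_empty n)
    | some u =>
      obtain ⟨h1, h2⟩ := hN.ch u n hn
      refine ⟨h1, ?_⟩
      unfold bV
      have h3 : -(ev (B n) (p v)) / r - oN n = -((ev (B n) (p v) + r * oN n) / r) := by
        field_simp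
        ring
      simp only
      rw [h3, abs_neg, abs_div, abs_of_pos hr, div_lt_iff₀ hr, mul_comm η r]
      exact h2
  · intro m hm
    have hm0 := (hv.cor m hm).1
    subst hm0
    exact ⟨aV_none L oL P, fun q _ hq => aV_snone hq oL P⟩

end Pool.Agent.TSX
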