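import Pool.Agent.TSX.Stmts

/-!
# TSX, module RFC: the core map is continuous, good, bounded and satisfies the half space condition
-/

set_option autoImplicit false

namespace Pool.Agent.TSX

open Set Filter Topology Pool.Agent.TSM Pool.Agent.TSR

namespace RFC_

variable {V : Type} [Fintype V] [DecidableEq V]

omit [DecidableEq V] in
theorem cont_lin (p : V → E3) : Continuous (fun x : V → ℝ => lin p x) := by
  unfold lin
  exact continuous_finsetSum _ fun v _ => (continuous_apply v).smul continuous_const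

theorem cone_smul {W : Type} [DecidableEq W] {L : Pg W} {x : E3} (hx : x ∈ L.cone) {t : ℝ}
    (ht : 0 ≤ t) : t • x ∈ L.cone := by
  obtain ⟨i, hi, a, b, ha, hb, rfl⟩ := hx
  exact ⟨i, hi, t * a, t * b, mul_nonneg ht ha, mul_nonneg ht hb, by
    rw [smul_add, smul_smul, smul_smul]⟩

theorem body_star {K : Surf V} {x : V → ℝ} (hx : x ∈ K.body) {v : V} (hv : 0 < x v) :
    x ∈ K.star v := by
  obtain ⟨h1, h2, t, ht, h3⟩ := hx
  refine ⟨h1, h2, t, ht, ?_, h3⟩
  by_contra h
  exact absurd (h3 v h) hv.ne'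

theorem ev_gV (q : E3) (r : ℝ) (φ : Aff) (y : E3) :
    ev φ (q + r • y) = ev φ q + r * (inner ℝ φ.1 y : ℝ) := by
  unfold ev
  rw [inner_add_right, inner_smul_right]
  ring

theorem ev_un' (q : E3) (r : ℝ) (Z : Aff) (y : E3) :
    ev (un q r Z) (q + r • y) = r * ev Z y := by
  unfold ev un
  simp only
  rw [inner_add_right, inner_smul_right]
  ring

theorem G3_un (q : E3) {r : ℝ} (hr : 0 < r) (a b c : Aff) (y : E3) :
    G3 (un q r a) (un q r b) (un q r c) (q + r • y) = r * G3 a b c y := by
  unfold G3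
  rw [ev_un', ev_un', ev_un', mul_max_of_nonneg _ _ hr.le, mul_min_of_nonneg _ _ hr.le]

/-- a vector orthogonal to `a` and `b` is parallel to the cross product -/
theorem par {a b n : E3} (ha : (inner ℝ n a : ℝ) = 0) (hb : (inner ℝ n b : ℝ) = 0)
    (h : crs a b ≠ 0) : ∃ t : ℝ, n = t • crs a b := by
  have h1 : crs n (crs a b) = 0 := by
    rw [Pool.Agent.TSC.crs_crs', ha, hb, zero_smul, zero_smul, sub_zero]
  set N := crs a b with hN
  have e0 : n 1 * N 2 - n 2 * N 1 = 0 := by
    have := congrArg (fun z : E3 => z 0) h1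
    simpa [Pool.Agent.TSC.crs0] using this
  have e1 : n 2 * N 0 - n 0 * N 2 = 0 := by
    have := congrArg (fun z : E3 => z 1) h1
    simpa [Pool.Agent.TSC.crs1] using this
  have e2 : n 0 * N 1 - n 1 * N 0 = 0 := by
    have := congrArg (fun z : E3 => z 2) h1
    simpa [Pool.Agent.TSC.crs2] using this
  have hs : N 0 * N 0 + N 1 * N 1 + N 2 * N 2 ≠ 0 := by
    intro h0
    apply h
    have a0 : N 0 = 0 := by nlinarith [sq_nonneg (N 0), sq_nonneg (N 1), sq_nonneg (N 2)]
    have a1 : N 1 = 0 := by nlinarith [sq_nonneg (N 0), sq_nonneg (N 1), sq_nonneg (N 2)]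
    have a2 : N 2 = 0 := by nlinarith [sq_nonneg (N 0), sq_nonneg (N 1), sq_nonneg (N 2)]
    apply Pool.Agent.TSC.e3ext <;> simp [a0, a1, a2]
  refine ⟨(n 0 * N 0 + n 1 * N 1 + n 2 * N 2) / (N 0 * N 0 + N 1 * N 1 + N 2 * N 2), ?_⟩
  apply Pool.Agent.TSC.e3ext
  · simp only [PiLp.smul_apply, smul_eq_mul]
    rw [div_mul_eq_mul_div, eq_div_iff hs]
    linear_combination (N 2) * (-e1) + N 1 * e2
  · simp only [PiLp.smul_apply, smul_eq_mul]
    rw [div_mul_eq_mul_div, eq_div_iff hs]
    linear_combination (N 2) * e0 - N 0 * e2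
  · simp only [PiLp.smul_apply, smul_eq_mul]
    rw [div_mul_eq_mul_div, eq_div_iff hs]
    linear_combination (-(N 1)) * e0 + N 0 * e1

end RFC_

open RFC_

theorem rfc_proof : Stmt_RFC := by
  intro V _ _ K p Φ op v L pr k τ e d₁ d ε β κ Ch N oL oN η r R M P B D H
  have hr := H.rpos
  have hri : (0 : ℝ) ≤ r⁻¹ := inv_nonneg.2 hr.le
  have hz : ∀ x ∈ K.star v, r⁻¹ • (lin p x - p v) ∈ L.cone := fun x hx =>
    cone_smul (H.vp.star x hx) hri
  have hcz : Continuous (fun x : V → ℝ => r⁻¹ • (lin p x - p v)) := by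
    have h0 : Continuous (fun x : V → ℝ => lin p x) := cont_lin p
    fun_prop
  have hrr : ∀ x : E3, r • (r⁻¹ • x) = x := fun x => by
    rw [smul_smul, mul_inv_cancel₀ hr.ne', one_smul]
  refine ⟨?_, ?_, ?_, ?_⟩
  · have h1 : ContinuousOn (fun x => D (r⁻¹ • (lin p x - p v))) (K.star v) :=
      H.cont.comp hcz.continuousOn fun x hx => hz x hx
    unfold gV
    exact continuousOn_const.add (h1.const_smul r)
  · intro x hx
    have hxs := body_star x.2 hx
    obtain ⟨U, hU, hinj, a, b, c, hind, hG⟩ := (H.good _ (hz _ hxs)).1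
    obtain ⟨O, hO, hxO, hOU⟩ := mem_nhdsWithin.1 hU
    have hcz' : Continuous (fun x : K.body => r⁻¹ • (lin p x.1 - p v)) :=
      hcz.comp continuous_subtype_val
    have hO' : IsOpen {y : K.body | r⁻¹ • (lin p y.1 - p v) ∈ O} := hO.preimage hcz'
    have hW : IsOpen {y : K.body | 0 < y.1 v} :=
      isOpen_lt continuous_const ((continuous_apply v).comp continuous_subtype_val)
    refine ⟨{y : K.body | r⁻¹ • (lin p y.1 - p v) ∈ O} ∩ {y : K.body | 0 < y.1 v},
      (hO'.inter hW).mem_nhds ⟨hxO, hx⟩, ?_, un (p v) r a, un (p v) r b, un (p v) r c, hind, ?_⟩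
    · intro y hy z hzz hyz
      have hys := body_star y.2 hy.2
      have hzs := body_star z.2 hzz.2
      simp only [gV, Surf.map] at hyz
      have h1 : D (r⁻¹ • (lin p y.1 - p v)) = D (r⁻¹ • (lin p z.1 - p v)) := by
        have h2 := add_left_cancel hyz
        have h3 := congrArg (fun w : E3 => r⁻¹ • w) h2
        simpa [smul_smul, inv_mul_cancel₀ hr.ne'] using h3
      have h2 := hinj (hOU ⟨hy.1, hz _ hys⟩) (hOU ⟨hzz.1, hz _ hzs⟩) h1
      have h3 : lin p y.1 = lin p z.1 := by
        have h4 := congrArg (fun w : E3 => r • w) h2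
        simp only [hrr] at h4
        exact sub_left_injective h4
      exact Subtype.ext (H.fr.emb v hys hzs h3)
    · intro y hy
      have hys := body_star y.2 hy.2
      have h1 := hG _ (hOU ⟨hy.1, hz _ hys⟩)
      show G3 _ _ _ (p v + r • D (r⁻¹ • (lin p y.1 - p v))) = 0
      rw [G3_un _ hr, h1, mul_zero]
  · intro x hx
    have h1 := H.bound _ (hz x hx)
    set z := r⁻¹ • (lin p x - p v) with hzd
    have hxz : lin p x - p v = r • z := by rw [hzd, hrr]
    have h2 : gV (p v) r D (lin p x) - lin p x = r • (D z - z) := by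
      show p v + r • D z - lin p x = _
      rw [smul_sub, ← hxz]
      abel
    rw [h2, hxz, norm_smul, norm_smul, Real.norm_of_nonneg hr.le]
    have h3 : M * (1 + ‖z‖) ≤ |M| * (1 + ‖z‖) :=
      mul_le_mul_of_nonneg_right (le_abs_self M) (by positivity)
    calc r * ‖D z - z‖ ≤ r * (|M| * (1 + ‖z‖)) :=
          mul_le_mul_of_nonneg_left (h1.trans h3) hr.le
      _ = |M| * (r + r * ‖z‖) := by ring
  · intro φ hφ hφ0 x hx
    have hH := (H.good _ (hz x hx)).2
    set z := r⁻¹ • (lin p x - p v) with hzd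
    show ev φ (p v + r • D z) ≤ 0
    rw [ev_gV, hφ0, zero_add]
    have key : (inner ℝ φ.1 (D z) : ℝ) ≤ 0 := by
      rcases hX : L.X with _ | m
      · exact absurd hφ0 ((H.vp.inn hX).2 φ hφ).ne
      · obtain ⟨rfl, ψ, hψ, hψ0, hoth, hn, hle, -, -⟩ := H.vp.cor m hX
        have hφψ : φ = ψ := by
          by_contra h
          exact absurd hφ0 (hoth φ hφ h).ne
        subst hφψ
        obtain ⟨hL0⟩ : Nonempty (L.CornerAt none) := by
          rcases H.vp.ok.kind with ⟨h, -⟩ | ⟨m, h, hc⟩
          · rw [hX] at h; exact absurd h (by simp)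
          · rw [hX] at h
            cases h
            exact ⟨hc⟩
        obtain ⟨hmS, q, hqS, hqm, ⟨a, b, ha, hb, hab⟩, σ, -, hσ⟩ := hL0
        have hsS := H.vp.ok.maps _ hmS
        have h5 : a * (inner ℝ φ.1 (L.p q) : ℝ) + b * (inner ℝ φ.1 (L.p (L.s none)) : ℝ) = 0 := by
          have := congrArg (fun w : E3 => (inner ℝ φ.1 w : ℝ)) hab
          simp only [inner_add_right, inner_smul_right, inner_zero_right, hn, add_zero] at this
          exact this
        have h6 : (inner ℝ φ.1 (L.p (L.s none)) : ℝ) = 0 := by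
          have h7 := hle q hqS
          have h8 := hle _ hsS
          by_contra h9
          have h10 : (inner ℝ φ.1 (L.p (L.s none)) : ℝ) < 0 := lt_of_le_of_ne h8 h9
          nlinarith [mul_nonneg ha.le (neg_nonneg.2 h7), mul_pos hb (neg_pos.2 h10)]
        have hN : crs (L.p none) (L.p (L.s none)) ≠ 0 := by
          intro h0
          obtain ⟨i, hi, hi'⟩ : ∃ i ∈ L.S, i ∉ ({q, none, L.s none} : Finset (Option V)) := by
            by_contra hcon
            push Not at hcon
            have h7 := Finset.card_le_card hcon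
            have h8 := H.vp.ok.card
            have h9 : ({q, none, L.s none} : Finset (Option V)).card ≤ 3 := Finset.card_le_three
            omega
          simp only [Finset.mem_insert, Finset.mem_singleton, not_or] at hi'
          have h7 := hσ i hi hi'.1 hi'.2.1 hi'.2.2
          rw [show L.nor none = 0 from h0, inner_zero_left, mul_zero] at h7
          exact lt_irrefl _ h7
        obtain ⟨t, ht⟩ := par hn h6 hN
        have h7 := hH none hX t (fun i hi => by
          have h8 := hle i hi
          rw [ht, inner_smul_left] at h8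
          simpa [Pg.nor] using h8)
        rw [ht, inner_smul_left]
        simpa [Pg.nor] using h7
    nlinarith

end Pool.Agent.TSX
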