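import Pool.Agent.TSX.Stmts
import Pool.Agent.TSR.Base

/-!
# TSX.RFE: the edge equation of the core map
-/

set_option autoImplicit false

namespace Pool.Agent.TSX

open Set Filter Topology Pool.Agent.TSM Pool.Agent.TSR

namespace RFE_

variable {V : Type} [Fintype V] [DecidableEq V]

theorem aV_ss (L : Pg (Option V)) (oL : Option V → ℝ) (P : V → V → Aff) {a b : V}
    (h : L.s (some a) = some b) : aV L oL P (some a) = ((P a b).1, oL (some a)) := by
  unfold aV; rw [h]

theorem aV_sn (L : Pg (Option V)) (oL : Option V → ℝ) (P : V → V → Aff) {a : V}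
    (h : L.s (some a) = none) : aV L oL P (some a) = (L.nor (some a), 0) := by
  unfold aV; rw [h]

theorem aV_none (L : Pg (Option V)) (oL : Option V → ℝ) (P : V → V → Aff) :
    aV L oL P none = (L.nor none, 0) := by
  unfold aV; rfl

theorem ev_pt (Z : Aff) (q z : E3) (r : ℝ) :
    ev Z (q + r • z) = ev Z q + r * (inner ℝ Z.1 z : ℝ) := by
  rw [ev_add, inner_smul_right]

theorem smul_cancel {a b : ℝ} {x : E3} (hx : x ≠ 0) (h : a • x = b • x) : a = b := by
  have h1 : (a - b) • x = 0 := by rw [sub_smul, h, sub_self]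
  rcases smul_eq_zero.1 h1 with h2 | h2
  · linarith
  · exact absurd h2 hx

theorem ident {K : Surf V} {p : V → E3} {Φ : Finset Aff} {op : V → V → V → V} {v : V}
    {L : Pg (Option V)} {pr : Option V → Option V} {k : ℝ} (hvp : VP K p Φ op v L pr k)
    {κ : Type} {X : V → Finset κ} {N : κ → E3} {oL : Option V → ℝ} {oN : κ → ℝ} {η r : ℝ}
    {P : V → V → Aff} {B : κ → Aff} (hn : NearV K p Φ v X N (oV L oL) oN η r P B)
    {u w : V} (hu : some u ∈ L.S) {nb fc : Option V}
    (h : (nb = pr (some u) ∧ fc = pr (some u)) ∨ (nb = L.s (some u) ∧ fc = some u))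
    (hs : Side K p Φ L v u w nb) {lam τ : ℝ} (hnor : L.nor fc ≠ 0)
    (hE : nE p op v u w = (lam * τ) • L.nor fc) (q : E3) :
    sg p op v u w * ev (P u w) (p v + r • q) = r * lam * τ * ev (aV L oL P fc) q := by
  obtain ⟨g1, g2, g3⟩ := hvp.ispr (some u) hu
  rcases hs with ⟨hnb, hNf⟩ | ⟨hnb, hFt, -⟩
  · rcases h with ⟨h1, h2⟩ | ⟨h1, h2⟩
    · have hpw : pr (some u) = some w := h1.symm.trans hnb
      have hfc : fc = some w := h2.trans hpw
      have hw : some w ∈ L.S := hpw ▸ g1
      have hsw : L.s (some w) = some u := hpw ▸ g2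
      have e1 : L.nor fc = - n0 p v u w := by
        rw [hfc]
        unfold Pg.nor
        rw [hsw, hvp.psome w hw, hvp.psome u hu, ← n0_anti]
        rfl
      have hn0 : n0 p v u w ≠ 0 := by
        intro h0; rw [e1, h0, neg_zero] at hnor; exact hnor rfl
      have hsg : sg p op v u w = - (lam * τ) := by
        apply smul_cancel hn0
        have : sg p op v u w • n0 p v u w = (lam * τ) • L.nor fc := hE
        rw [this, e1]; module
      have hP : P u w = - P w u := hn.anti w u
      have ho : oV L oL w u = oL (some w) := by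
        unfold oV; rw [if_pos ⟨hw, hsw⟩]
      have hev := (hn.nf w u hNf.anti).2
      rw [ho] at hev
      rw [hfc, aV_ss L oL P hsw, hP, ev_neg, ev_pt, hev, hsg]
      unfold ev
      ring
    · have hsu : L.s (some u) = some w := h1.symm.trans hnb
      have hw : some w ∈ L.S := hsu ▸ hvp.ok.maps _ hu
      have e1 : L.nor fc = n0 p v u w := by
        rw [h2]
        unfold Pg.nor
        rw [hsu, hvp.psome w hw, hvp.psome u hu]
        rfl
      have hn0 : n0 p v u w ≠ 0 := by
        intro h0; rw [e1, h0] at hnor; exact hnor rfl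
      have hsg : sg p op v u w = lam * τ := by
        apply smul_cancel hn0
        have : sg p op v u w • n0 p v u w = (lam * τ) • L.nor fc := hE
        rw [this, e1]
      have ho : oV L oL u w = oL (some u) := by
        unfold oV; rw [if_pos ⟨hu, hsu⟩]
      have hev := (hn.nf u w hNf).2
      rw [ho] at hev
      rw [h2, aV_ss L oL P hsu, ev_pt, hev, hsg]
      unfold ev
      ring
  · have hP : P u w = P0 p v u w := hn.ft u w hFt
    have hA : aV L oL P fc = (L.nor fc, 0) := by
      rcases h with ⟨h1, h2⟩ | ⟨h1, h2⟩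
      · have hfc : fc = none := h2.trans (h1.symm.trans hnb)
        rw [hfc]; exact aV_none L oL P
      · have hsu : L.s (some u) = none := h1.symm.trans hnb
        rw [h2]; exact aV_sn L oL P hsu
    have hE' : sg p op v u w • n0 p v u w = (lam * τ) • L.nor fc := hE
    have h3 : sg p op v u w * (inner ℝ (n0 p v u w) q : ℝ) =
        lam * τ * (inner ℝ (L.nor fc) q : ℝ) := by
      rw [← real_inner_smul_left, hE', real_inner_smul_left]
    rw [hP, ev_P0, hA, add_sub_cancel_left, inner_smul_right]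
    unfold ev
    calc sg p op v u w * (r * (inner ℝ (n0 p v u w) q : ℝ))
        = r * (sg p op v u w * (inner ℝ (n0 p v u w) q : ℝ)) := by ring
      _ = r * lam * τ * ((inner ℝ (L.nor fc) q : ℝ) - 0) := by rw [h3]; ring

theorem bF_one {W : Type} [DecidableEq W] (L : Pg W) (e : W → E3) {d : ℝ} (i : W) {a c : ℝ}
    (hd : 0 < d) (hd8 : d ≤ 1 / 8) (hc : 0 ≤ c) (ha : 0 < a) (h : c ≤ d * a) :
    bF L e d i a c = e i ∧ bF L e d i c a = e (L.s i) := by
  have h1 : cutf d c a = 1 := cutf_one hd ha h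
  have h2 : cutf d a c = 0 := by
    apply cutf_zero hd.le hc
    nlinarith [mul_pos hd ha]
  unfold bF
  rw [h1, h2]
  constructor <;> module

end RFE_

open RFE_ in
theorem rfe_proof : Stmt_RFE := by
  intro V _ _ K p Φ op v L pr k τ e d₁ d ε β κ Ch N oL oN η r R M P B D hcv u w hfl x hx hxv hR
    hxw y hy
  obtain ⟨n1, n2, n3⟩ := tri_ne hfl.1
  have hvp := hcv.vp
  have hu : some u ∈ L.S := hvp.flag u w hfl
  obtain ⟨g1, g2, g3⟩ := hvp.ispr (some u) hu
  obtain ⟨ht, hτ⟩ := hcv.arms.tau u hu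
  obtain ⟨nb, fc, nb', fc', lam, lam', h1, hs, hs', hl, hl', hE, hE', hbd⟩ :=
    hcv.arms.armd u w hfl
  have hr := hcv.rpos
  have hRp := hcv.Rpos
  -- the two normals
  have ht' : det3 (L.p (pr (some u))) (L.p (some u)) (L.p (L.s (some u))) ≠ 0 := by
    have := ht
    unfold Pg.turn at this
    rwa [g2] at this
  have hnor1 : L.nor (pr (some u)) ≠ 0 := by
    intro h0
    apply ht'
    rw [← Pool.Agent.TSC.inner_crs]
    have : crs (L.p (pr (some u))) (L.p (some u)) = 0 := by
      have h := h0; unfold Pg.nor at h; rwa [g2] at h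
    rw [this, inner_zero_left]
  have hnor2 : L.nor (some u) ≠ 0 := by
    intro h0
    apply ht'
    rw [Pool.Agent.TSC.det3_rot, ← Pool.Agent.TSC.inner_crs]
    have : crs (L.p (some u)) (L.p (L.s (some u))) = 0 := h0
    rw [this, inner_zero_left]
  have hnorf : L.nor fc ≠ 0 := by
    rcases h1 with ⟨_, h, _⟩ | ⟨_, h, _⟩ <;> rw [h] <;> assumption
  have hnorf' : L.nor fc' ≠ 0 := by
    rcases h1 with ⟨_, _, _, h⟩ | ⟨_, _, _, h⟩ <;> rw [h] <;> assumption
  have hA : (nb = pr (some u) ∧ fc = pr (some u)) ∨ (nb = L.s (some u) ∧ fc = some u) := by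
    rcases h1 with ⟨a, b, _, _⟩ | ⟨a, b, _, _⟩
    · exact Or.inl ⟨a, b⟩
    · exact Or.inr ⟨a, b⟩
  have hA' : (nb' = pr (some u) ∧ fc' = pr (some u)) ∨ (nb' = L.s (some u) ∧ fc' = some u) := by
    rcases h1 with ⟨_, _, a, b⟩ | ⟨_, _, a, b⟩
    · exact Or.inr ⟨a, b⟩
    · exact Or.inl ⟨a, b⟩
  have hfcS : fc ∈ L.S := by rcases hA with ⟨_, h⟩ | ⟨_, h⟩ <;> rw [h] <;> assumption
  have hnbS : nb ∈ L.S := by
    rcases hA with ⟨h, _⟩ | ⟨h, _⟩ <;> rw [h]
    · exact g1
    · exact hvp.ok.maps _ hu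
  -- the point
  obtain ⟨z, hz⟩ : ∃ z : E3, z = r⁻¹ • (lin p x - p v) := ⟨_, rfl⟩
  have hlin := hx.lin (p := p) n1 n2 n3
  have hrz : p v + r • z = lin p x := by
    rw [hz, smul_smul, mul_inv_cancel₀ hr.ne', one_smul]; abel
  have hzn : R ≤ ‖z‖ := by
    rw [hz, norm_smul, norm_inv, Real.norm_eq_abs, abs_of_pos hr, inv_mul_eq_div,
      le_div_iff₀ hr]
    exact hR
  have hz0 : z ≠ 0 := by
    intro h0; rw [h0, norm_zero] at hzn; linarith
  have hxu0 := hx.1 u
  have hxw0 := hx.1 w
  have hzz : z = (x u / r) • (p u - p v) + (x w / r) • (p w - p v) := by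
    rw [hz, hlin, add_assoc, add_sub_cancel_left, smul_add, smul_smul, smul_smul]
    congr 2 <;> ring
  have hxu : 0 < x u := by
    rcases hxu0.lt_or_eq with h | h
    · exact h
    · exfalso
      have h2 : x w = 0 := by
        apply le_antisymm _ hxw0
        rw [← h, mul_zero] at hxw; exact hxw
      apply hz0
      rw [hzz, ← h, h2]; simp
  -- coordinates in the face `fc`
  obtain ⟨c, c', hc, hc', hcc, hcd, hzc⟩ : ∃ c c' : ℝ, 0 ≤ c ∧ 0 < c' ∧ c ≤ c' ∧
      (nb ≠ none → c ≤ d * c') ∧ z = c • L.p nb + c' • L.p (some u) := by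
    have hdd := hcv.d8
    have hdp := hcv.dpos
    rcases hs with ⟨hnb, hNf⟩ | ⟨hnb, hFt, α, b, hb, hp⟩
    · refine ⟨x w / r, x u / r, by positivity, by positivity, ?_, fun _ => ?_, ?_⟩
      · apply div_le_div_of_nonneg_right _ hr.le
        nlinarith
      · rw [← mul_div_assoc]
        exact div_le_div_of_nonneg_right hxw hr.le
      · rw [hnb, hvp.psome w (hnb ▸ hnbS), hvp.psome u hu, hzz, add_comm]
    · obtain ⟨q1, q2⟩ := hbd α b hb hp hnb
      have hd1 := hcv.arms.d1
      have hdd1 := hcv.dd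
      have k1 : |α| * x w ≤ x u / 2 := by
        have e1 : |α| * x w ≤ |α| * (d * x u) := mul_le_mul_of_nonneg_left hxw (abs_nonneg _)
        have e2 : |α| * (d * x u) ≤ |α| * (d₁ * x u) :=
          mul_le_mul_of_nonneg_left (mul_le_mul_of_nonneg_right hdd1 hxu0) (abs_nonneg _)
        have e3 : |α| * (d₁ * x u) ≤ x u / 2 := by
          calc |α| * (d₁ * x u) = |α| * d₁ * x u := by ring
            _ ≤ 1 / 2 * x u := mul_le_mul_of_nonneg_right q1 hxu0
            _ = x u / 2 := by ring
        linarith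
      have k2 : b * x w ≤ x u / 2 := by
        have e1 : b * x w ≤ b * (d * x u) := mul_le_mul_of_nonneg_left hxw hb.le
        have e2 : b * (d * x u) ≤ b * (d₁ * x u) :=
          mul_le_mul_of_nonneg_left (mul_le_mul_of_nonneg_right hdd1 hxu0) hb.le
        have e3 : b * (d₁ * x u) ≤ x u / 2 := by
          calc b * (d₁ * x u) = b * d₁ * x u := by ring
            _ ≤ 1 / 2 * x u := mul_le_mul_of_nonneg_right q2 hxu0
            _ = x u / 2 := by ring
        linarith
      have k3 : -(x u / 2) ≤ α * x w := by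
        have : -(|α| * x w) ≤ α * x w := by
          have := neg_abs_le α
          nlinarith
        linarith
      refine ⟨b * x w / r, (x u + α * x w) / r, by positivity, ?_, ?_, fun h => absurd hnb h, ?_⟩
      · apply div_pos _ hr; linarith
      · apply div_le_div_of_nonneg_right _ hr.le; linarith
      · rw [hnb, hvp.psome u hu, hzz, hp]
        module
  have hεp := hcv.eps
  have hεd := hcv.epsd
  have hd8 := hcv.d8
  have hdp := hcv.dpos
  -- face coordinates
  have hface : z = (if fc = pr (some u) ∧ nb = pr (some u) then c else c') • L.p fc +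
      (if fc = pr (some u) ∧ nb = pr (some u) then c' else c) • L.p (L.s fc) := by
    rcases hA with ⟨h, h'⟩ | ⟨h, h'⟩
    · rw [if_pos ⟨h', h⟩, if_pos ⟨h', h⟩, hzc, h, h', g2]
    · have hne : ¬ (fc = pr (some u) ∧ nb = pr (some u)) := by
        rintro ⟨_, h3⟩
        rw [h] at h3
        exact Pool.Agent.TSC.pr_ne_s hvp.ok hvp.ispr hu h3.symm
      rw [if_neg hne, if_neg hne, hzc, h, h', add_comm]
  have hzf : z ∈ L.face fc := by
    rw [hface]
    refine ⟨_, _, ?_, ?_, rfl⟩ <;> split_ifs <;> linarith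
  have hzcone : z ∈ L.cone := ⟨fc, hfcS, hzf⟩
  obtain ⟨⟨t, hDt⟩, hZX⟩ := hcv.far z hzcone hzn
  -- the arm equation
  have hzface : 2 * ε * c' < c → z ∈ L.faceZone ε fc := by
    intro hlt
    have q1 : ε * c' ≤ c := by nlinarith [mul_pos hεp hc']
    have q2 : ε * c ≤ c' := by nlinarith
    rw [hface]
    refine ⟨_, _, ?_, ?_, ?_, ?_, rfl⟩ <;> split_ifs <;> first | linarith | assumption
  have hArm : L.ArmEq Ch (aV L oL P) (bV (p v) r B) (pr (some u)) (D z) := by
    rcases le_or_gt c (2 * ε * c') with hle | hlt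
    · refine hZX.1.1 _ g1 ⟨c, c', hc, hc'.le, hle, ?_⟩
      rw [g2, hzc]
      rcases hA with ⟨h, _⟩ | ⟨h, _⟩
      · left; rw [h]
      · right; rw [h]
    · have h3 := hzface hlt
      refine hZX.2 _ g1 ht ?_
      rcases hA with ⟨_, h'⟩ | ⟨_, h'⟩
      · left; rw [h'] at h3; exact h3
      · right; rw [g2]; rw [h'] at h3; exact h3
  -- the direction
  have hdir : ∃ s : ℝ, D z = z - s • eE p v u w (op v u w) := by
    by_cases hcase : c ≤ d * c'
    · have hb : β z = e (some u) := by
        have hbb := bF_one L e fc hdp hd8 hc hc' hcase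
        rcases hA with ⟨h, h'⟩ | ⟨h, h'⟩
        · have hz1 : z = c • L.p fc + c' • L.p (L.s fc) := by rw [hzc, h, h', g2]
          have := hcv.beta fc hfcS c c' hc hc'.le (by rw [← hz1]; exact hz0)
          rw [← hz1] at this
          rw [this, hbb.2, h', g2]
        · have hz1 : z = c' • L.p fc + c • L.p (L.s fc) := by rw [hzc, h, h', add_comm]
          have := hcv.beta fc hfcS c' c hc'.le hc (by rw [← hz1]; exact hz0)
          rw [← hz1] at this
          rw [this, hbb.1, h']
      refine ⟨t * τ u, ?_⟩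
      rw [hDt, hb, hcv.arms.dir u w hfl, smul_smul]
    · -- flat face
      have hnb : nb = none := by
        by_contra hne; exact hcase (hcd hne)
      push Not at hcase
      have hlt : 2 * ε * c' < c := by nlinarith [mul_pos hεp hc']
      have h3 := hzface hlt
      have h4 := hZX.1.2 fc hfcS h3
      have hAf : aV L oL P fc = (L.nor fc, 0) := by
        rcases hA with ⟨h, h'⟩ | ⟨h, h'⟩
        · have hfc : fc = none := h'.trans (h.symm.trans hnb)
          rw [hfc]; exact aV_none L oL P
        · rw [h']; exact aV_sn L oL P (h.symm.trans hnb)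
      rw [hAf] at h4
      obtain ⟨Λ, c₀, hT⟩ := hcv.adm
      have hpos := hT.2.2.2 fc hfcS z hzf hz0
      have hpos' : 0 < (inner ℝ (L.nor fc) (β z) : ℝ) := lt_of_lt_of_le hT.1 hpos
      have hzn0 : (inner ℝ (L.nor fc) z : ℝ) = 0 := by
        rw [hface, inner_add_right, inner_smul_right, inner_smul_right]
        unfold Pg.nor
        rw [Pool.Agent.TSC.inner_crs, Pool.Agent.TSC.inner_crs, Pool.Agent.TSC.det3_self13,
          Pool.Agent.TSC.det3_self23]
        ring
      have h5 : (inner ℝ (L.nor fc) (D z) : ℝ) = 0 := by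
        have : ev (L.nor fc, (0 : ℝ)) (D z) = (inner ℝ (L.nor fc) (D z) : ℝ) - 0 := rfl
        rw [this] at h4; linarith
      rw [hDt, inner_sub_right, inner_smul_right, hzn0] at h5
      have ht0 : t = 0 := by
        have : t * (inner ℝ (L.nor fc) (β z) : ℝ) = 0 := by linarith
        rcases mul_eq_zero.1 this with h | h
        · exact h
        · exact absurd h hpos'.ne'
      refine ⟨0, ?_⟩
      rw [hDt, ht0]; simp
  obtain ⟨s, hs1⟩ := hdir
  have hyD : y = p v + r • D z := by rw [hy, hz]; rfl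
  have I1 := ident hvp hcv.near hu hA hs hnorf hE (D z)
  have I2 := ident hvp hcv.near hu hA' hs' hnorf' hE' (D z)
  rw [← hyD] at I1 I2
  have I3 : ∀ n, ev (B n) y = r * ev (bV (p v) r B n) (D z) := by
    intro n
    rw [hyD, ev_pt]
    have : ev (bV (p v) r B n) (D z) = (inner ℝ (B n).1 (D z) : ℝ) - -(ev (B n) (p v)) / r := rfl
    rw [this]
    field_simp
    ring
  obtain ⟨hA1, Z, hZ, hZ0⟩ := hArm
  rw [← hτ] at hA1
  have mi : aV L oL P (pr (some u)) ∈ L.lst Ch (aV L oL P) (bV (p v) r B) (pr (some u)) :=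
    Or.inl rfl
  have ms : aV L oL P (some u) ∈ L.lst Ch (aV L oL P) (bV (p v) r B) (pr (some u)) := by
    right; left; rw [g2]
  have mf : aV L oL P fc ∈ L.lst Ch (aV L oL P) (bV (p v) r B) (pr (some u)) := by
    rcases hA with ⟨_, h⟩ | ⟨_, h⟩ <;> rw [h] <;> assumption
  have mf' : aV L oL P fc' ∈ L.lst Ch (aV L oL P) (bV (p v) r B) (pr (some u)) := by
    rcases hA' with ⟨_, h⟩ | ⟨_, h⟩ <;> rw [h] <;> assumption
  have hτ0 : τ u ≠ 0 := by
    rw [hτ]
    intro h0
    exact ht (Real.sign_eq_zero_iff.1 h0)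
  have hsg0 : sg p op v u w ≠ 0 := by
    intro h0
    have : (lam * τ u) • L.nor fc = 0 := by
      rw [← hE]; unfold nE; rw [h0, zero_smul]
    rcases smul_eq_zero.1 this with h | h
    · rcases mul_eq_zero.1 h with h | h
      · exact hl.ne' h
      · exact hτ0 h
    · exact hnorf h
  have hsg0' : sg p op v u (op v u w) ≠ 0 := by
    intro h0
    have : (lam' * τ u) • L.nor fc' = 0 := by
      rw [← hE']; unfold nE; rw [h0, zero_smul]
    rcases smul_eq_zero.1 this with h | h
    · rcases mul_eq_zero.1 h with h | h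
      · exact hl'.ne' h
      · exact hτ0 h
    · exact hnorf' h
  refine ⟨r * s, ?_, ?_, ?_, ?_, ?_⟩
  · rw [hyD, hs1, ← hrz]
    module
  · rw [I1]
    have := hA1 _ mf
    have h2 : r * lam * τ u * ev (aV L oL P fc) (D z) =
        r * lam * (τ u * ev (aV L oL P fc) (D z)) := by ring
    rw [h2]
    positivity
  · rw [I2]
    have := hA1 _ mf'
    have h2 : r * lam' * τ u * ev (aV L oL P fc') (D z) =
        r * lam' * (τ u * ev (aV L oL P fc') (D z)) := by ring
    rw [h2]
    positivity
  · intro n hn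
    have := hA1 (bV (p v) r B n) (by right; right; exact ⟨n, by rw [g2]; exact hn, rfl⟩)
    rw [I3]
    have h2 : τ u * (r * ev (bV (p v) r B n) (D z)) = r * (τ u * ev (bV (p v) r B n) (D z)) := by
      ring
    rw [h2]
    positivity
  · have F : aV L oL P fc = Z → ev (P u w) y = 0 := by
      intro h
      rw [h, hZ0, mul_zero] at I1
      rcases mul_eq_zero.1 I1 with h | h
      · exact absurd h hsg0
      · exact h
    have F' : aV L oL P fc' = Z → ev (P u (op v u w)) y = 0 := by
      intro h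
      rw [h, hZ0, mul_zero] at I2
      rcases mul_eq_zero.1 I2 with h | h
      · exact absurd h hsg0'
      · exact h
    rcases hZ with h | h | ⟨n, hn, h⟩
    · rcases h1 with ⟨_, h2, _, _⟩ | ⟨_, _, _, h2⟩
      · left; exact F (by rw [h2]; exact h.symm)
      · right; left; exact F' (by rw [h2]; exact h.symm)
    · rw [g2] at h
      rcases h1 with ⟨_, _, _, h2⟩ | ⟨_, h2, _, _⟩
      · right; left; exact F' (by rw [h2]; exact h.symm)
      · left; exact F (by rw [h2]; exact h.symm)
    · right; right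
      refine ⟨n, by rw [g2] at hn; exact hn, ?_⟩
      rw [I3, ← h, hZ0, mul_zero]

end Pool.Agent.TSX
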