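import Pool.Agent.TSX.Stmts
import Pool.Agent.TSR.Base

/-!
# TSX: RFF, the face equation of the core map
-/

set_option autoImplicit false

namespace Pool.Agent.TSX

open Set Filter Topology Pool.Agent.TSM Pool.Agent.TSR

namespace RFF_

/-- no two-cycles in a polygon -/
theorem no2 {W : Type} [DecidableEq W] {L : Pg W} (h : L.Ok) {i j : W} (hi : i ∈ L.S)
    (h1 : L.s i = j) (h2 : L.s j = i) : False := by
  have h3 : ∀ m : ℕ, L.s^[m] i = i ∨ L.s^[m] i = j := by
    intro m
    induction m with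
    | zero => left; rfl
    | succ m ih =>
      rw [Function.iterate_succ_apply']
      rcases ih with e | e
      · right; rw [e, h1]
      · left; rw [e, h2]
  have h4 : L.S ⊆ {i, j} := by
    intro a ha
    obtain ⟨m, hm⟩ := h.trans i hi a ha
    rcases h3 m with e | e
    · rw [← hm, e]; simp
    · rw [← hm, e]; simp
  have h5 := Finset.card_le_card h4
  have h6 : ({i, j} : Finset W).card ≤ 2 := Finset.card_le_two
  have h7 := h.card
  omega

theorem sign_abs_cases {a : ℝ} (h : a ≠ 0) : Real.sign a = 1 ∨ Real.sign a = -1 := by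
  rcases lt_or_gt_of_ne h with h | h
  · right; exact Real.sign_of_neg h
  · left; exact Real.sign_of_pos h

theorem sign_three (a : ℝ) : Real.sign a = 1 ∨ Real.sign a = -1 ∨ Real.sign a = 0 := by
  rcases eq_or_ne a 0 with h | h
  · right; right; rw [h, Real.sign_zero]
  · rcases sign_abs_cases h with h | h
    · left; exact h
    · right; left; exact h

theorem sign_eq {s lam t : ℝ} (hs : s = 1 ∨ s = -1 ∨ s = 0) (ht : t = 1 ∨ t = -1)
    (hl : 0 < lam) (h : s = lam * t) : s = t := by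
  rcases hs with e | e | e <;> rcases ht with e' | e' <;> rw [e, e'] at h ⊢ <;> nlinarith

theorem cutf_scale {d c a r : ℝ} (hr : 0 < r) : cutf d (r⁻¹ * c) (r⁻¹ * a) = cutf d c a := by
  unfold cutf
  have e : (2 * d * (r⁻¹ * a) - r⁻¹ * c) / (d * (r⁻¹ * a)) = (2 * d * a - c) / (d * a) := by
    have e1 : 2 * d * (r⁻¹ * a) - r⁻¹ * c = r⁻¹ * (2 * d * a - c) := by ring
    have e2 : d * (r⁻¹ * a) = r⁻¹ * (d * a) := by ring
    rw [e1, e2, mul_div_mul_left _ _ (inv_ne_zero hr.ne')]
  rw [e]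

variable {V : Type} [Fintype V] [DecidableEq V] {K : Surf V} {p : V → E3} {Φ : Finset Aff}
  {op : V → V → V → V} {v : V}

theorem sg_swap (hop : IsOpp K op) {u w : V} (h : ({v, u, w} : Finset V) ∈ K.tri) :
    sg p op u v w = - sg p op v u w := by
  obtain ⟨-, -, h3, -, -⟩ := hop v u w h
  unfold sg
  rw [h3, Dl_swap, Real.sign_neg]

/-- the direction field near the vertex `v` -/
theorem bT_near {d : ℝ} (hd : 0 < d) (hd8 : d ≤ 1 / 8) {u w : V} (hvu : v ≠ u) (hvw : v ≠ w)
    (huw : u ≠ w) {x : V → ℝ} (hx : InT v u w x) (hv : 1 / 2 ≤ x v) :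
    bT p op d v u w x = n0 p v u w +
      cutf d (x w) (x u) • (sg p op v u w • eE p v u w (op v u w) - n0 p v u w) +
      cutf d (x u) (x w) • (sg p op w v u • eE p w v u (op w v u) - n0 p v u w) := by
  have hs := hx.sum hvu hvw huw
  have hu := hx.1 u
  have hw := hx.1 w
  have h1 : min (x v) (x u) = x u := min_eq_right (by linarith)
  have h2 : min (x w) (x v) = x w := min_eq_left (by linarith)
  have h3 : cutf d (x v) (min (x u) (x w)) = 0 := by
    apply cutf_zero hd.le (le_min hu hw)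
    have h4 : min (x u) (x w) ≤ x u := min_le_left _ _
    have h5 : 0 ≤ min (x u) (x w) := le_min hu hw
    nlinarith
  unfold bT
  rw [h1, h2, h3, zero_smul, add_zero]

theorem bT_near_anti {d : ℝ} (hd : 0 < d) (hd8 : d ≤ 1 / 8) (hop : IsOpp K op) {u w : V}
    (ht : ({v, u, w} : Finset V) ∈ K.tri) {x : V → ℝ} (hx : InT v u w x) (hv : 1 / 2 ≤ x v) :
    bT p op d v w u x = - bT p op d v u w x := by
  obtain ⟨hvu, hvw, huw⟩ := tri_ne ht
  rw [bT_near hd hd8 hvw hvu huw.symm hx.anti hv, bT_near hd hd8 hvu hvw huw hx hv]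
  obtain ⟨-, -, h3, -, -⟩ := hop v u w ht
  obtain ⟨-, -, h4, -, -⟩ := hop v w u (tri_anti ht)
  rw [sg_swap hop ht, sg_swap hop (tri_anti ht), h3, h4, eE_swap p v u, eE_swap p v w, n0_anti]
  module

variable {L : Pg (Option V)} {pr : Option V → Option V} {k : ℝ} {τ : V → ℝ}
  {e : Option V → E3} {d₁ : ℝ}

theorem nor_eq (hV : VP K p Φ op v L pr k) {u w : V} (h : Nf K p Φ v u w)
    (hs : L.s (some u) = some w) : L.nor (some u) = n0 p v u w := by
  unfold Pg.nor n0
  rw [hs, hV.psome u (hV.flag u w h.flag), hV.psome w (hV.flag w u h.anti.flag)]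

theorem n0_ne (hV : VP K p Φ op v L pr k) (hA : Arms K p Φ op v L pr τ e d₁) {u w : V}
    (h : Nf K p Φ v u w) (hs : L.s (some u) = some w) : n0 p v u w ≠ 0 := by
  have h1 := (hA.pos (some u) (hV.flag u w h.flag)).1
  rw [nor_eq hV h hs] at h1
  intro h0
  rw [h0, inner_zero_left] at h1
  exact lt_irrefl _ h1

theorem side_eq {u w : V} (h : Nf K p Φ v u w) {j : Option V} (hj : Side K p Φ L v u w j) :
    j = some w := by
  rcases hj with h1 | ⟨-, h2, -⟩
  · exact h1.1
  · exact absurd h2.2 h.2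

theorem sg_u (hV : VP K p Φ op v L pr k) (hA : Arms K p Φ op v L pr τ e d₁) {u w : V}
    (h : Nf K p Φ v u w) (hs : L.s (some u) = some w) : sg p op v u w = τ u := by
  obtain ⟨nb, fc, nb', fc', lam, lam', h1, h2, -, h4, -, h6, -, -⟩ := hA.armd u w h.flag
  have hnb := side_eq h h2
  have hu := hV.flag u w h.flag
  have hn := n0_ne hV hA h hs
  have hτ := hA.tau u hu
  rcases h1 with ⟨e1, -, -, -⟩ | ⟨-, e2, -, -⟩
  · exfalso
    have h8 := (hV.ispr (some u) hu).2.1
    rw [← e1, hnb] at h8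
    exact no2 hV.ok hu hs h8
  · rw [e2, nor_eq hV h hs] at h6
    unfold nE at h6
    have h7 : sg p op v u w = lam * τ u := smul_left_injective ℝ hn h6
    refine sign_eq ?_ ?_ h4 h7
    · exact sign_three _
    · rw [hτ.2]; exact sign_abs_cases hτ.1

theorem sg_w (hV : VP K p Φ op v L pr k) (hA : Arms K p Φ op v L pr τ e d₁) {u w : V}
    (h : Nf K p Φ v u w) (hs : L.s (some u) = some w) : sg p op v w u = -τ w := by
  obtain ⟨nb, fc, nb', fc', lam, lam', h1, h2, -, h4, -, h6, -, -⟩ := hA.armd w u h.anti.flag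
  have hnb := side_eq h.anti h2
  have hu := hV.flag u w h.flag
  have hw := hV.flag w u h.anti.flag
  have hn := n0_ne hV hA h hs
  have hτ := hA.tau w hw
  rcases h1 with ⟨-, e2, -, -⟩ | ⟨e1, -, -, -⟩
  · have h8 := (hV.ispr (some u) hu).2.2
    rw [hs] at h8
    rw [e2, h8, nor_eq hV h hs] at h6
    unfold nE at h6
    rw [n0_anti] at h6
    have h6' : (- sg p op v w u) • n0 p v u w = (lam * τ w) • n0 p v u w := by
      rw [← h6]; module
    have h7 : - sg p op v w u = lam * τ w := smul_left_injective ℝ hn h6'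
    have h9 : - sg p op v w u = τ w := by
      refine sign_eq ?_ ?_ h4 h7
      · unfold sg
        rw [← Real.sign_neg]
        exact sign_three _
      · rw [hτ.2]; exact sign_abs_cases hτ.1
    linarith
  · exfalso
    rw [hnb] at e1
    exact no2 hV.ok hu hs e1.symm

variable {d ε : ℝ} {β : E3 → E3} {κ : Type}
  {Ch : Option V → Finset κ} {N : κ → E3} {oL : Option V → ℝ} {oN : κ → ℝ} {η r R M : ℝ}
  {P : V → V → Aff} {B : κ → Aff} {D : E3 → E3}

theorem main (hC : CV K p Φ op v L pr k τ e d₁ d ε β Ch N oL oN η r R M P B D) {u w : V}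
    (h : Nf K p Φ v u w) (hs : L.s (some u) = some w) {x : V → ℝ} (hx : InT v u w x)
    (hv : 1 / 2 ≤ x v) (hR : R * r ≤ ‖lin p x - p v‖) (h1 : d / 2 * x u ≤ x w)
    (h2 : d / 2 * x w ≤ x u) :
    (∃ s : ℝ, gV (p v) r D (lin p x) = lin p x - s • bT p op d v u w x) ∧
      ev (P u w) (gV (p v) r D (lin p x)) = 0 := by
  obtain ⟨hvu, hvw, huw⟩ := tri_ne h.1
  have hV := hC.vp
  have hA := hC.arms
  have hr := hC.rpos
  have hRp := hC.Rpos
  have hd := hC.dpos
  have he := hC.eps
  have hed := hC.epsd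
  have hu := hV.flag u w h.flag
  have hw := hV.flag w u h.anti.flag
  have hxu := hx.1 u
  have hxw := hx.1 w
  have hri : 0 < r⁻¹ := inv_pos.2 hr
  set z : E3 := r⁻¹ • (lin p x - p v) with hz
  have hzn : R ≤ ‖z‖ := by
    rw [hz, norm_smul, Real.norm_eq_abs, abs_of_pos hri]
    calc R = r⁻¹ * (R * r) := by field_simp
      _ ≤ r⁻¹ * ‖lin p x - p v‖ := mul_le_mul_of_nonneg_left hR hri.le
  have hz0 : z ≠ 0 := by
    intro h0
    rw [h0, norm_zero] at hzn
    linarith
  have hp1 : L.p (some u) = p u - p v := hV.psome u hu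
  have hp2 : L.p (L.s (some u)) = p w - p v := by rw [hs]; exact hV.psome w hw
  have hzz : z = (r⁻¹ * x u) • L.p (some u) + (r⁻¹ * x w) • L.p (L.s (some u)) := by
    rw [hz, hx.lin hvu hvw huw, hp1, hp2]
    module
  have ha0 : 0 ≤ r⁻¹ * x u := by positivity
  have hc0 : 0 ≤ r⁻¹ * x w := by positivity
  have hcone : z ∈ L.cone := ⟨some u, hu, _, _, ha0, hc0, hzz⟩
  have hface : z ∈ L.faceZone ε (some u) := by
    refine ⟨_, _, ha0, hc0, ?_, ?_, hzz⟩
    · have e1 : ε * (r⁻¹ * x w) = r⁻¹ * (ε * x w) := by ring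
      rw [e1]
      apply mul_le_mul_of_nonneg_left _ hri.le
      nlinarith
    · have e1 : ε * (r⁻¹ * x u) = r⁻¹ * (ε * x u) := by ring
      rw [e1]
      apply mul_le_mul_of_nonneg_left _ hri.le
      nlinarith
  obtain ⟨⟨t, ht⟩, hZ, -⟩ := hC.far z hcone hzn
  have hb : β z = bT p op d v u w x := by
    have hb1 := hC.beta (some u) hu _ _ ha0 hc0 (by rw [← hzz]; exact hz0)
    rw [← hzz] at hb1
    rw [hb1]
    unfold bF
    rw [cutf_scale hr, cutf_scale hr, hs, hA.dir u w h.flag, hA.dir w u h.anti.flag,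
      nor_eq hV h hs, bT_near hd hC.d8 hvu hvw huw hx hv, sg_u hV hA h hs]
    obtain ⟨-, -, h4, -, -⟩ := hC.opp v w u (tri_anti h.1)
    have h5 : sg p op w v u = τ w := by
      rw [sg_swap hC.opp (tri_anti h.1), sg_w hV hA h hs, neg_neg]
    rw [h5, h4, eE_swap p v w]
  have hev := hZ.2 (some u) hu hface
  have haV : aV L oL P (some u) = ((P u w).1, oL (some u)) := by
    unfold aV
    rw [hs]
  rw [haV] at hev
  have hoV : oV L oL u w = oL (some u) := by
    unfold oV
    rw [if_pos ⟨hu, hs⟩]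
  refine ⟨⟨r * t, ?_⟩, ?_⟩
  · unfold gV
    rw [← hz, ht, hb, smul_sub, hz, smul_smul, smul_smul, mul_inv_cancel₀ hr.ne', one_smul]
    abel
  · have h6 := (hC.near.nf u w h).2
    rw [hoV] at h6
    unfold gV
    rw [← hz, TSR.ev_add, h6, inner_smul_right]
    unfold ev at hev
    simp only at hev
    have h7 : (inner ℝ (P u w).1 (D z) : ℝ) = oL (some u) := by linarith
    rw [h7]
    ring

end RFF_

open RFF_ in
/-- RFF: the face equation of the core map. -/
theorem rff_proof : Stmt_RFF := by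
  intro V _ _ K p Φ op v L pr k τ e d₁ d ε β κ Ch N oL oN η r R M P B D hC u w h x hx hv hR h1 h2
  rcases hC.vp.nf u w h with hs | hs
  · exact main hC h hs hx hv hR h1 h2
  · obtain ⟨⟨s, h3⟩, h4⟩ := main hC h.anti hs hx.anti hv hR h2 h1
    refine ⟨⟨-s, ?_⟩, ?_⟩
    · rw [h3, bT_near_anti hC.dpos hC.d8 hC.opp h.1 hx hv]
      module
    · have h5 : P u w = - P w u := hC.near.anti w u
      rw [h5, ev_neg, h4, neg_zero]

end Pool.Agent.TSX
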