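import Pool.Agent.TSX.Stmts

/-!
# TSX: RFT, the core map on facet triangles
-/

set_option autoImplicit false

namespace Pool.Agent.TSX

open Set Filter Topology Pool.Agent.TSM Pool.Agent.TSR

namespace RFT_

theorem inn1 (a b : E3) : (inner ℝ (crs a b) a : ℝ) = 0 := by
  rw [Pool.Agent.TSC.inner_crs, Pool.Agent.TSC.det3_self13]

theorem inn2 (a b : E3) : (inner ℝ (crs a b) b : ℝ) = 0 := by
  rw [Pool.Agent.TSC.inner_crs, Pool.Agent.TSC.det3_self23]

theorem s_ne {W : Type} [DecidableEq W] {L : Pg W} (h : L.Ok) {i : W} (hi : i ∈ L.S) :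
    L.s i ≠ i := by
  intro hs
  have h1 : ∀ m : ℕ, L.s^[m] i = i := by
    intro m
    induction m with
    | zero => rfl
    | succ m ih => rw [Function.iterate_succ_apply', ih, hs]
  have h2 : L.S ⊆ {i} := by
    intro j hj
    obtain ⟨m, hm⟩ := h.trans i hi j hj
    rw [h1 m] at hm
    rw [← hm]
    exact Finset.mem_singleton_self i
  have h3 := Finset.card_le_card h2
  have h4 := h.card
  rw [Finset.card_singleton] at h3
  omega

theorem pair_of_triple {V : Type} [DecidableEq V] {v u w u' w' : V}
    (h : ({v, u, w} : Finset V) = {v, u', w'}) (h1' : v ≠ u') (h2' : v ≠ w') (h3' : u' ≠ w') : (u' = u ∧ w' = w) ∨ (u' = w ∧ w' = u) := by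
  have a1 : u' ∈ ({v, u, w} : Finset V) := by rw [h]; simp
  have a2 : w' ∈ ({v, u, w} : Finset V) := by rw [h]; simp
  simp only [Finset.mem_insert, Finset.mem_singleton] at a1 a2
  rcases a1 with a1 | a1 | a1
  · exact absurd a1.symm h1'
  · rcases a2 with a2 | a2 | a2
    · exact absurd a2.symm h2'
    · exact absurd (a1.trans a2.symm) h3'
    · exact Or.inl ⟨a1, a2⟩
  · rcases a2 with a2 | a2 | a2
    · exact absurd a2.symm h2'
    · exact Or.inr ⟨a1, a2⟩
    · exact absurd (a1.trans a2.symm) h3'

theorem tri_ne {V : Type} [Fintype V] [DecidableEq V] {K : Surf V} {v u w : V}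
    (h : ({v, u, w} : Finset V) ∈ K.tri) : v ≠ u ∧ v ≠ w ∧ u ≠ w := by
  have h3 := K.card3 _ h
  refine ⟨?_, ?_, ?_⟩
  · rintro rfl
    have : ({v, v, w} : Finset V).card ≤ 2 := by
      rw [Finset.insert_eq_of_mem (by simp)]
      exact Finset.card_le_two
    omega
  · rintro rfl
    have : ({v, u, v} : Finset V).card ≤ 2 := by
      rw [Finset.insert_eq_of_mem (by simp)]
      exact Finset.card_le_two
    omega
  · rintro rfl
    have : ({v, u, u} : Finset V).card ≤ 2 := by
      have : ({v, u, u} : Finset V) = {v, u} := by simp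
      rw [this]
      exact Finset.card_le_two
    omega

end RFT_

open RFT_ in
theorem rft_proof : Stmt_RFT := by
  intro V _ _ K p Φ op v L pr k τ e d₁ d ε β κ Ch N oL oN η r R M P B D hC u w hFt x hx hxv hR
    hyp1 hyp2
  have hFt' := hFt
  obtain ⟨htri, φ₀, hφ₀, hφv, -, -⟩ := hFt'
  have hr := hC.rpos
  have hX : L.X = some none := by
    rcases hXX : L.X with _ | m
    · have := (hC.vp.inn hXX).2 φ₀ hφ₀
      linarith
    · rw [(hC.vp.cor m hXX).1]
  obtain ⟨-, φ, hφ, hφ0, hother, hφn, hφS, hface, hcor⟩ := hC.vp.cor none hX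
  have hok := hC.vp.ok
  -- the corner
  obtain ⟨m, hm, hcAt⟩ : ∃ m, L.X = some m ∧ L.CornerAt m := by
    rcases hok.kind with h | h
    · rw [hX] at h; exact absurd h.1 (by simp)
    · exact h
  have hm0 : m = none := by rw [hX] at hm; exact (Option.some_injective _ hm).symm
  subst hm0
  obtain ⟨hnS, q, hqS, hsq, ⟨α₁, α₂, hα₁, hα₂, hrel⟩, -⟩ := hcAt
  have hprq : pr none = q := by
    have h1 := hC.vp.ispr q hqS
    rw [hsq] at h1
    exact h1.2.2
  have hsn : L.s none ≠ none := s_ne hok hnS
  have hq0 : q ≠ none := by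
    rintro rfl
    exact hsn hsq
  -- z
  obtain ⟨z, hz⟩ : ∃ z, z = r⁻¹ • (lin p x - p v) := ⟨_, rfl⟩
  have hrz : r • z = lin p x - p v := by
    rw [hz, smul_smul, mul_inv_cancel₀ hr.ne', one_smul]
  have hnz : R ≤ ‖z‖ := by
    rw [hz, norm_smul, norm_inv, Real.norm_eq_abs, abs_of_pos hr]
    rw [le_inv_mul_iff₀ hr]
    linarith
  have hz0 : z ≠ 0 := by
    rintro rfl
    rw [norm_zero] at hnz
    exact absurd hC.Rpos (not_lt.2 hnz)
  suffices h : D z = z by
    unfold gV
    rw [← hz, h, hrz]
    abel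
  -- z in the flat faces
  have hzf : z ∈ L.face none ∨ z ∈ L.face q := by
    have h1 := hface u w hFt x hx
    rw [hprq, ← hrz] at h1
    rcases h1 with ⟨a, b, ha, hb, h2⟩ | ⟨a, b, ha, hb, h2⟩
    · left
      refine ⟨r⁻¹ * a, r⁻¹ * b, by positivity, by positivity, ?_⟩
      rw [mul_smul, mul_smul, ← smul_add, ← h2, smul_smul, inv_mul_cancel₀ hr.ne', one_smul]
    · right
      refine ⟨r⁻¹ * a, r⁻¹ * b, by positivity, by positivity, ?_⟩
      rw [mul_smul, mul_smul, ← smul_add, ← h2, smul_smul, inv_mul_cancel₀ hr.ne', one_smul]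
  have hzc : z ∈ L.cone := by
    rcases hzf with h | h
    · exact ⟨none, hnS, h⟩
    · exact ⟨q, hqS, h⟩
  obtain ⟨⟨t, ht⟩, ⟨⟨hZa, hZf⟩, -⟩⟩ := hC.far z hzc hnz
  -- normals of the flat faces
  have hnorq : L.nor q = (α₂ / α₁) • L.nor none := by
    have h1 : L.p none = -(α₁ • L.p q + α₂ • L.p (L.s none)) := by
      rw [eq_neg_iff_add_eq_zero, add_comm]
      exact hrel
    have h2 : L.nor q = (-α₂) • crs (L.p q) (L.p (L.s none)) := by
      unfold Pg.nor
      rw [hsq]
      conv_lhs => rw [h1]
      rw [← neg_one_smul ℝ (α₁ • L.p q + α₂ • L.p (L.s none)), Pool.Agent.TSC.crs_smul_right,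
        Pool.Agent.TSC.crs_add_right, Pool.Agent.TSC.crs_smul_right,
        Pool.Agent.TSC.crs_smul_right, Pool.Agent.TSC.crs_self, smul_zero, zero_add, smul_smul]
      congr 1
      ring
    have h3 : L.nor none = (-α₁) • crs (L.p q) (L.p (L.s none)) := by
      unfold Pg.nor
      conv_lhs => rw [h1]
      rw [← neg_one_smul ℝ (α₁ • L.p q + α₂ • L.p (L.s none)), Pool.Agent.TSC.crs_smul_left,
        Pool.Agent.TSC.crs_add_left, Pool.Agent.TSC.crs_smul_left,
        Pool.Agent.TSC.crs_smul_left, Pool.Agent.TSC.crs_self, smul_zero, add_zero, smul_smul]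
      congr 1
      ring
    rw [h2, h3, smul_smul]
    congr 1
    field_simp
  have hα : 0 < α₂ / α₁ := div_pos hα₂ hα₁
  have hnq : ∀ y : E3, (inner ℝ (L.nor q) y : ℝ) = (α₂ / α₁) * (inner ℝ (L.nor none) y : ℝ) := by
    intro y
    rw [hnorq, real_inner_smul_left]
  have hAn : aV L oL P none = (L.nor none, 0) := by
    unfold aV
    rfl
  have hAq : aV L oL P q = (L.nor q, 0) := by
    unfold aV
    split
    · next h2 =>
      rw [hsq] at h2
      exact absurd h2 (by simp)
    · rfl
  have hzn : (inner ℝ (L.nor none) z : ℝ) = 0 := by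
    rcases hzf with ⟨a, b, -, -, h⟩ | ⟨a, b, -, -, h⟩
    · rw [h, inner_add_right, inner_smul_right, inner_smul_right]
      unfold Pg.nor
      rw [inn1, inn2]; ring
    · have h2 : (inner ℝ (L.nor q) z : ℝ) = 0 := by
        rw [h, inner_add_right, inner_smul_right, inner_smul_right]
        unfold Pg.nor
        rw [inn1, inn2]; ring
      rw [hnq] at h2
      exact (mul_eq_zero.1 h2).resolve_left hα.ne'
  have hzb : 0 < (inner ℝ (L.nor none) (β z) : ℝ) := by
    obtain ⟨Λ, c, hc, -, -, hT⟩ := hC.adm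
    rcases hzf with h | h
    · exact hc.trans_le (hT none hnS z h hz0)
    · have h2 := hc.trans_le (hT q hqS z h hz0)
      rw [hnq] at h2
      exact (mul_pos_iff_of_pos_left hα).1 h2
  have key : (inner ℝ (L.nor none) (D z) : ℝ) = 0 → D z = z := by
    intro h
    rw [ht, inner_sub_right, inner_smul_right, hzn, zero_sub, neg_eq_zero] at h
    have ht0 : t = 0 := (mul_eq_zero.1 h).resolve_right hzb.ne'
    rw [ht, ht0, zero_smul, sub_zero]
  have keyq : (inner ℝ (L.nor q) (D z) : ℝ) = 0 → D z = z := by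
    intro h
    apply key
    rw [hnq] at h
    exact (mul_eq_zero.1 h).resolve_left hα.ne'
  -- near the flat arm
  have karm : z ∈ L.armZone ε q → D z = z := by
    intro h
    obtain ⟨-, Z, hZ, hZ0⟩ := hZa q hqS h
    rcases hZ with rfl | rfl | ⟨n, hn, rfl⟩
    · rw [hAq] at hZ0
      unfold ev at hZ0
      rw [sub_zero] at hZ0
      exact keyq hZ0
    · rw [hsq, hAn] at hZ0
      unfold ev at hZ0
      rw [sub_zero] at hZ0
      exact key hZ0
    · rw [hsq, hC.chn hX] at hn
      exact absurd hn (Finset.notMem_empty _)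
  -- near the other arms of the flat faces
  have kill : ∀ u' : V, some u' ∈ L.S → (L.s (some u') = none ∨ L.s none = some u') →
      ∀ a c : ℝ, 0 ≤ a → 0 < c → a < ε * c → z = a • L.p none + c • L.p (some u') → False := by
    intro u' hu' hside a c ha hc hac hzz
    have hd := hC.dpos
    have hk := hC.vp.kpos
    have he := hC.eps
    have hkd : ε < k * d / 4 := by linarith [hC.epsk]
    have hd8 := hC.d8
    have hkk : ε ≤ k := by nlinarith
    obtain ⟨w', hw', hkw⟩ := hcor u' hu' hside u w hFt x hx (r * a) (r * c) (by positivity)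
      (by positivity) (by nlinarith [mul_pos hr hc]) (by
        rw [← hrz, hzz, smul_add, smul_smul, smul_smul])
    have htri' : ({v, u', w'} : Finset V) ∈ K.tri := hw' ▸ htri
    have n2 := tri_ne htri'
    -- the edge `v u'` is active
    have hfl : Flag K p Φ op v u' w' := by
      obtain ⟨w₀, hw₀, -⟩ := hC.vp.arm u' hu'
      obtain ⟨-, -, -, hopp, hall⟩ := hC.opp v u' w₀ hw₀.1
      rcases hall w' htri' with h | h
      · rw [h]; exact hw₀
      · refine ⟨htri', ?_⟩
        rintro ⟨f1, f2⟩
        rw [h] at f1 f2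
        rw [hopp] at f2
        exact hw₀.2 ⟨f2, f1⟩
    have hx' : d / 2 * x u' ≤ x w' := by
      rcases pair_of_triple hw' n2.1 n2.2.1 n2.2.2 with ⟨h1, h2⟩ | ⟨h1, h2⟩
      · rw [h1, h2] at hfl ⊢
        exact hyp1 hfl
      · rw [h1, h2] at hfl ⊢
        exact hyp2 hfl
    have hxu' : 0 ≤ x u' := hx.1 u'
    have hxw' : 0 ≤ x w' := hx.1 w'
    have e1 : k * x w' * c ≤ a * x u' := by
      have e2 : r * (k * x w' * c) ≤ r * (a * x u') := by nlinarith
      exact le_of_mul_le_mul_left e2 hr
    have e3 : k * x w' ≤ ε * x u' := by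
      have e4 : (k * x w') * c ≤ (ε * x u') * c := by
        have : a * x u' ≤ ε * c * x u' := mul_le_mul_of_nonneg_right hac.le hxu'
        linarith
      exact le_of_mul_le_mul_right e4 hc
    have e5 : k * (d / 2 * x u') ≤ k * x w' := mul_le_mul_of_nonneg_left hx' hk.le
    have e6 : x u' = 0 := by
      have e7 : (k * d / 2 - ε) * x u' ≤ 0 := by nlinarith
      have e8 : 0 < k * d / 2 - ε := by nlinarith [mul_pos hk hd]
      by_contra hne
      have : 0 < x u' := lt_of_le_of_ne hxu' (Ne.symm hne)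
      nlinarith [mul_pos e8 this]
    have e9 : x w' = 0 := by
      rw [e6, mul_zero] at e3
      have : x w' ≤ 0 := by
        by_contra hne
        have := mul_pos hk (not_le.1 hne)
        linarith
      linarith
    have hsupp : ∀ y, y ≠ v → x y = 0 := by
      intro y hy
      by_cases h : y ∈ ({v, u, w} : Finset V)
      · rw [hw'] at h
        simp only [Finset.mem_insert, Finset.mem_singleton] at h
        rcases h with h | h | h
        · exact absurd h hy
        · rw [h, e6]
        · rw [h, e9]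
      · exact hx.2.2 y h
    have hxv1 : x v = 1 := by
      have := hx.2.1
      rwa [Finset.sum_eq_single v (fun y _ hy => hsupp y hy)
        (fun h => absurd (Finset.mem_univ v) h)] at this
    apply hz0
    rw [hz]
    have : lin p x = p v := by
      unfold lin
      rw [Finset.sum_eq_single v (fun y _ hy => by rw [hsupp y hy, zero_smul])
        (fun h => absurd (Finset.mem_univ v) h), hxv1, one_smul]
    rw [this, sub_self, smul_zero]
  -- cases
  have he := hC.eps
  rcases hzf with ⟨a, c, ha, hc, hzz⟩ | ⟨c, a, hc, ha, hzz⟩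
  · -- face none: `a` at none, `c` at `s none`
    by_cases h1 : ε * c ≤ a
    · by_cases h2 : ε * a ≤ c
      · have h3 := hZf none hnS ⟨a, c, ha, hc, h1, h2, hzz⟩
        rw [hAn] at h3
        unfold ev at h3
        rw [sub_zero] at h3
        exact key h3
      · apply karm
        refine ⟨c, a, hc, ha, ?_, Or.inr ?_⟩
        · have := not_le.1 h2
          have : 0 ≤ ε * a := by positivity
          linarith
        · rw [hsq, hzz, add_comm]
    · exfalso
      have hac := not_le.1 h1
      have hc0 : 0 < c := by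
        rcases hc.lt_or_eq with h | h
        · exact h
        · rw [← h, mul_zero] at hac
          exact absurd hac (not_lt.2 ha)
      obtain ⟨u', hu'⟩ := Option.ne_none_iff_exists'.1 hsn
      refine kill u' ?_ (Or.inr hu') a c ha hc0 hac ?_
      · rw [← hu']; exact hok.maps none hnS
      · rw [hzz, hu']
  · -- face q: `c` at `q`, `a` at `none`
    rw [hsq] at hzz
    by_cases h1 : ε * c ≤ a
    · by_cases h2 : ε * a ≤ c
      · have h3 := hZf q hqS ⟨c, a, hc, ha, h2, h1, by rw [hsq, hzz]⟩
        rw [hAq] at h3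
        unfold ev at h3
        rw [sub_zero] at h3
        exact keyq h3
      · apply karm
        refine ⟨c, a, hc, ha, ?_, Or.inl ?_⟩
        · have := not_le.1 h2
          have : 0 ≤ ε * a := by positivity
          linarith
        · rw [hsq, hzz]
    · exfalso
      have hac := not_le.1 h1
      have hc0 : 0 < c := by
        rcases hc.lt_or_eq with h | h
        · exact h
        · rw [← h, mul_zero] at hac
          exact absurd hac (not_lt.2 ha)
      obtain ⟨u', hu'⟩ := Option.ne_none_iff_exists'.1 hq0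
      refine kill u' ?_ (Or.inl ?_) a c ha hc0 hac ?_
      · rw [← hu']; exact hqS
      · rw [← hu']; exact hsq
      · rw [hzz, hu', add_comm]

end Pool.Agent.TSX
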