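import Pool.Agent.TSR.VStmt
import Pool.Agent.TSM.VStmts3

/-!
# TSX: R-VERTEX (Part R of MP_89ee87_gt): polygons of the vertices and the core maps

Goal: `Stmt_VM2 → Stmt_Ext → Stmt_VTX` (Pool.Agent.TSR.Stmt_VTX).
-/

set_option autoImplicit false

namespace Pool.Agent.TSX

open Set Filter Topology Pool.Agent.TSM Pool.Agent.TSR

/-! ### link cycles -/

/-- next vertex in the link cycle -/
noncomputable def nx {V : Type} {n : ℕ} (c : ZMod n → V) (x : V) : V := c (Function.invFun c x + 1)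

/-- previous vertex in the link cycle -/
noncomputable def pv {V : Type} {n : ℕ} (c : ZMod n → V) (x : V) : V := c (Function.invFun c x - 1)

variable {V : Type} [Fintype V] [DecidableEq V]

open Classical in
/-- polygon of an inner vertex -/
noncomputable def polI {n : ℕ} (c : ZMod n → V) (p : V → E3) (v : V) : Pg (Option V) where
  S := (Finset.univ.filter fun x : V => ∃ i : ZMod n, x = c i).image some
  s := fun j => j.map (nx c)
  p := fun j => match j with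
    | none => 0
    | some x => p x - p v
  X := none

open Classical in
/-- polygon of a corner vertex; `c 0, …, c m` is the flat fan -/
noncomputable def polC {n : ℕ} (c : ZMod n → V) (m : ℕ) (p : V → E3) (v : V) (al be : ℝ) :
    Pg (Option V) where
  S := insert none ((Finset.univ.filter fun x : V => ∃ i : ℕ, m ≤ i ∧ i ≤ n ∧ x = c i).image some)
  s := fun j => match j with
    | none => some (c m)
    | some x => if x = c 0 then none else some (nx c x)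
  p := fun j => match j with
    | none => -(al • (p (c 0) - p v) + be • (p (c m) - p v))
    | some x => p x - p v
  X := some none

/-- data of a corner vertex -/
structure CD (K : Surf V) (p : V → E3) (Φ : Finset Aff) (v : V) (φ : Aff) {n : ℕ}
    (c : ZMod n → V) (m : ℕ) : Prop where
  mem : φ ∈ Φ
  zero : ev φ (p v) = 0
  other : ∀ ψ ∈ Φ, ψ ≠ φ → ev ψ (p v) < 0
  link : IsLinkCycle K.tri v n c
  m2 : 2 ≤ m
  mn : m + 2 ≤ n
  flat : ∀ i : ℕ, i ≤ m → ev φ (p (c i)) = 0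
  below : ∀ i : ℕ, m < i → i < n → ev φ (p (c i)) < 0
  ind : ∀ a b : ℝ, a • (p (c 0) - p v) + b • (p (c m) - p v) = 0 → a = 0 ∧ b = 0
  sec : ∃ (a b s t : ℝ) (i : ℕ), 0 < a ∧ 0 < b ∧ 0 ≤ s ∧ 0 ≤ t ∧ i < m ∧
    -(a • (p (c 0) - p v) + b • (p (c m) - p v)) =
      s • (p (c i) - p v) + t • (p (c (i + 1 : ℕ)) - p v)

/-! ### polygons of vertices -/

/-- `L` is the polygon of the vertex `v` (with predecessor function `pr`) -/
structure VP (K : Surf V) (p : V → E3) (Φ : Finset Aff) (op : V → V → V → V) (v : V)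
    (L : Pg (Option V)) (pr : Option V → Option V) (k : ℝ) : Prop where
  ok : L.Ok
  ispr : Pool.Agent.TSC.IsPr L pr
  kpos : 0 < k
  psome : ∀ u, some u ∈ L.S → L.p (some u) = p u - p v
  flag : ∀ u w, Flag K p Φ op v u w → some u ∈ L.S
  arm : ∀ u, some u ∈ L.S → ∃ w, Flag K p Φ op v u w ∧ Side K p Φ L v u w (pr (some u)) ∧
    Side K p Φ L v u (op v u w) (L.s (some u))
  nf : ∀ u w, Nf K p Φ v u w → L.s (some u) = some w ∨ L.s (some w) = some u
  star : ∀ x ∈ K.star v, lin p x - p v ∈ L.cone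
  inn : L.X = none → none ∉ L.S ∧ ∀ φ ∈ Φ, ev φ (p v) < 0
  cor : ∀ m, L.X = some m → m = none ∧ ∃ φ ∈ Φ, ev φ (p v) = 0 ∧
    (∀ ψ ∈ Φ, ψ ≠ φ → ev ψ (p v) < 0) ∧ (inner ℝ φ.1 (L.p none) : ℝ) = 0 ∧
    (∀ i ∈ L.S, (inner ℝ φ.1 (L.p i) : ℝ) ≤ 0) ∧
    (∀ u w, Ft K p Φ v u w → ∀ x, InT v u w x →
      lin p x - p v ∈ L.face none ∪ L.face (pr none)) ∧
    ∀ u, some u ∈ L.S → (L.s (some u) = none ∨ L.s none = some u) →
      ∀ a b, Ft K p Φ v a b → ∀ x, InT v a b x → ∀ c c' : ℝ, 0 ≤ c → 0 < c' → c ≤ k * c' →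
      lin p x - p v = c • L.p none + c' • L.p (some u) →
      ∃ w, ({v, a, b} : Finset V) = {v, u, w} ∧ k * (x w * c') ≤ c * x u

/-- LNK: triangles at `v` and the opposite vertices in terms of the link cycle. -/
def Stmt_LNK : Prop :=
  ∀ (V : Type) [Fintype V] [DecidableEq V] (K : Surf V) (op : V → V → V → V) (v : V) (n : ℕ)
    (c : ZMod n → V), IsOpp K op → IsLinkCycle K.tri v n c →
    (∀ a b, ({v, a, b} : Finset V) ∈ K.tri ↔ a ≠ b ∧ ∃ i : ZMod n, (a = c i ∧ b = c (i + 1)) ∨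
      (a = c (i + 1) ∧ b = c i)) ∧
    (∀ i : ZMod n, op v (c i) (c (i + 1)) = c (i - 1) ∧ op v (c i) (c (i - 1)) = c (i + 1)) ∧
    (∀ i : ZMod n, nx c (c i) = c (i + 1) ∧ pv c (c i) = c (i - 1))

/-- TYP (uses LNK): types of the triangles at a corner vertex. -/
def Stmt_TYP : Prop :=
  ∀ (V : Type) [Fintype V] [DecidableEq V] (K : Surf V) (p : V → E3) (Φ : Finset Aff)
    (op : V → V → V → V) (v : V) (φ : Aff) (n : ℕ) (c : ZMod n → V) (m : ℕ),
    K.Framed p Φ → IsOpp K op → CD K p Φ v φ c m →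
    (∀ a b, Ft K p Φ v a b ↔ ∃ i : ℕ, i < m ∧ ((a = c i ∧ b = c (i + 1 : ℕ)) ∨
      (a = c (i + 1 : ℕ) ∧ b = c i))) ∧
    (∀ a b, Nf K p Φ v a b ↔ ∃ i : ℕ, m ≤ i ∧ i < n ∧ ((a = c i ∧ b = c (i + 1 : ℕ)) ∨
      (a = c (i + 1 : ℕ) ∧ b = c i))) ∧
    (∀ i : ℕ, m ≤ i → i ≤ n → ¬ K.Outer p Φ (c i)) ∧
    (∀ a b, Flag K p Φ op v a b → ∃ i : ℕ, m ≤ i ∧ i ≤ n ∧ a = c i) ∧
    (∀ i : ℕ, m ≤ i → i < n → Flag K p Φ op v (c i) (c (i + 1 : ℕ))) ∧
    Flag K p Φ op v (c m) (c (m - 1 : ℕ)) ∧ Flag K p Φ op v (c 0) (c 1) ∧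
    Flag K p Φ op v (c 0) (c (n - 1 : ℕ))

/-- FAN: plane geometry of a flat fan `q 0, …, q m` of angle larger than `π`. -/
def Stmt_FAN : Prop :=
  ∀ (q : ℕ → E3) (m : ℕ) (ν : E3), 2 ≤ m → ν ≠ 0 → (∀ i, i ≤ m → (inner ℝ ν (q i) : ℝ) = 0) →
    (∀ a b : ℝ, a • q 0 + b • q m = 0 → a = 0 ∧ b = 0) →
    (∀ i j : ℕ, i < m → j < m → ∀ a b a' b' : ℝ, 0 ≤ a → 0 ≤ b → 0 ≤ a' → 0 ≤ b' →
      a • q i + b • q (i + 1) = a' • q j + b' • q (j + 1) →
      (Pi.single i a + Pi.single (i + 1) b : ℕ → ℝ) =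
        Pi.single j a' + Pi.single (j + 1) b') →
    (∃ (a b s t : ℝ) (i : ℕ), 0 < a ∧ 0 < b ∧ 0 ≤ s ∧ 0 ≤ t ∧ i < m ∧
      -(a • q 0 + b • q m) = s • q i + t • q (i + 1)) →
    ∀ al be : ℝ, 0 < al → 0 < be → ∀ p0 : E3, p0 = -(al • q 0 + be • q m) →
    (∀ i, i < m → ∀ a b : ℝ, 0 ≤ a → 0 ≤ b →
      (∃ x y : ℝ, 0 ≤ x ∧ 0 ≤ y ∧ a • q i + b • q (i + 1) = x • q 0 + y • p0) ∨
      (∃ x y : ℝ, 0 ≤ x ∧ 0 ≤ y ∧ a • q i + b • q (i + 1) = x • p0 + y • q m)) ∧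
    (∃ x y : ℝ, 0 < y ∧ q 1 = x • q 0 + y • p0) ∧
    (∃ x y : ℝ, 0 < y ∧ q (m - 1) = x • q m + y • p0) ∧
    ∃ k : ℝ, 0 < k ∧
      (∀ i, i < m → ∀ a b c c' : ℝ, 0 ≤ a → 0 ≤ b → 0 ≤ c → 0 < c' → c ≤ k * c' →
        a • q i + b • q (i + 1) = c • p0 + c' • q 0 → i = 0 ∧ k * (b * c') ≤ c * a) ∧
      (∀ i, i < m → ∀ a b c c' : ℝ, 0 ≤ a → 0 ≤ b → 0 ≤ c → 0 < c' → c ≤ k * c' →
        a • q i + b • q (i + 1) = c • p0 + c' • q m → i + 1 = m ∧ k * (a * c') ≤ c * b)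

/-- VCO (uses TYP): the polygon of a corner vertex is admissible (for generic `al`). -/
def Stmt_VCO : Prop :=
  ∀ (V : Type) [Fintype V] [DecidableEq V] (K : Surf V) (p : V → E3) (Φ : Finset Aff)
    (op : V → V → V → V) (v : V) (φ : Aff) (n : ℕ) (c : ZMod n → V) (m : ℕ),
    K.Framed p Φ → IsOpp K op → CD K p Φ v φ c m →
    ∃ al be : ℝ, 0 < al ∧ 0 < be ∧ (polC c m p v al be).Ok

/-- VPC (uses LNK TYP FAN VCO): polygon of a corner vertex. -/
def Stmt_VPC : Prop :=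
  ∀ (V : Type) [Fintype V] [DecidableEq V] (K : Surf V) (p : V → E3) (Φ : Finset Aff)
    (op : V → V → V → V) (v : V), K.Framed p Φ → IsOpp K op → K.Corner p Φ v →
    ∃ (L : Pg (Option V)) (pr : Option V → Option V) (k : ℝ), VP K p Φ op v L pr k

/-- VPI (uses LNK): polygon of an inner vertex. -/
def Stmt_VPI : Prop :=
  ∀ (V : Type) [Fintype V] [DecidableEq V] (K : Surf V) (p : V → E3) (Φ : Finset Aff)
    (op : V → V → V → V) (v : V), K.Framed p Φ → IsOpp K op → K.Inner p Φ v →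
    ∃ (L : Pg (Option V)) (pr : Option V → Option V) (k : ℝ), VP K p Φ op v L pr k

/-! ### arms -/

/-- position of the two triangles `v u w` and `v u (op v u w)` at the arm `some u`: `nb`, `nb'` are
the neighbour labels, `fc`, `fc'` the faces -/
def ArmD (K : Surf V) (p : V → E3) (Φ : Finset Aff) (op : V → V → V → V) (v : V)
    (L : Pg (Option V)) (pr : Option V → Option V) (τ : V → ℝ) (d₁ : ℝ) (u w : V)
    (nb fc nb' fc' : Option V) (lam lam' : ℝ) : Prop :=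
  ((nb = pr (some u) ∧ fc = pr (some u) ∧ nb' = L.s (some u) ∧ fc' = some u) ∨
    (nb = L.s (some u) ∧ fc = some u ∧ nb' = pr (some u) ∧ fc' = pr (some u))) ∧
  Side K p Φ L v u w nb ∧ Side K p Φ L v u (op v u w) nb' ∧
  0 < lam ∧ 0 < lam' ∧ nE p op v u w = (lam * τ u) • L.nor fc ∧
  nE p op v u (op v u w) = (lam' * τ u) • L.nor fc' ∧
  (∀ α β : ℝ, 0 < β → p w - p v = α • (p u - p v) + β • L.p none → nb = none →
    |α| * d₁ ≤ 1 / 2 ∧ β * d₁ ≤ 1 / 2)

/-- the signs `τ` and the directions `e` at the arms -/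
structure Arms (K : Surf V) (p : V → E3) (Φ : Finset Aff) (op : V → V → V → V) (v : V)
    (L : Pg (Option V)) (pr : Option V → Option V) (τ : V → ℝ) (e : Option V → E3) (d₁ : ℝ) :
    Prop where
  d1 : 0 < d₁
  tau : ∀ u, some u ∈ L.S → L.turn (pr (some u)) ≠ 0 ∧ τ u = Real.sign (L.turn (pr (some u)))
  dir : ∀ u w, Flag K p Φ op v u w → e (some u) = τ u • eE p v u w (op v u w)
  non : e none = L.nor none
  armd : ∀ u w, Flag K p Φ op v u w → ∃ nb fc nb' fc' lam lam',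
    ArmD K p Φ op v L pr τ d₁ u w nb fc nb' fc' lam lam'
  pos : ∀ i ∈ L.S, 0 < (inner ℝ (L.nor i) (e i) : ℝ) ∧ 0 < (inner ℝ (L.nor i) (e (L.s i)) : ℝ)

/-- ARM: existence of the signs and directions. -/
def Stmt_ARM : Prop :=
  ∀ (V : Type) [Fintype V] [DecidableEq V] (K : Surf V) (p : V → E3) (Φ : Finset Aff)
    (op : V → V → V → V) (v : V) (L : Pg (Option V)) (pr : Option V → Option V) (k : ℝ),
    K.Framed p Φ → IsOpp K op → VP K p Φ op v L pr k →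
    ∃ (τ : V → ℝ) (e : Option V → E3) (d₁ : ℝ), Arms K p Φ op v L pr τ e d₁

/-- value of the direction field on a face -/
noncomputable def bF {W : Type} [DecidableEq W] (L : Pg W) (e : W → E3) (d : ℝ) (i : W)
    (a c : ℝ) : E3 :=
  L.nor i + cutf d c a • (e i - L.nor i) + cutf d a c • (e (L.s i) - L.nor i)

/-- BETA: the direction field interpolating given directions at the arms. -/
def Stmt_BETA : Prop :=
  ∀ (W : Type) [DecidableEq W] (L : Pg W) (e : W → E3), L.Ok →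
    (∀ i ∈ L.S, 0 < (inner ℝ (L.nor i) (e i) : ℝ) ∧
      0 < (inner ℝ (L.nor i) (e (L.s i)) : ℝ)) →
    ∀ d : ℝ, 0 < d → d < 1 / 4 → ∃ β : E3 → E3, L.Adm β ∧
      ∀ i ∈ L.S, ∀ a c : ℝ, 0 ≤ a → 0 ≤ c → a • L.p i + c • L.p (L.s i) ≠ 0 →
        β (a • L.p i + c • L.p (L.s i)) = bF L e d i a c

/-- LIM: the chamfers satisfy the limit conditions along the edges. -/
def Stmt_LIM : Prop :=
  ∀ (V : Type) [Fintype V] [DecidableEq V] (K : Surf V) (p : V → E3) (Φ : Finset Aff)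
    (op : V → V → V → V) (v : V) (L : Pg (Option V)) (pr : Option V → Option V) (k : ℝ)
    (τ : V → ℝ) (e : Option V → E3) (d₁ : ℝ), K.Framed p Φ → IsOpp K op →
    VP K p Φ op v L pr k → Arms K p Φ op v L pr τ e d₁ → ∀ μ : ℝ, 0 < μ →
    ∃ k' c C ε₁ : ℝ, 0 < k' ∧ k' ≤ 1 ∧ 0 < c ∧ 0 < ε₁ ∧ ∀ ε' : ℝ, 0 < ε' → ε' < ε₁ →
    ∀ (κ : Type) (Ch : Option V → Finset κ) (N : κ → E3), L.CondG μ (k' * ε') Ch N →
    (∀ i ∈ L.S, L.turn i ≠ 0 → (Ch (L.s i)).Nonempty) →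
    ∀ u w, Flag K p Φ op v u w →
      EHalf (p v) (p u) (p w) (p (op v u w)) (nE p op v u w) (nE p op v u (op v u w)) ε' c C
        (Ch (some u)) (fun n => τ u • N n)

/-! ### core maps -/

/-- face planes in scaled coordinates -/
noncomputable def aV (L : Pg (Option V)) (oL : Option V → ℝ) (P : V → V → Aff) :
    Option V → Aff := fun i =>
  match i, L.s i with
  | some a, some b => ((P a b).1, oL (some a))
  | i, _ => (L.nor i, 0)

/-- chamfer planes in scaled coordinates -/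
noncomputable def bV {κ : Type} (q : E3) (r : ℝ) (B : κ → Aff) : κ → Aff :=
  fun n => ((B n).1, -(ev (B n) q) / r)

/-- offsets as a function of the triangle -/
noncomputable def oV (L : Pg (Option V)) (oL : Option V → ℝ) : V → V → ℝ := fun a b =>
  if some a ∈ L.S ∧ L.s (some a) = some b then oL (some a)
  else if some b ∈ L.S ∧ L.s (some b) = some a then -oL (some b) else 0

/-- the core map -/
noncomputable def gV (q : E3) (r : ℝ) (D : E3 → E3) : E3 → E3 :=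
  fun y => q + r • D (r⁻¹ • (y - q))

/-- NRV: planes near at the vertex are near in the scaled picture. -/
def Stmt_NRV : Prop :=
  ∀ (V : Type) [Fintype V] [DecidableEq V] (K : Surf V) (p : V → E3) (Φ : Finset Aff)
    (op : V → V → V → V) (v : V) (L : Pg (Option V)) (pr : Option V → Option V) (k : ℝ),
    K.Framed p Φ → IsOpp K op → VP K p Φ op v L pr k →
    ∀ (κ : Type) (Ch : Option V → Finset κ) (N : κ → E3) (μ ε : ℝ), L.CondG μ ε Ch N →
    ∀ (oL : Option V → ℝ) (oN : κ → ℝ) (η r : ℝ), 0 < η → 0 < r →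
    (∀ m, L.X = some m → oL m = 0 ∧ ∀ q ∈ L.S, L.s q = m → oL q = 0) →
    (∀ u w, oV L oL w u = - oV L oL u w) ∧
    ∀ (P : V → V → Aff) (B : κ → Aff),
      NearV K p Φ v (fun u => Ch (some u)) N (oV L oL) oN η r P B →
      L.Near Ch N oL oN η (aV L oL P) (bV (p v) r B)

/-- everything known when the core map is built -/
structure CV (K : Surf V) (p : V → E3) (Φ : Finset Aff) (op : V → V → V → V) (v : V)
    (L : Pg (Option V)) (pr : Option V → Option V) (k : ℝ) (τ : V → ℝ) (e : Option V → E3)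
    (d₁ d ε : ℝ) (β : E3 → E3) {κ : Type} (Ch : Option V → Finset κ) (N : κ → E3)
    (oL : Option V → ℝ) (oN : κ → ℝ) (η r R M : ℝ) (P : V → V → Aff) (B : κ → Aff)
    (D : E3 → E3) : Prop where
  fr : K.Framed p Φ
  opp : IsOpp K op
  vp : VP K p Φ op v L pr k
  arms : Arms K p Φ op v L pr τ e d₁
  dpos : 0 < d
  dd : d ≤ d₁
  d8 : d ≤ 1 / 8
  eps : 0 < ε
  epsd : 4 * ε ≤ d
  epsk : 4 * ε < k * d
  beta : ∀ i ∈ L.S, ∀ a c : ℝ, 0 ≤ a → 0 ≤ c → a • L.p i + c • L.p (L.s i) ≠ 0 →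
    β (a • L.p i + c • L.p (L.s i)) = bF L e d i a c
  adm : L.Adm β
  chn : L.X = some none → Ch none = ∅
  rpos : 0 < r
  Rpos : 0 < R
  near : NearV K p Φ v (fun u => Ch (some u)) N (oV L oL) oN η r P B
  cont : ContinuousOn D L.cone
  good : ∀ x ∈ L.cone, GoodOn L.cone D x ∧ L.Half (D x)
  bound : ∀ x ∈ L.cone, ‖D x - x‖ ≤ M * (1 + ‖x‖)
  far : ∀ x ∈ L.cone, R ≤ ‖x‖ → (∃ t : ℝ, D x = x - t • β x) ∧
    L.ZoneX Ch (aV L oL P) (bV (p v) r B) ε x (D x)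

/-- RFC: the core map is continuous, good, bounded and satisfies the half space condition. -/
def Stmt_RFC : Prop :=
  ∀ (V : Type) [Fintype V] [DecidableEq V] (K : Surf V) (p : V → E3) (Φ : Finset Aff)
    (op : V → V → V → V) (v : V) (L : Pg (Option V)) (pr : Option V → Option V) (k : ℝ)
    (τ : V → ℝ) (e : Option V → E3) (d₁ d ε : ℝ) (β : E3 → E3) (κ : Type)
    (Ch : Option V → Finset κ) (N : κ → E3) (oL : Option V → ℝ) (oN : κ → ℝ) (η r R M : ℝ)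
    (P : V → V → Aff) (B : κ → Aff) (D : E3 → E3),
    CV K p Φ op v L pr k τ e d₁ d ε β Ch N oL oN η r R M P B D →
    ContinuousOn (fun x => gV (p v) r D (lin p x)) (K.star v) ∧
    (∀ x : K.body, 0 < x.1 v → Good (fun x' : K.body => gV (p v) r D (K.map p x')) x) ∧
    (∀ x ∈ K.star v, ‖gV (p v) r D (lin p x) - lin p x‖ ≤ |M| * (r + ‖lin p x - p v‖)) ∧
    ∀ φ ∈ Φ, ev φ (p v) = 0 → ∀ x ∈ K.star v, ev φ (gV (p v) r D (lin p x)) ≤ 0

/-- RFE: the edge equation of the core map. -/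
def Stmt_RFE : Prop :=
  ∀ (V : Type) [Fintype V] [DecidableEq V] (K : Surf V) (p : V → E3) (Φ : Finset Aff)
    (op : V → V → V → V) (v : V) (L : Pg (Option V)) (pr : Option V → Option V) (k : ℝ)
    (τ : V → ℝ) (e : Option V → E3) (d₁ d ε : ℝ) (β : E3 → E3) (κ : Type)
    (Ch : Option V → Finset κ) (N : κ → E3) (oL : Option V → ℝ) (oN : κ → ℝ) (η r R M : ℝ)
    (P : V → V → Aff) (B : κ → Aff) (D : E3 → E3),
    CV K p Φ op v L pr k τ e d₁ d ε β Ch N oL oN η r R M P B D →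
    ∀ u w, Flag K p Φ op v u w → ∀ x, InT v u w x → 1 / 2 ≤ x v →
    R * r ≤ ‖lin p x - p v‖ → x w ≤ d * x u → ∀ y : E3, y = gV (p v) r D (lin p x) →
    ∃ s : ℝ, y = lin p x - s • eE p v u w (op v u w) ∧
      0 ≤ sg p op v u w * ev (P u w) y ∧
      0 ≤ sg p op v u (op v u w) * ev (P u (op v u w)) y ∧
      (∀ n ∈ Ch (some u), 0 ≤ τ u * ev (B n) y) ∧
      (ev (P u w) y = 0 ∨ ev (P u (op v u w)) y = 0 ∨ ∃ n ∈ Ch (some u), ev (B n) y = 0)

/-- RFF: the face equation of the core map. -/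
def Stmt_RFF : Prop :=
  ∀ (V : Type) [Fintype V] [DecidableEq V] (K : Surf V) (p : V → E3) (Φ : Finset Aff)
    (op : V → V → V → V) (v : V) (L : Pg (Option V)) (pr : Option V → Option V) (k : ℝ)
    (τ : V → ℝ) (e : Option V → E3) (d₁ d ε : ℝ) (β : E3 → E3) (κ : Type)
    (Ch : Option V → Finset κ) (N : κ → E3) (oL : Option V → ℝ) (oN : κ → ℝ) (η r R M : ℝ)
    (P : V → V → Aff) (B : κ → Aff) (D : E3 → E3),
    CV K p Φ op v L pr k τ e d₁ d ε β Ch N oL oN η r R M P B D →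
    ∀ u w, Nf K p Φ v u w → ∀ x, InT v u w x → 1 / 2 ≤ x v →
    R * r ≤ ‖lin p x - p v‖ → d / 2 * x u ≤ x w → d / 2 * x w ≤ x u →
    (∃ s : ℝ, gV (p v) r D (lin p x) = lin p x - s • bT p op d v u w x) ∧
      ev (P u w) (gV (p v) r D (lin p x)) = 0

/-- RFT: the core map is the identity on facet triangles away from active edges. -/
def Stmt_RFT : Prop :=
  ∀ (V : Type) [Fintype V] [DecidableEq V] (K : Surf V) (p : V → E3) (Φ : Finset Aff)
    (op : V → V → V → V) (v : V) (L : Pg (Option V)) (pr : Option V → Option V) (k : ℝ)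
    (τ : V → ℝ) (e : Option V → E3) (d₁ d ε : ℝ) (β : E3 → E3) (κ : Type)
    (Ch : Option V → Finset κ) (N : κ → E3) (oL : Option V → ℝ) (oN : κ → ℝ) (η r R M : ℝ)
    (P : V → V → Aff) (B : κ → Aff) (D : E3 → E3),
    CV K p Φ op v L pr k τ e d₁ d ε β Ch N oL oN η r R M P B D →
    ∀ u w, Ft K p Φ v u w → ∀ x, InT v u w x → 1 / 2 ≤ x v →
    R * r ≤ ‖lin p x - p v‖ → (Flag K p Φ op v u w → d / 2 * x u ≤ x w) →
    (Flag K p Φ op v w u → d / 2 * x w ≤ x u) → gV (p v) r D (lin p x) = lin p x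

end Pool.Agent.TSX
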