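import Pool.Agent.TSX.Stmts

/-!
# TSX, TYP: types of the triangles at a corner vertex
-/

set_option autoImplicit false

namespace Pool.Agent.TSX

open Set Filter Topology Pool.Agent.TSM Pool.Agent.TSR

theorem typ_proof (h1 : Stmt_LNK) : Stmt_TYP := by
  intro V _ _ K p Φ op v φ n c m hF hop hC
  have hn4 : 4 ≤ n := by have := hC.m2; have := hC.mn; omega
  have : NeZero n := ⟨by omega⟩
  obtain ⟨L1, L2, -⟩ := h1 V K op v n c hop hC.link
  obtain ⟨hn3, hinj, hcv, hlk⟩ := hC.link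
  have hcast : ∀ i : ℕ, (((i + 1 : ℕ)) : ZMod n) = (i : ZMod n) + 1 := fun i => Nat.cast_succ i
  have hc0 : c ((n : ℕ) : ZMod n) = c 0 := by rw [ZMod.natCast_self]
  have hne : ∀ i : ZMod n, c i ≠ c (i + 1) := by
    intro i h
    have h2 := hinj h
    have h3 : (1 : ZMod n) = 0 := by
      have h4 : (i + 1) - i = (0 : ZMod n) := by rw [← h2, sub_self]
      rwa [add_sub_cancel_left] at h4
    have h5 : ((1 : ℕ) : ZMod n) = 0 := by rw [Nat.cast_one]; exact h3
    rw [ZMod.natCast_eq_zero_iff] at h5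
    have := Nat.le_of_dvd (by norm_num) h5
    omega
  have hT : ∀ a b, ({v, a, b} : Finset V) ∈ K.tri ↔ ∃ i : ℕ, i < n ∧
      ((a = c i ∧ b = c (i + 1 : ℕ)) ∨ (a = c (i + 1 : ℕ) ∧ b = c i)) := by
    intro a b
    rw [L1]
    constructor
    · rintro ⟨-, j, hj⟩
      refine ⟨j.val, ZMod.val_lt j, ?_⟩
      rw [hcast, ZMod.natCast_zmod_val]
      exact hj
    · rintro ⟨i, -, hi⟩
      rw [hcast] at hi
      refine ⟨?_, (i : ZMod n), hi⟩
      rcases hi with ⟨rfl, rfl⟩ | ⟨rfl, rfl⟩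
      · exact hne _
      · exact (hne _).symm
  have hFac : ∀ a b, Fac p Φ v a b ↔ ev φ (p a) = 0 ∧ ev φ (p b) = 0 := by
    intro a b
    constructor
    · rintro ⟨ψ, hψ, h2, h3, h4⟩
      by_cases h5 : ψ = φ
      · rw [← h5]; exact ⟨h3, h4⟩
      · have := hC.other ψ hψ h5
        linarith
    · rintro ⟨h2, h3⟩
      exact ⟨φ, hC.mem, hC.zero, h2, h3⟩
  have hFs : ∀ a b, Fac p Φ v a b ↔ Fac p Φ v b a := by
    intro a b
    rw [hFac, hFac]; exact and_comm
  have hflat : ∀ i : ℕ, i < m → Fac p Φ v (c i) (c (i + 1 : ℕ)) := by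
    intro i hi
    rw [hFac]
    exact ⟨hC.flat i (by omega), hC.flat (i + 1) (by omega)⟩
  have hnfl : ∀ i : ℕ, m ≤ i → i < n → ¬ Fac p Φ v (c i) (c (i + 1 : ℕ)) := by
    intro i hi hin h
    rw [hFac] at h
    by_cases h2 : m < i
    · have := hC.below i h2 hin
      linarith [h.1]
    · have := hC.below (i + 1) (by omega) (by have := hC.mn; omega)
      linarith [h.2]
  have hmn := hC.mn
  have hm2 := hC.m2
  -- the other triangle
  have hop1 : ∀ i : ℕ, 1 ≤ i → op v (c i) (c (i + 1 : ℕ)) = c (i - 1 : ℕ) := by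
    intro i hi
    rw [hcast, (L2 (i : ZMod n)).1]
    congr 1
    rw [Nat.cast_sub hi, Nat.cast_one]
  have hop2 : ∀ i : ℕ, op v (c (i + 1 : ℕ)) (c i) = c (i + 1 + 1 : ℕ) := by
    intro i
    have h2 := (L2 ((i + 1 : ℕ) : ZMod n)).2
    have h3 : ((i + 1 : ℕ) : ZMod n) - 1 = (i : ZMod n) := by rw [hcast]; ring
    rw [h3] at h2
    rw [h2, hcast (i + 1)]
  have htri : ∀ i : ℕ, i < n → ({v, c i, c (i + 1 : ℕ)} : Finset V) ∈ K.tri := by
    intro i hi
    exact (hT _ _).2 ⟨i, hi, Or.inl ⟨rfl, rfl⟩⟩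
  have htri' : ∀ i : ℕ, i < n → ({v, c (i + 1 : ℕ), c i} : Finset V) ∈ K.tri := by
    intro i hi
    exact (hT _ _).2 ⟨i, hi, Or.inr ⟨rfl, rfl⟩⟩
  have hlast : ((n - 1 + 1 : ℕ) : ZMod n) = 0 := by
    have : n - 1 + 1 = n := by omega
    rw [this, ZMod.natCast_self]
  refine ⟨?_, ?_, ?_, ?_, ?_, ?_, ?_, ?_⟩
  · intro a b
    constructor
    · rintro ⟨ht, hf⟩
      obtain ⟨i, hi, hab⟩ := (hT a b).1 ht
      by_cases h2 : i < m
      · exact ⟨i, h2, hab⟩
      · exfalso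
        rcases hab with ⟨rfl, rfl⟩ | ⟨rfl, rfl⟩
        · exact hnfl i (by omega) hi hf
        · exact hnfl i (by omega) hi ((hFs _ _).1 hf)
    · rintro ⟨i, hi, hab⟩
      refine ⟨(hT a b).2 ⟨i, by omega, hab⟩, ?_⟩
      rcases hab with ⟨rfl, rfl⟩ | ⟨rfl, rfl⟩
      · exact hflat i hi
      · exact (hFs _ _).1 (hflat i hi)
  · intro a b
    constructor
    · rintro ⟨ht, hf⟩
      obtain ⟨i, hi, hab⟩ := (hT a b).1 ht
      by_cases h2 : i < m
      · exfalso
        apply hf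
        rcases hab with ⟨rfl, rfl⟩ | ⟨rfl, rfl⟩
        · exact hflat i h2
        · exact (hFs _ _).1 (hflat i h2)
      · exact ⟨i, by omega, hi, hab⟩
    · rintro ⟨i, hmi, hi, hab⟩
      refine ⟨(hT a b).2 ⟨i, hi, hab⟩, ?_⟩
      intro hf
      rcases hab with ⟨rfl, rfl⟩ | ⟨rfl, rfl⟩
      · exact hnfl i hmi hi hf
      · exact hnfl i hmi hi ((hFs _ _).1 hf)
  · intro i hmi hin hout
    by_cases h2 : i < n
    · obtain ⟨ψ, hψ, h3⟩ := hout _ (htri i h2) (by simp)
      exact hnfl i hmi h2 ⟨ψ, hψ, h3 _ (by simp), h3 _ (by simp), h3 _ (by simp)⟩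
    · have h3 : i = n := by omega
      subst h3
      have h4 := htri (i - 1) (by omega)
      have h5 : ((i - 1 + 1 : ℕ) : ZMod i) = ((i : ℕ) : ZMod i) := by
        have : i - 1 + 1 = i := by omega
        rw [this]
      obtain ⟨ψ, hψ, h6⟩ := hout _ h4 (by rw [h5]; simp)
      exact hnfl (i - 1) (by omega) (by omega)
        ⟨ψ, hψ, h6 _ (by simp), h6 _ (by simp), h6 _ (by simp)⟩
  · rintro a b ⟨ht, hnf⟩
    obtain ⟨i, hi, hab⟩ := (hT a b).1 ht
    rcases hab with ⟨rfl, rfl⟩ | ⟨rfl, rfl⟩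
    · by_cases h2 : m ≤ i
      · exact ⟨i, h2, by omega, rfl⟩
      · by_cases h3 : i = 0
        · refine ⟨n, by omega, le_rfl, ?_⟩
          rw [h3, hc0, Nat.cast_zero]
        · exfalso
          apply hnf
          refine ⟨hflat i (by omega), ?_⟩
          rw [hop1 i (by omega), hFs]
          have h4 := hflat (i - 1) (by omega)
          have h5 : i - 1 + 1 = i := by omega
          rwa [h5] at h4
    · by_cases h2 : m ≤ i + 1
      · exact ⟨i + 1, h2, by omega, rfl⟩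
      · exfalso
        apply hnf
        refine ⟨(hFs _ _).1 (hflat i (by omega)), ?_⟩
        rw [hop2 i]
        exact hflat (i + 1) (by omega)
  · intro i hmi hi
    exact ⟨htri i hi, fun h => hnfl i hmi hi h.1⟩
  · have h5 : m - 1 + 1 = m := by omega
    have h2 := htri' (m - 1) (by omega)
    have h3 := hop2 (m - 1)
    rw [h5] at h2 h3
    refine ⟨h2, fun h => ?_⟩
    have h4 := h.2
    rw [h3] at h4
    exact hnfl m le_rfl (by omega) h4
  · have h2 := htri 0 (by omega)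
    rw [Nat.cast_zero, zero_add, Nat.cast_one] at h2
    refine ⟨h2, fun h => ?_⟩
    have h3 := h.2
    have h4 := (L2 (0 : ZMod n)).1
    rw [zero_add] at h4
    rw [h4, hFac] at h3
    have h5 : (0 : ZMod n) - 1 = ((n - 1 : ℕ) : ZMod n) := by
      rw [Nat.cast_sub (by omega), ZMod.natCast_self, Nat.cast_one]
    rw [h5] at h3
    have := hC.below (n - 1) (by omega) (by omega)
    linarith [h3.2]
  · have h2 := htri' (n - 1) (by omega)
    rw [hlast] at h2
    refine ⟨h2, fun h => ?_⟩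
    have h3 := h.1
    rw [hFac] at h3
    have := hC.below (n - 1) (by omega) (by omega)
    linarith [h3.2]

end Pool.Agent.TSX
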