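import Pool.Agent.TSX.Stmts
import Pool.Agent.TSR.Base

/-!
# TSX module VPC: the polygon of a corner vertex
-/

set_option autoImplicit false

namespace Pool.Agent.TSX

open Set Filter Topology Pool.Agent.TSM Pool.Agent.TSR

namespace VPC_

variable {V : Type} [Fintype V] [DecidableEq V]

/-- weights near the vertex `v` -/
noncomputable def wt (v x y : V) (t a b : ℝ) : V → ℝ :=
  fun z => (if z = v then 1 - t * (a + b) else 0) +
    t * (Pi.single x a + Pi.single y b : V → ℝ) z

theorem wt_InT {v x y : V} {t a b : ℝ} (ht : 0 ≤ t) (ha : 0 ≤ a) (hb : 0 ≤ b)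
    (h1 : t * (a + b) ≤ 1) : InT v x y (wt v x y t a b) := by
  have hs : ∀ (x : V) (a : ℝ), 0 ≤ a → ∀ z, 0 ≤ (Pi.single x a : V → ℝ) z := by
    intro x a ha z
    by_cases h : z = x
    · rw [h, Pi.single_eq_same]; exact ha
    · rw [Pi.single_eq_of_ne h]
  refine ⟨fun z => ?_, ?_, fun z hz => ?_⟩
  · unfold wt
    rw [Pi.add_apply]
    have h2 : 0 ≤ t * ((Pi.single x a : V → ℝ) z + (Pi.single y b : V → ℝ) z) :=
      mul_nonneg ht (add_nonneg (hs x a ha z) (hs y b hb z))
    have h3 : 0 ≤ (if z = v then 1 - t * (a + b) else 0) := by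
      split_ifs
      · linarith
      · exact le_rfl
    linarith
  · unfold wt
    rw [Finset.sum_add_distrib, ← Finset.mul_sum]
    simp only [Pi.add_apply, Finset.sum_add_distrib, Finset.sum_pi_single', Finset.mem_univ,
      if_true, Finset.sum_ite_eq']
    ring
  · simp only [Finset.mem_insert, Finset.mem_singleton, not_or] at hz
    unfold wt
    rw [if_neg hz.1, Pi.add_apply, Pi.single_eq_of_ne hz.2.1, Pi.single_eq_of_ne hz.2.2]
    ring

theorem wt_lin {p : V → E3} {v x y : V} {t a b : ℝ} (ht : 0 ≤ t) (ha : 0 ≤ a) (hb : 0 ≤ b)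
    (h1 : t * (a + b) ≤ 1) (k1 : v ≠ x) (k2 : v ≠ y) (k3 : x ≠ y) :
    lin p (wt v x y t a b) = p v + t • (a • (p x - p v) + b • (p y - p v)) := by
  rw [(wt_InT (v := v) (x := x) (y := y) ht ha hb h1).lin k1 k2 k3]
  have e1 : wt v x y t a b x = t * a := by
    unfold wt
    rw [if_neg k1.symm, Pi.add_apply, Pi.single_eq_same, Pi.single_eq_of_ne k3]
    ring
  have e2 : wt v x y t a b y = t * b := by
    unfold wt
    rw [if_neg k2.symm, Pi.add_apply, Pi.single_eq_same, Pi.single_eq_of_ne k3.symm]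
    ring
  rw [e1, e2]
  module

/-- the star trick -/
theorem trick {K : Surf V} {p : V → E3} (hemb : K.EmbStars p) {v x y x' y' : V}
    (ht : ({v, x, y} : Finset V) ∈ K.tri) (ht' : ({v, x', y'} : Finset V) ∈ K.tri)
    {a b a' b' : ℝ} (ha : 0 ≤ a) (hb : 0 ≤ b) (ha' : 0 ≤ a') (hb' : 0 ≤ b')
    (h : a • (p x - p v) + b • (p y - p v) = a' • (p x' - p v) + b' • (p y' - p v)) (z : V)
    (hz : z ≠ v) : (Pi.single x a + Pi.single y b : V → ℝ) z =
      (Pi.single x' a' + Pi.single y' b' : V → ℝ) z := by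
  set T : ℝ := 1 + (a + b) + (a' + b') with hT
  have hTpos : 0 < T := by linarith
  have h1 : T⁻¹ * (a + b) ≤ 1 := by
    rw [inv_mul_le_iff₀ hTpos]; linarith
  have h2 : T⁻¹ * (a' + b') ≤ 1 := by
    rw [inv_mul_le_iff₀ hTpos]; linarith
  have ht0 : 0 ≤ T⁻¹ := (inv_pos.2 hTpos).le
  obtain ⟨k1, k2, k3⟩ := tri_ne ht
  obtain ⟨k1', k2', k3'⟩ := tri_ne ht'
  have h3 : lin p (wt v x y T⁻¹ a b) = lin p (wt v x' y' T⁻¹ a' b') := by
    rw [wt_lin ht0 ha hb h1 k1 k2 k3, wt_lin ht0 ha' hb' h2 k1' k2' k3', h]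
  have h4 := hemb v ((wt_InT ht0 ha hb h1).star ht) ((wt_InT ht0 ha' hb' h2).star ht') h3
  have h5 := congrFun h4 z
  unfold wt at h5
  rw [if_neg hz, if_neg hz, zero_add, zero_add] at h5
  exact mul_left_cancel₀ (inv_pos.2 hTpos).ne' h5

end VPC_

theorem vpc_proof (h1 : Stmt_LNK) (h2 : Stmt_TYP) (h3 : Stmt_FAN) (h4 : Stmt_VCO) :
    Stmt_VPC := by
  intro V _ _ K p Φ op v hF hop hC
  obtain ⟨φ, hφ, hz, hoth, n, c, m, hlink, hm2, hmn, hflat, hbelow, hind, hsec⟩ := hC
  have hCD : CD K p Φ v φ c m := ⟨hφ, hz, hoth, hlink, hm2, hmn, hflat, hbelow, hind, hsec⟩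
  obtain ⟨l1, l2, l3⟩ := h1 V K op v n c hop hlink
  obtain ⟨t1, t2, t3, t4, t5, t6, t7, t8⟩ := h2 V K p Φ op v φ n c m hF hop hCD
  obtain ⟨al, be, hal, hbe, hok⟩ := h4 V K p Φ op v φ n c m hF hop hCD
  obtain ⟨hn3, hcinj, hcv, hcyc⟩ := hlink
  have : NeZero n := ⟨by omega⟩
  -- natural indices
  have inj : ∀ i j : ℕ, i < n → j < n → c (i : ZMod n) = c (j : ZMod n) → i = j := by
    intro i j hi hj h
    have h5 := hcinj h
    rw [ZMod.natCast_eq_natCast_iff'] at h5
    rwa [Nat.mod_eq_of_lt hi, Nat.mod_eq_of_lt hj] at h5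
  have cn : ((n : ℕ) : ZMod n) = 0 := ZMod.natCast_self n
  have cz : ((0 : ℕ) : ZMod n) = 0 := Nat.cast_zero
  have csucc : ∀ i : ℕ, ((i + 1 : ℕ) : ZMod n) = (i : ZMod n) + 1 := fun i => Nat.cast_succ i
  have tri : ∀ i : ℕ, ({v, c i, c (i + 1 : ℕ)} : Finset V) ∈ K.tri := by
    intro i
    rw [csucc]
    exact ((hcyc _).2 ⟨i, rfl⟩).1
  set q : ℕ → E3 := fun i => p (c (i : ZMod n)) - p v with hq
  have q0 : q 0 = p (c 0) - p v := by simp only [hq, cz]
  have hφne : φ.1 ≠ 0 := by
    intro h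
    have := hF.unit φ hφ
    rw [h, norm_zero] at this
    exact zero_ne_one this
  have hin : ∀ x : V, (inner ℝ φ.1 (p x - p v) : ℝ) = ev φ (p x) := by
    intro x
    rw [← ev_sub, hz, sub_zero]
  have single_c : ∀ (i l : ℕ) (a : ℝ), i < n → l < n →
      (Pi.single (c (i : ZMod n)) a : V → ℝ) (c (l : ZMod n)) = (Pi.single i a : ℕ → ℝ) l := by
    intro i l a hi hl
    by_cases h : l = i
    · rw [h, Pi.single_eq_same, Pi.single_eq_same]
    · rw [Pi.single_eq_of_ne h, Pi.single_eq_of_ne fun h' => h (inj l i hl hi h')]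
  have hemb : ∀ i j : ℕ, i < m → j < m → ∀ a b a' b' : ℝ, 0 ≤ a → 0 ≤ b → 0 ≤ a' → 0 ≤ b' →
      a • q i + b • q (i + 1) = a' • q j + b' • q (j + 1) →
      (Pi.single i a + Pi.single (i + 1) b : ℕ → ℝ) =
        Pi.single j a' + Pi.single (j + 1) b' := by
    intro i j hi hj a b a' b' ha hb ha' hb' h
    have h5 := VPC_.trick hF.emb (tri i) (tri j) ha hb ha' hb' h
    funext l
    by_cases hl : l ≤ m
    · have h6 := h5 (c (l : ZMod n)) (hcv _)
      rw [Pi.add_apply, Pi.add_apply, single_c i l a (by omega) (by omega),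
        single_c (i + 1) l b (by omega) (by omega), single_c j l a' (by omega) (by omega),
        single_c (j + 1) l b' (by omega) (by omega)] at h6
      rw [Pi.add_apply, Pi.add_apply]
      exact h6
    · rw [Pi.add_apply, Pi.add_apply, Pi.single_eq_of_ne (by omega),
        Pi.single_eq_of_ne (by omega), Pi.single_eq_of_ne (by omega),
        Pi.single_eq_of_ne (by omega)]
  obtain ⟨f1, f2, f3, k, hk, f4, f5⟩ := h3 q m φ.1 hm2 hφne
    (fun i hi => by rw [hq]; simp only; rw [hin]; exact hflat i hi)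
    (by rw [q0]; exact hind) hemb (by
      obtain ⟨a, b, s, t, i, ha, hb, hs, ht, hi, h5⟩ := hsec
      exact ⟨a, b, s, t, i, ha, hb, hs, ht, hi, by rw [q0]; exact h5⟩) al be hal hbe _ rfl
  set L : Pg (Option V) := polC c m p v al be with hL
  have hLX : L.X = some none := rfl
  have hLn : L.s none = some (c m) := rfl
  have hLpn : L.p none = -(al • q 0 + be • q m) := by rw [q0]; rfl
  have hLps : ∀ x, L.p (some x) = p x - p v := fun x => rfl
  have hLs0 : L.s (some (c 0)) = none := by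
    show (if c 0 = c 0 then none else some (nx c (c 0))) = none
    rw [if_pos rfl]
  have hLsi : ∀ i : ℕ, 0 < i → i < n → L.s (some (c i)) = some (c (i + 1 : ℕ)) := by
    intro i hi hin
    show (if c i = c 0 then none else some (nx c (c i))) = some (c (i + 1 : ℕ))
    rw [if_neg, (l3 i).1, csucc]
    intro h
    rw [← cz] at h
    have := inj i 0 hin (by omega) h
    omega
  have hmem : ∀ x : V, some x ∈ L.S ↔ ∃ i : ℕ, m ≤ i ∧ i ≤ n ∧ x = c i := by
    intro x
    rw [hL]
    unfold polC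
    simp
  have hnS : (none : Option V) ∈ L.S := by
    rw [hL]
    unfold polC
    simp
  set pr : Option V → Option V := fun j => match j with
    | none => some (c 0)
    | some x => if x = c m then none else some (pv c x) with hpr
  have hprn : pr none = some (c 0) := rfl
  have hprm : pr (some (c m)) = none := by
    show (if c m = c m then none else some (pv c (c m))) = none
    rw [if_pos rfl]
  have hpri : ∀ i : ℕ, m < i → i ≤ n → pr (some (c i)) = some (c (i - 1 : ℕ)) := by
    intro i hi hin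
    show (if c i = c m then none else some (pv c (c i))) = some (c (i - 1 : ℕ))
    rw [if_neg, (l3 i).2, Nat.cast_pred (by omega)]
    intro h
    rcases hin.lt_or_eq with h5 | h5
    · have := inj i m h5 (by omega) h
      omega
    · rw [h5, cn, ← cz] at h
      have := inj 0 m (by omega) (by omega) h
      omega
  have hlin : ∀ (i : ℕ) (x : V → ℝ), InT v (c i) (c (i + 1 : ℕ)) x →
      lin p x - p v = x (c i) • q i + x (c (i + 1 : ℕ)) • q (i + 1) := by
    intro i x hx
    obtain ⟨k1, k2, k3⟩ := tri_ne (tri i)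
    rw [hx.lin k1 k2 k3]
    simp only [hq]
    abel
  have hflt : ∀ (i : ℕ), i < m → ∀ (x : V → ℝ), InT v (c i) (c (i + 1 : ℕ)) x →
      lin p x - p v ∈ L.face none ∪ L.face (some (c 0)) := by
    intro i him x hx
    rw [hlin i x hx]
    rcases f1 i him (x (c i)) (x (c (i + 1 : ℕ))) (hx.1 _) (hx.1 _) with
      ⟨a, b, ha, hb, h5⟩ | ⟨a, b, ha, hb, h5⟩
    · right
      refine ⟨a, b, ha, hb, ?_⟩
      rw [hLs0, hLps, hLpn, h5, q0]
    · left
      refine ⟨a, b, ha, hb, ?_⟩
      rw [hLn, hLps, hLpn, h5]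
  refine ⟨L, pr, k, hok, ?_, hk, fun u _ => hLps u, ?_, ?_, ?_, ?_, ?_, ?_⟩
  · -- predecessor
    intro j hj
    cases j with
    | none =>
      refine ⟨(hmem _).2 ⟨n, by omega, le_rfl, by rw [cn]⟩, hLs0, ?_⟩
      rw [hLn, hprm]
    | some x =>
      obtain ⟨i, hmi, hin, rfl⟩ := (hmem x).1 hj
      rcases hmi.eq_or_lt with h5 | h5
      · subst h5
        refine ⟨by rw [hprm]; exact hnS, by rw [hprm, hLn], ?_⟩
        rw [hLsi m (by omega) (by omega), hpri (m + 1) (by omega) (by omega)]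
        rfl
      · refine ⟨by rw [hpri i h5 hin]; exact (hmem _).2 ⟨i - 1, by omega, by omega, rfl⟩, ?_, ?_⟩
        · rw [hpri i h5 hin, hLsi (i - 1) (by omega) (by omega)]
          have : i - 1 + 1 = i := by omega
          rw [this]
        · rcases hin.lt_or_eq with h6 | h6
          · rw [hLsi i (by omega) h6, hpri (i + 1) (by omega) (by omega)]
            rfl
          · rw [h6, cn, hLs0]
  · -- flags
    intro u w h
    exact (hmem u).2 (t4 u w h)
  · -- arms
    intro u hu
    obtain ⟨i, hmi, hin, rfl⟩ := (hmem u).1 hu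
    have hpred : ∀ i : ℕ, 0 < i → ((i - 1 : ℕ) : ZMod n) = (i : ZMod n) - 1 := fun i hi =>
      Nat.cast_pred hi
    rcases hmi.eq_or_lt with h5 | h5
    · subst h5
      refine ⟨c (m - 1 : ℕ), t6, ?_, ?_⟩
      · rw [hprm]
        refine Or.inr ⟨rfl, (t1 _ _).2 ⟨m - 1, by omega, Or.inr ⟨?_, rfl⟩⟩, ?_⟩
        · have : m - 1 + 1 = m := by omega
          rw [this]
        · obtain ⟨x, y, hy, h6⟩ := f3
          exact ⟨x, y, hy, by rw [hLpn]; exact h6⟩
      · rw [hLsi m (by omega) (by omega)]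
        have h6 : op v (c m) (c (m - 1 : ℕ)) = c (m + 1 : ℕ) := by
          rw [hpred m (by omega), (l2 m).2, csucc]
        rw [h6]
        exact Or.inl ⟨rfl, (t2 _ _).2 ⟨m, le_rfl, by omega, Or.inl ⟨rfl, rfl⟩⟩⟩
    · have hN : Nf K p Φ v (c i) (c (i - 1 : ℕ)) := by
        refine (t2 _ _).2 ⟨i - 1, by omega, by omega, Or.inr ⟨?_, rfl⟩⟩
        have : i - 1 + 1 = i := by omega
        rw [this]
      refine ⟨c (i - 1 : ℕ), hN.flag, ?_, ?_⟩
      · rw [hpri i h5 hin]
        exact Or.inl ⟨rfl, hN⟩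
      · rcases hin.lt_or_eq with h6 | h6
        · rw [hLsi i (by omega) h6]
          have h7 : op v (c i) (c (i - 1 : ℕ)) = c (i + 1 : ℕ) := by
            rw [hpred i (by omega), (l2 i).2, csucc]
          rw [h7]
          exact Or.inl ⟨rfl, (t2 _ _).2 ⟨i, by omega, h6, Or.inl ⟨rfl, rfl⟩⟩⟩
        · subst h6
          have h7 : op v (c i) (c (i - 1 : ℕ)) = c (1 : ℕ) := by
            rw [hpred i (by omega), (l2 i).2, cn, zero_add, Nat.cast_one]
          rw [h7, cn, hLs0]
          refine Or.inr ⟨rfl, (t1 _ _).2 ⟨0, by omega, Or.inl ⟨by rw [cz], rfl⟩⟩, ?_⟩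
          obtain ⟨x, y, hy, h8⟩ := f2
          refine ⟨x, y, hy, ?_⟩
          rw [hLpn, ← q0]
          exact h8
  · -- faces which are not in facets
    intro u w h
    obtain ⟨i, hmi, hin, h5 | h5⟩ := (t2 u w).1 h
    · left
      rw [h5.1, h5.2, hLsi i (by omega) hin]
    · right
      rw [h5.1, h5.2, hLsi i (by omega) hin]
  · -- the star
    intro x hx
    obtain ⟨u, w, ht, hxT⟩ := star_InT hx
    rcases nf_or_ft (p := p) (Φ := Φ) ht with hN | hN
    · obtain ⟨i, hmi, hin', h5⟩ := (t2 u w).1 hN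
      have hxT' : InT v (c i) (c (i + 1 : ℕ)) x := by
        rcases h5 with h5 | h5
        · rw [← h5.1, ← h5.2]; exact hxT
        · rw [← h5.1, ← h5.2]; exact hxT.anti
      refine ⟨some (c i), (hmem _).2 ⟨i, hmi, hin'.le, rfl⟩, x (c i), x (c (i + 1 : ℕ)),
        hxT.1 _, hxT.1 _, ?_⟩
      rw [hLsi i (by omega) hin', hLps, hLps]
      exact hlin i x hxT'
    · obtain ⟨i, him, h5⟩ := (t1 u w).1 hN
      have hxT' : InT v (c i) (c (i + 1 : ℕ)) x := by
        rcases h5 with h5 | h5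
        · rw [← h5.1, ← h5.2]; exact hxT
        · rw [← h5.1, ← h5.2]; exact hxT.anti
      rcases hflt i him x hxT' with h6 | h6
      · exact ⟨none, hnS, h6⟩
      · exact ⟨some (c 0), (hmem _).2 ⟨n, by omega, le_rfl, by rw [cn]⟩, h6⟩
  · intro h
    rw [hLX] at h
    exact absurd h (by simp)
  · -- the corner
    intro m' hm'
    have hm'' : m' = none := by rw [hLX] at hm'; exact (Option.some.inj hm').symm
    refine ⟨hm'', φ, hφ, hz, hoth, ?_, ?_, ?_, ?_⟩
    · rw [hLpn, inner_neg_right, inner_add_right, inner_smul_right, inner_smul_right]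
      simp only [hq]
      rw [hin, hin, hflat 0 (by omega), hflat m le_rfl]
      ring
    · intro j hj
      cases j with
      | none =>
        rw [hLpn, inner_neg_right, inner_add_right, inner_smul_right, inner_smul_right]
        simp only [hq]
        rw [hin, hin, hflat 0 (by omega), hflat m le_rfl]
        simp
      | some x =>
        obtain ⟨i, hmi, hin', rfl⟩ := (hmem x).1 hj
        rw [hLps, hin]
        rcases hmi.eq_or_lt with h5 | h5
        · rw [← h5, hflat m le_rfl]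
        · rcases hin'.lt_or_eq with h6 | h6
          · exact (hbelow i h5 h6).le
          · rw [h6, cn]
            have := hflat 0 (by omega)
            rw [cz] at this
            rw [this]
    · intro u w hN x hxT
      obtain ⟨i, him, h5⟩ := (t1 u w).1 hN
      have hxT' : InT v (c i) (c (i + 1 : ℕ)) x := by
        rcases h5 with h5 | h5
        · rw [← h5.1, ← h5.2]; exact hxT
        · rw [← h5.1, ← h5.2]; exact hxT.anti
      rw [hprn]
      exact hflt i him x hxT'
    · intro u hu hnb a b hN x hxT γ γ' hγ hγ' hk' h6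
      have hu' : u = c 0 ∨ u = c m := by
        rcases hnb with h | h
        · obtain ⟨i, hmi, hin', rfl⟩ := (hmem u).1 hu
          rcases hin'.lt_or_eq with h7 | h7
          · rw [hLsi i (by omega) h7] at h
            exact absurd h (by simp)
          · left; rw [h7, cn]
        · rw [hLn] at h
          right; exact (Option.some.inj h).symm
      obtain ⟨i, him, h5⟩ := (t1 a b).1 hN
      have hset : ({v, a, b} : Finset V) = {v, c i, c (i + 1 : ℕ)} := by
        rcases h5 with h5 | h5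
        · rw [h5.1, h5.2]
        · rw [h5.1, h5.2, Finset.pair_comm]
      have hxT' : InT v (c i) (c (i + 1 : ℕ)) x := by
        rcases h5 with h5 | h5
        · rw [← h5.1, ← h5.2]; exact hxT
        · rw [← h5.1, ← h5.2]; exact hxT.anti
      have h7 := hlin i x hxT'
      rw [h6, hLps, hLpn] at h7
      rcases hu' with hu' | hu'
      · rw [hu', ← q0] at h7
        obtain ⟨h8, h9⟩ := f4 i him (x (c i)) (x (c (i + 1 : ℕ))) γ γ' (hxT.1 _) (hxT.1 _) hγ hγ'
          hk' h7.symm
        subst h8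
        rw [cz] at h9
        refine ⟨c (0 + 1 : ℕ), ?_, ?_⟩
        · rw [hset, hu', cz]
        · rw [hu']; exact h9
      · rw [hu'] at h7
        obtain ⟨h8, h9⟩ := f5 i him (x (c i)) (x (c (i + 1 : ℕ))) γ γ' (hxT.1 _) (hxT.1 _) hγ hγ'
          hk' h7.symm
        refine ⟨c i, ?_, ?_⟩
        · rw [hset, hu', h8, Finset.pair_comm]
        · rw [hu', ← h8]; exact h9

end Pool.Agent.TSX
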