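import Pool.Agent.TSX.Stmts
import Pool.Agent.TSR.Base

/-!
# TSX / VPI: polygon of an inner vertex
-/

set_option autoImplicit false

namespace Pool.Agent.TSX.VPI_

open Set Filter Topology Pool.Agent.TSM Pool.Agent.TSR Pool.Agent.TSC

variable {V : Type} [Fintype V] [DecidableEq V]

/-- the facts about the link cycle -/
structure LC (K : Surf V) (v : V) {n : ℕ} (c : ZMod n → V) : Prop where
  n3 : 3 ≤ n
  inj : Function.Injective c
  nev : ∀ i, c i ≠ v
  tri : ∀ a b, ({v, a, b} : Finset V) ∈ K.tri ↔ a ≠ b ∧ ∃ i : ZMod n, (a = c i ∧ b = c (i + 1)) ∨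
      (a = c (i + 1) ∧ b = c i)
  nx : ∀ i : ZMod n, nx c (c i) = c (i + 1)
  pv : ∀ i : ZMod n, pv c (c i) = c (i - 1)

variable {K : Surf V} {v : V} {n : ℕ} {c : ZMod n → V} {p : V → E3}

theorem mem_S (j : Option V) : j ∈ (polI c p v).S ↔ ∃ i : ZMod n, j = some (c i) := by
  unfold polI
  simp only [Finset.mem_image, Finset.mem_filter, Finset.mem_univ, true_and]
  constructor
  · rintro ⟨x, ⟨i, hi⟩, rfl⟩
    exact ⟨i, by rw [hi]⟩
  · rintro ⟨i, rfl⟩
    exact ⟨c i, ⟨i, rfl⟩, rfl⟩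

theorem s_c (H : LC K v c) (i : ZMod n) :
    (polI c p v).s (some (c i)) = some (c (i + 1)) := by
  show (some (c i)).map (TSX.nx c) = _
  rw [Option.map_some, H.nx]

theorem pr_c (H : LC K v c) (i : ZMod n) :
    Option.map (pv c) (some (c i)) = some (c (i - 1)) := by
  rw [Option.map_some, H.pv]

theorem tri_succ (H : LC K v c) (i : ZMod n) : ({v, c i, c (i + 1)} : Finset V) ∈ K.tri := by
  rw [H.tri]
  refine ⟨?_, i, Or.inl ⟨rfl, rfl⟩⟩
  intro h
  have h1 := H.inj h
  have h2 : (1 : ZMod n) = 0 := by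
    have : i + 1 = i + 0 := by rw [← h1, add_zero]
    exact add_left_cancel this
  have h3 := H.n3
  have : Fact (1 < n) := ⟨by omega⟩
  exact one_ne_zero h2

theorem tri_pred (H : LC K v c) (i : ZMod n) : ({v, c i, c (i - 1)} : Finset V) ∈ K.tri := by
  have := tri_succ H (i - 1)
  rw [sub_add_cancel] at this
  exact tri_anti this

theorem adj (H : LC K v c) (i : ZMod n) : K.Adj v (c i) :=
  ⟨(H.nev i).symm, _, tri_succ H i, by simp, by simp⟩

theorem of_adj (H : LC K v c) {w : V} (h : K.Adj v w) : ∃ i : ZMod n, w = c i := by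
  obtain ⟨h1, t, ht, hv, hw⟩ := h
  obtain ⟨a, b, rfl⟩ := tri_cases ht hv
  obtain ⟨-, i, h2⟩ := (H.tri a b).1 ht
  simp only [Finset.mem_insert, Finset.mem_singleton] at hw
  rcases hw with hw | hw | hw
  · exact absurd hw.symm h1
  · rcases h2 with h2 | h2
    · exact ⟨i, by rw [hw, h2.1]⟩
    · exact ⟨i + 1, by rw [hw, h2.1]⟩
  · rcases h2 with h2 | h2
    · exact ⟨i + 1, by rw [hw, h2.2]⟩
    · exact ⟨i, by rw [hw, h2.2]⟩

theorem iter (H : LC K v c) (i : ZMod n) (m : ℕ) :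
    (polI c p v).s^[m] (some (c i)) = some (c (i + (m : ℕ))) := by
  induction m with
  | zero => simp
  | succ m ih =>
    rw [Function.iterate_succ_apply', ih, s_c H]
    congr 2
    push_cast
    ring

theorem card_S (H : LC K v c) : (polI c p v).S.card = n := by
  have h3 := H.n3
  have : NeZero n := ⟨by omega⟩
  have e : (polI c p v).S = (Finset.univ : Finset (ZMod n)).image (fun i => some (c i)) := by
    ext j
    rw [mem_S]
    simp only [Finset.mem_image, Finset.mem_univ, true_and]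
    constructor
    · rintro ⟨i, h⟩; exact ⟨i, h.symm⟩
    · rintro ⟨i, h⟩; exact ⟨i, h.symm⟩
  rw [e, Finset.card_image_of_injective, Finset.card_univ, ZMod.card]
  intro a b h
  exact H.inj (Option.some_injective _ h)

/-- three independent vectors do not positively span the space -/
theorem three (a b d : E3) (h : det3 a b d ≠ 0) : ∃ ν : E3, ν ≠ 0 ∧ (inner ℝ ν a : ℝ) < 0 ∧
    (inner ℝ ν b : ℝ) < 0 ∧ (inner ℝ ν d : ℝ) < 0 := by
  have hpos : 0 < det3 a b d * det3 a b d := mul_self_pos.2 h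
  have e : ∀ x : E3, (inner ℝ (-(det3 a b d) • (crs a b + crs b d + crs d a)) x : ℝ) =
      -(det3 a b d) * (det3 a b x + det3 b d x + det3 d a x) := by
    intro x
    rw [real_inner_smul_left, inner_add_left, inner_add_left, inner_crs, inner_crs, inner_crs]
  have ea : (inner ℝ (-(det3 a b d) • (crs a b + crs b d + crs d a)) a : ℝ) =
      -(det3 a b d * det3 a b d) := by
    rw [e]; simp only [det3]; ring
  have eb : (inner ℝ (-(det3 a b d) • (crs a b + crs b d + crs d a)) b : ℝ) =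
      -(det3 a b d * det3 a b d) := by
    rw [e]; simp only [det3]; ring
  have ed : (inner ℝ (-(det3 a b d) • (crs a b + crs b d + crs d a)) d : ℝ) =
      -(det3 a b d * det3 a b d) := by
    rw [e]; simp only [det3]; ring
  refine ⟨-(det3 a b d) • (crs a b + crs b d + crs d a), ?_, ?_, ?_, ?_⟩
  · intro h0
    rw [h0, inner_zero_left] at ea
    linarith
  · rw [ea]; linarith
  · rw [eb]; linarith
  · rw [ed]; linarith

theorem lin_single (p : V → E3) (x : V) (t : ℝ) : lin p (Pi.single x t) = t • p x := by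
  unfold lin
  rw [Finset.sum_eq_single x]
  · rw [Pi.single_eq_same]
  · intro y _ hy
    rw [Pi.single_eq_of_ne hy, zero_smul]
  · intro h; exact absurd (Finset.mem_univ x) h

omit [DecidableEq V] in
theorem lin_add (p : V → E3) (x y : V → ℝ) : lin p (x + y) = lin p x + lin p y := by
  unfold lin
  rw [← Finset.sum_add_distrib]
  apply Finset.sum_congr rfl
  intro z _
  rw [Pi.add_apply, add_smul]

/-- weights -/
noncomputable def wt (v x y : V) (a b : ℝ) : V → ℝ :=
  Pi.single v (1 - (a + b)) + Pi.single x a + Pi.single y b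

theorem wt_lin (v x y : V) (a b : ℝ) :
    lin p (wt v x y a b) = p v + (a • (p x - p v) + b • (p y - p v)) := by
  unfold wt
  rw [lin_add, lin_add, lin_single, lin_single, lin_single]
  module

theorem wt_sum (v x y : V) (a b : ℝ) : ∑ z, wt v x y a b z = 1 := by
  unfold wt
  simp only [Pi.add_apply, Finset.sum_add_distrib]
  rw [Finset.sum_pi_single', Finset.sum_pi_single', Finset.sum_pi_single']
  simp only [Finset.mem_univ, if_true]
  ring

theorem wt_star {x y : V} {a b : ℝ} (ht : ({v, x, y} : Finset V) ∈ K.tri) (ha : 0 ≤ a)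
    (hb : 0 ≤ b) (hab : a + b ≤ 1) : wt v x y a b ∈ K.star v := by
  refine ⟨?_, wt_sum v x y a b, _, ht, by simp, ?_⟩
  · intro z
    unfold wt
    simp only [Pi.add_apply]
    have h1 : (0 : ℝ) ≤ (Pi.single v (1 - (a + b)) : V → ℝ) z := by
      by_cases h : z = v
      · subst h; rw [Pi.single_eq_same]; linarith
      · rw [Pi.single_eq_of_ne h]
    have h2 : (0 : ℝ) ≤ (Pi.single x a : V → ℝ) z := by
      by_cases h : z = x
      · subst h; rw [Pi.single_eq_same]; linarith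
      · rw [Pi.single_eq_of_ne h]
    have h3 : (0 : ℝ) ≤ (Pi.single y b : V → ℝ) z := by
      by_cases h : z = y
      · subst h; rw [Pi.single_eq_same]; linarith
      · rw [Pi.single_eq_of_ne h]
    linarith
  · intro z hz
    simp only [Finset.mem_insert, Finset.mem_singleton, not_or] at hz
    unfold wt
    simp only [Pi.add_apply]
    rw [Pi.single_eq_of_ne hz.1, Pi.single_eq_of_ne hz.2.1, Pi.single_eq_of_ne hz.2.2]
    norm_num

/-- STAR TRICK -/
theorem star_trick (hemb : K.EmbStars p) {x y x' y' : V} {a b a' b' : ℝ}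
    (ht : ({v, x, y} : Finset V) ∈ K.tri) (ht' : ({v, x', y'} : Finset V) ∈ K.tri)
    (ha : 0 ≤ a) (hb : 0 ≤ b) (ha' : 0 ≤ a') (hb' : 0 ≤ b')
    (h : a • (p x - p v) + b • (p y - p v) = a' • (p x' - p v) + b' • (p y' - p v)) :
    ∀ z, z ≠ v → (Pi.single x a + Pi.single y b : V → ℝ) z =
      (Pi.single x' a' + Pi.single y' b' : V → ℝ) z := by
  have hs : 0 < 1 + a + b + a' + b' := by linarith
  set t : ℝ := (1 + a + b + a' + b')⁻¹ with ht0
  have htp : 0 < t := inv_pos.2 hs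
  have hts : t * (1 + a + b + a' + b') = 1 := inv_mul_cancel₀ hs.ne'
  have h1 : t * a + t * b ≤ 1 := by
    have : 0 ≤ t * (1 + a' + b') := mul_nonneg htp.le (by linarith)
    nlinarith
  have h2 : t * a' + t * b' ≤ 1 := by
    have : 0 ≤ t * (1 + a + b) := mul_nonneg htp.le (by linarith)
    nlinarith
  have m1 := wt_star (K := K) ht (mul_nonneg htp.le ha) (mul_nonneg htp.le hb) h1
  have m2 := wt_star (K := K) ht' (mul_nonneg htp.le ha') (mul_nonneg htp.le hb') h2
  have e : lin p (wt v x y (t * a) (t * b)) = lin p (wt v x' y' (t * a') (t * b')) := by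
    rw [wt_lin, wt_lin]
    have : (t * a) • (p x - p v) + (t * b) • (p y - p v) =
        (t * a') • (p x' - p v) + (t * b') • (p y' - p v) := by
      rw [mul_smul, mul_smul, mul_smul, mul_smul, ← smul_add, ← smul_add, h]
    rw [this]
  have e2 := hemb v m1 m2 e
  intro z hz
  have e3 := congrFun e2 z
  unfold wt at e3
  simp only [Pi.add_apply] at e3 ⊢
  rw [Pi.single_eq_of_ne hz, Pi.single_eq_of_ne hz] at e3
  have q : ∀ (x : V) (a : ℝ), (Pi.single x (t * a) : V → ℝ) z = t * (Pi.single x a : V → ℝ) z := by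
    intro x a
    by_cases h : z = x
    · subst h; rw [Pi.single_eq_same, Pi.single_eq_same]
    · rw [Pi.single_eq_of_ne h, Pi.single_eq_of_ne h, mul_zero]
  rw [q, q, q, q, zero_add, zero_add, ← mul_add, ← mul_add] at e3
  exact mul_left_cancel₀ htp.ne' e3

theorem simple (H : LC K v c) (hemb : K.EmbStars p) {a b : ZMod n} (hab : a ≠ b)
    {α β γ δ : ℝ} (hα : 0 ≤ α) (hβ : 0 ≤ β) (hγ : 0 ≤ γ) (hδ : 0 ≤ δ)
    (h : α • (p (c a) - p v) + β • (p (c (a + 1)) - p v) =
      γ • (p (c b) - p v) + δ • (p (c (b + 1)) - p v)) :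
    (a + 1 = b ∧ α = 0) ∨ (a = b + 1 ∧ β = 0) ∨ (α = 0 ∧ β = 0) := by
  have h3 := H.n3
  have : Fact (1 < n) := ⟨by omega⟩
  have key := star_trick hemb (tri_succ H a) (tri_succ H b) hα hβ hγ hδ h
  have n1 : a ≠ a + 1 := by
    intro h'
    have : a + 0 = a + 1 := by rw [← h', add_zero]
    exact zero_ne_one (add_left_cancel this)
  have n2 : c a ≠ c (a + 1) := fun h' => n1 (H.inj h')
  have n3 : c a ≠ c b := fun h' => hab (H.inj h')
  have n4 : c (a + 1) ≠ c (b + 1) := fun h' => hab (add_right_cancel (H.inj h'))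
  have k1 := key (c a) (H.nev a)
  have k2 := key (c (a + 1)) (H.nev (a + 1))
  simp only [Pi.add_apply] at k1 k2
  rw [Pi.single_eq_same, Pi.single_eq_of_ne n2, Pi.single_eq_of_ne n3] at k1
  rw [Pi.single_eq_same, Pi.single_eq_of_ne n2.symm, Pi.single_eq_of_ne n4] at k2
  by_cases c1 : a + 1 = b
  · left
    refine ⟨c1, ?_⟩
    have n5 : c a ≠ c (b + 1) := by
      intro h'
      have h5 := H.inj h'
      rw [← c1] at h5
      have h6 : (2 : ZMod n) = 0 := by
        have : a + 2 = a + 0 := by rw [add_zero]; rw [add_assoc] at h5; norm_num at h5; simp [h5]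
        exact add_left_cancel this
      have h7 : ((2 : ℕ) : ZMod n) = 0 := by exact_mod_cast h6
      rw [ZMod.natCast_eq_zero_iff] at h7
      have := Nat.le_of_dvd (by norm_num) h7
      omega
    rw [Pi.single_eq_of_ne n5] at k1
    linarith
  · have n6 : c (a + 1) ≠ c b := fun h' => c1 (H.inj h')
    rw [Pi.single_eq_of_ne n6] at k2
    right
    by_cases c2 : a = b + 1
    · left
      exact ⟨c2, by linarith⟩
    · right
      have n7 : c a ≠ c (b + 1) := fun h' => c2 (H.inj h')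
      rw [Pi.single_eq_of_ne n7] at k1
      exact ⟨by linarith, by linarith⟩

theorem ok (H : LC K v c) {Φ : Finset Aff} (hemb : K.EmbStars p) (hI : K.Inner p Φ v) :
    (polI c p v).Ok := by
  obtain ⟨hI1, hI2, hI3⟩ := hI
  have h3 := H.n3
  have : NeZero n := ⟨by omega⟩
  constructor
  · intro i hi
    obtain ⟨a, rfl⟩ := (mem_S _).1 hi
    rw [s_c H]
    exact (mem_S _).2 ⟨_, rfl⟩
  · intro i hi j hj h
    obtain ⟨a, rfl⟩ := (mem_S _).1 hi
    obtain ⟨b, rfl⟩ := (mem_S _).1 hj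
    rw [s_c H, s_c H] at h
    have := add_right_cancel (H.inj (Option.some_injective _ h))
    rw [this]
  · intro i hi j hj
    obtain ⟨a, rfl⟩ := (mem_S _).1 hi
    obtain ⟨b, rfl⟩ := (mem_S _).1 hj
    refine ⟨(b - a).val, ?_⟩
    rw [iter H, ZMod.natCast_zmod_val, add_sub_cancel]
  · rw [card_S H]
    rcases Nat.lt_or_ge 3 n with h4 | h4
    · exact h4
    · exfalso
      have h5 : n = 3 := by omega
      subst h5
      have d01 : c 0 ≠ c 1 := fun h => absurd (H.inj h) (by decide)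
      have d02 : c 0 ≠ c 2 := fun h => absurd (H.inj h) (by decide)
      have d12 : c 1 ≠ c 2 := fun h => absurd (H.inj h) (by decide)
      have hD := hI3 _ _ _ (adj H 0) (adj H 1) (adj H 2) d01 d02 d12
      obtain ⟨ν, hν, e0, e1, e2⟩ := three _ _ _ hD
      obtain ⟨w, hw, hw2⟩ := hI2 ν hν
      obtain ⟨i, rfl⟩ := of_adj H hw
      have hall : ∀ i : ZMod 3, i = 0 ∨ i = 1 ∨ i = 2 := by decide
      have hi := hall i
      rcases hi with rfl | rfl | rfl
      · linarith
      · linarith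
      · linarith
  · intro i hi j hj k hk hij hik hjk _
    obtain ⟨a, rfl⟩ := (mem_S _).1 hi
    obtain ⟨b, rfl⟩ := (mem_S _).1 hj
    obtain ⟨d, rfl⟩ := (mem_S _).1 hk
    exact hI3 _ _ _ (adj H a) (adj H b) (adj H d) (fun h => hij (by rw [h]))
      (fun h => hik (by rw [h])) (fun h => hjk (by rw [h]))
  · intro i hi j hj hij x hx hx'
    obtain ⟨a, rfl⟩ := (mem_S _).1 hi
    obtain ⟨b, rfl⟩ := (mem_S _).1 hj
    obtain ⟨α, β, hα, hβ, e1⟩ := hx
    obtain ⟨γ, δ, hγ, hδ, e2⟩ := hx'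
    rw [s_c H] at e1 e2 ⊢
    rw [s_c H]
    have e1' : x = α • (p (c a) - p v) + β • (p (c (a + 1)) - p v) := e1
    have e2' : x = γ • (p (c b) - p v) + δ • (p (c (b + 1)) - p v) := e2
    have hab : a ≠ b := fun h => hij (by rw [h])
    rcases simple H hemb hab hα hβ hγ hδ (e1'.symm.trans e2') with h | h | h
    · left
      refine ⟨by rw [h.1], β, hβ, ?_⟩
      show x = β • (p (c b) - p v)
      rw [e1', h.2, zero_smul, zero_add, h.1]
    · right; left
      refine ⟨by rw [h.1], α, hα, ?_⟩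
      show x = α • (p (c a) - p v)
      rw [e1', h.2, zero_smul, add_zero]
    · right; right
      rw [e1', h.1, h.2, zero_smul, zero_smul, add_zero]
  · left
    refine ⟨rfl, fun ν hν => ?_⟩
    obtain ⟨w, hw, hw2⟩ := hI2 ν hν
    obtain ⟨i, rfl⟩ := of_adj H hw
    exact ⟨some (c i), (mem_S _).2 ⟨i, rfl⟩, hw2⟩

end Pool.Agent.TSX.VPI_

namespace Pool.Agent.TSX

open Set Filter Topology Pool.Agent.TSM Pool.Agent.TSR Pool.Agent.TSC

theorem vpi_proof (h1 : Stmt_LNK) : Stmt_VPI := by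
  intro V _ _ K p Φ op v hF hop hI
  obtain ⟨n, c, hc⟩ := K.link v
  obtain ⟨ht, ho, hx⟩ := h1 V K op v n c hop hc
  have H : VPI_.LC K v c :=
    ⟨hc.1, hc.2.1, hc.2.2.1, ht, fun i => (hx i).1, fun i => (hx i).2⟩
  have nofac : ∀ u w, ¬ Fac p Φ v u w := by
    rintro u w ⟨φ, hφ, h0, -, -⟩
    have := hI.1 φ hφ
    linarith
  have hS : ∀ a b, ({v, a, b} : Finset V) ∈ K.tri → some a ∈ (polI c p v).S := by
    intro a b hab
    obtain ⟨-, i, h | h⟩ := (ht a b).1 hab
    · exact (VPI_.mem_S _).2 ⟨i, by rw [h.1]⟩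
    · exact (VPI_.mem_S _).2 ⟨i + 1, by rw [h.1]⟩
  refine ⟨polI c p v, Option.map (pv c), 1, ?_⟩
  refine ⟨VPI_.ok H hF.emb hI, ?_, one_pos, fun u _ => rfl, ?_, ?_, ?_, ?_, ?_, ?_⟩
  · intro i hi
    obtain ⟨a, rfl⟩ := (VPI_.mem_S _).1 hi
    refine ⟨?_, ?_, ?_⟩
    · rw [VPI_.pr_c H]; exact (VPI_.mem_S _).2 ⟨_, rfl⟩
    · rw [VPI_.pr_c H, VPI_.s_c H, sub_add_cancel]
    · rw [VPI_.s_c H, VPI_.pr_c H, add_sub_cancel_right]
  · intro u w h
    exact hS u w h.1
  · intro u hu
    obtain ⟨i, hi⟩ := (VPI_.mem_S _).1 hu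
    have hi' : u = c i := Option.some_injective _ hi
    subst hi'
    have t1 := VPI_.tri_pred H i
    have t2 := VPI_.tri_succ H i
    refine ⟨c (i - 1), ⟨t1, fun h => nofac _ _ h.1⟩, ?_, ?_⟩
    · exact Or.inl ⟨VPI_.pr_c H i, t1, nofac _ _⟩
    · rw [(ho i).2]
      exact Or.inl ⟨VPI_.s_c H i, t2, nofac _ _⟩
  · intro u w h
    obtain ⟨-, i, h' | h'⟩ := (ht u w).1 h.1
    · left
      rw [h'.1, h'.2, VPI_.s_c H]
    · right
      rw [h'.1, h'.2, VPI_.s_c H]
  · intro x hx'
    obtain ⟨u, w, htri, hin⟩ := star_InT hx'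
    obtain ⟨n1, n2, n3⟩ := tri_ne htri
    have e := hin.lin (p := p) n1 n2 n3
    obtain ⟨-, i, h' | h'⟩ := (ht u w).1 htri
    · refine ⟨some (c i), (VPI_.mem_S _).2 ⟨i, rfl⟩, x u, x w, hin.1 u, hin.1 w, ?_⟩
      rw [VPI_.s_c H, e]
      show _ = x u • (p (c i) - p v) + x w • (p (c (i + 1)) - p v)
      rw [← h'.1, ← h'.2]
      abel
    · refine ⟨some (c i), (VPI_.mem_S _).2 ⟨i, rfl⟩, x w, x u, hin.1 w, hin.1 u, ?_⟩
      rw [VPI_.s_c H, e]
      show _ = x w • (p (c i) - p v) + x u • (p (c (i + 1)) - p v)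
      rw [← h'.1, ← h'.2]
      abel
  · intro _
    refine ⟨?_, hI.1⟩
    intro h
    obtain ⟨i, hi⟩ := (VPI_.mem_S _).1 h
    exact absurd hi (by simp)
  · intro m hm
    exact absurd hm (by simp [polI])

end Pool.Agent.TSX
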