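import Pool.Agent.TSX.Stmts

/-!
# TSX: assembly of the vertex theorem `Stmt_VTX`
-/

set_option autoImplicit false

namespace Pool.Agent.TSX

open Set Filter Topology Pool.Agent.TSM Pool.Agent.TSR

namespace VTX_

theorem exists_lb {V : Type} (f : V → ℝ) (hf : ∀ v, 0 < f v) (s : Finset V) :
    ∃ d : ℝ, 0 < d ∧ ∀ v ∈ s, d ≤ f v := by
  classical
  induction s using Finset.induction_on with
  | empty => exact ⟨1, one_pos, fun v hv => absurd hv (Finset.notMem_empty v)⟩
  | insert a s ha ih =>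
    obtain ⟨d, hd, h⟩ := ih
    refine ⟨min d (f a), lt_min hd (hf a), fun v hv => ?_⟩
    rcases Finset.mem_insert.1 hv with rfl | hv
    · exact min_le_right _ _
    · exact (min_le_left _ _).trans (h v hv)

/-- no chamfers at the flat vertex -/
theorem ch_flat {W : Type} [DecidableEq W] {L : Pg W} (hok : L.Ok) {m : W} (hX : L.X = some m)
    {κ : Type} {μ ε : ℝ} {Ch : W → Finset κ} {N : κ → E3} (h : L.CondG μ ε Ch N) :
    Ch m = ∅ := by
  rcases hok.kind with ⟨h0, -⟩ | ⟨m', hm', hc⟩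
  · rw [h0] at hX; exact absurd hX (by simp)
  · have : m' = m := by
      rw [hm'] at hX; simpa using hX
    subst this
    obtain ⟨-, q, hq, hqm, ⟨a, b, ha, hb, hab⟩, -⟩ := hc
    have hpm : L.p m' = -(a • L.p q + b • L.p (L.s m')) := by
      rw [eq_neg_iff_add_eq_zero, add_comm]; exact hab
    have ht : L.turn q = 0 := by
      unfold Pg.turn
      rw [hqm, hpm]
      simp only [det3, PiLp.neg_apply, PiLp.add_apply, PiLp.smul_apply, smul_eq_mul]
      ring
    have := (h q hq).1 ht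
    rwa [hqm] at this

end VTX_

open VTX_

theorem vtx_of (hVM2 : Stmt_VM2) (hExt : Stmt_Ext) (hARM : Stmt_ARM) (hBETA : Stmt_BETA)
    (hLIM : Stmt_LIM) (hNRV : Stmt_NRV) (hRFC : Stmt_RFC) (hRFE : Stmt_RFE) (hRFF : Stmt_RFF)
    (hRFT : Stmt_RFT) (hVPI : Stmt_VPI) (hVPC : Stmt_VPC) : Stmt_VTX := by
  classical
  intro V _ _ K p Φ op hfr hop
  have hall : ∀ v, ∃ d₁ : ℝ, 0 < d₁ ∧ (¬ K.Outer p Φ v →
      ∃ (L : Pg (Option V)) (pr : Option V → Option V) (k : ℝ) (τ : V → ℝ) (e : Option V → E3),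
        VP K p Φ op v L pr k ∧ Arms K p Φ op v L pr τ e d₁) := by
    intro v
    by_cases ho : K.Outer p Φ v
    · exact ⟨1, one_pos, fun h => absurd ho h⟩
    · have : ∃ (L : Pg (Option V)) (pr : Option V → Option V) (k : ℝ), VP K p Φ op v L pr k := by
        rcases hfr.kinds v with h | h | h
        · exact absurd h ho
        · exact hVPI V K p Φ op v hfr hop h
        · exact hVPC V K p Φ op v hfr hop h
      obtain ⟨L, pr, k, hvp⟩ := this
      obtain ⟨τ, e, d₁, harm⟩ := hARM V K p Φ op v L pr k hfr hop hvp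
      exact ⟨d₁, harm.d1, fun _ => ⟨L, pr, k, τ, e, hvp, harm⟩⟩
  choose dd hdd hpol using hall
  obtain ⟨d₂, hd₂, hd₂'⟩ := exists_lb dd hdd Finset.univ
  refine ⟨min (1 / 8) d₂, by positivity, fun d hd hdlt v hv => ?_⟩
  have hd8 : d < 1 / 8 := hdlt.trans_le (min_le_left _ _)
  have hdd₁ : d ≤ dd v := (hdlt.trans_le (min_le_right _ _)).le.trans (hd₂' v (Finset.mem_univ v))
  obtain ⟨L, pr, k, τ, e, hvp, harm⟩ := hpol v hv
  obtain ⟨β, hadm, hβ⟩ := hBETA (Option V) L e hvp.ok harm.pos d hd (by linarith)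
  obtain ⟨μ, ε0, hμ, hε0, hvm⟩ := hVM2 (Option V) L hvp.ok β hadm
  obtain ⟨εx, hεx, hext⟩ := hExt (Option V) L hvp.ok β hadm μ hμ
  obtain ⟨k', c, C, ε₁, hk', hk1, hc, hε₁, hlim⟩ :=
    hLIM V K p Φ op v L pr k τ e (dd v) hfr hop hvp harm μ hμ
  have hk := hvp.kpos
  refine ⟨c, C, min (min ε0 εx) (min ε₁ (min (d / 4) (k * d / 8))), hc, by positivity,
    fun ε' hε' hlt => ?_⟩
  have l1 : ε' < ε0 := hlt.trans_le ((min_le_left _ _).trans (min_le_left _ _))
  have l2 : ε' < εx := hlt.trans_le ((min_le_left _ _).trans (min_le_right _ _))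
  have l3 : ε' < ε₁ := hlt.trans_le ((min_le_right _ _).trans (min_le_left _ _))
  have l4 : ε' < d / 4 :=
    hlt.trans_le ((min_le_right _ _).trans ((min_le_right _ _).trans (min_le_left _ _)))
  have l5 : ε' < k * d / 8 :=
    hlt.trans_le ((min_le_right _ _).trans ((min_le_right _ _).trans (min_le_right _ _)))
  have hε : 0 < k' * ε' := by positivity
  have hεle : k' * ε' ≤ ε' := by nlinarith
  obtain ⟨κ, Ch, N, hcg, hne, hres⟩ := hvm (k' * ε') hε (hεle.trans_lt l1)
  obtain ⟨oL, oN, η, R, M, hη, hR, hoff, hD⟩ := hext (k' * ε') hε (hεle.trans_lt l2) κ Ch N hcg hres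
  have hanti := (hNRV V K p Φ op v L pr k hfr hop hvp κ Ch N μ (k' * ε') hcg oL oN η 1 hη one_pos
    hoff).1
  refine ⟨κ, fun u => Ch (some u), τ, N, fun u w hfl => ⟨?_, ?_⟩, oV L oL, oN, η, R, |M|, hη, hR,
    hanti, fun r hr P B hnear => ?_⟩
  · obtain ⟨h1, h2⟩ := harm.tau u (hvp.flag u w hfl)
    rw [h2]
    rcases lt_or_gt_of_ne h1 with h | h
    · right; exact Real.sign_of_neg h
    · left; exact Real.sign_of_pos h
  · exact hlim ε' hε' l3 κ Ch N hcg hne u w hfl
  have hn := (hNRV V K p Φ op v L pr k hfr hop hvp κ Ch N μ (k' * ε') hcg oL oN η r hη hr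
    hoff).2 P B hnear
  obtain ⟨D, hDc, hDg, hDb, hDf⟩ := hD _ _ hn
  have cv : CV K p Φ op v L pr k τ e (dd v) d (k' * ε') β Ch N oL oN η r R M P B D :=
    { fr := hfr
      opp := hop
      vp := hvp
      arms := harm
      dpos := hd
      dd := hdd₁
      d8 := hd8.le
      eps := hε
      epsd := by linarith
      epsk := by nlinarith
      beta := hβ
      adm := hadm
      chn := fun hX => ch_flat hvp.ok hX hcg
      rpos := hr
      Rpos := hR
      near := hnear
      cont := hDc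
      good := hDg
      bound := hDb
      far := hDf }
  obtain ⟨g1, g2, g3, g4⟩ := hRFC V K p Φ op v L pr k τ e (dd v) d (k' * ε') β κ Ch N oL oN η r R M
    P B D cv
  refine ⟨gV (p v) r D, ?_⟩
  exact
    { cont := g1
      good := g2
      bd := g3
      half := g4
      edge := fun u w hfl x hx hxv hxR hxw =>
        hRFE V K p Φ op v L pr k τ e (dd v) d (k' * ε') β κ Ch N oL oN η r R M P B D cv
          u w hfl x hx hxv hxR hxw _ rfl
      face := fun u w hnf x hx hxv hxR h1 h2 =>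
        hRFF V K p Φ op v L pr k τ e (dd v) d (k' * ε') β κ Ch N oL oN η r R M P B D cv
          u w hnf x hx hxv hxR h1 h2
      fact := fun u w hft x hx hxv hxR h1 h2 =>
        hRFT V K p Φ op v L pr k τ e (dd v) d (k' * ε') β κ Ch N oL oN η r R M P B D cv
          u w hft x hx hxv hxR h1 h2 }

end Pool.Agent.TSX
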