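import Pool.Agent.TSM.VMClosed
import Pool.Agent.TSX.VTX
import Pool.Agent.TSX.ARM
import Pool.Agent.TSX.BETA
import Pool.Agent.TSX.FAN
import Pool.Agent.TSX.LIM
import Pool.Agent.TSX.LNK
import Pool.Agent.TSX.NRV
import Pool.Agent.TSX.RFC
import Pool.Agent.TSX.RFE
import Pool.Agent.TSX.RFF
import Pool.Agent.TSX.RFT
import Pool.Agent.TSX.TYP
import Pool.Agent.TSX.VPC
import Pool.Agent.TSX.VPI

/-!
# TSX: the vertex theorem, from the admissibility of the polygon of a corner vertex
-/

set_option autoImplicit false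

namespace Pool.Agent.TSX

open Pool.Agent.TSM Pool.Agent.TSR

/-- the vertex theorem -/
theorem vtx_of_vco (h : Stmt_VCO) : Stmt_VTX :=
  vtx_of vm2 ext arm_proof beta_proof lim_proof NRV_proof rfc_proof rfe_proof rff_proof rft_proof
    (vpi_proof lnk_proof) (vpc_proof lnk_proof (typ_proof lnk_proof) fan_proof h)

end Pool.Agent.TSX
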